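import Pool.Agent.H99.KG.Main

set_option autoImplicit false

/-! # Two special cases -/

namespace Pool.Agent.H99.KG

open Finset Filter MeasureTheory Topology

theorem khintchine_K (K : ℝ) (ψ : ℕ → ℝ) (hψ : Antitone ψ) (hψ0 : ∀ q, 0 ≤ ψ q)
    (hdiv : ¬ Summable ψ) :
    ∀ᵐ x : ℝ, {q : ℕ | 0 < q ∧ (∀ p : ℕ, p.Prime → K * Real.log q < |(p : ℝ) - q|) ∧
      ∃ a : ℤ, Int.gcd a q = 1 ∧ |x - a / q| < ψ q / q}.Infinite := by
  obtain ⟨T₀, h⟩ := khintchine (1 / 7) (by norm_num) (by norm_num)
  set t : ℝ := max T₀ (Real.exp (7 * K)) with ht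
  have h1 := h (fun _ => t) ψ (fun _ _ _ => le_rfl) (Eventually.of_forall fun _ => le_max_left _ _)
    ((Real.tendsto_log_atTop.comp tendsto_natCast_atTop_atTop).eventually_ge_atTop t) hψ hψ0
    (by
      intro hs
      apply hdiv
      have := hs.mul_right (Real.exp t)
      refine this.congr fun q => ?_
      rw [mul_assoc, ← Real.exp_add]; simp)
  filter_upwards [h1] with x hx
  apply hx.mono
  rintro q ⟨h1, h2, h3⟩
  refine ⟨h1, fun p hp => lt_of_le_of_lt ?_ (h2 p hp), h3⟩
  have hq : 0 ≤ Real.log q := Real.log_natCast_nonneg q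
  have hK : 7 * K ≤ Real.log t := by
    rw [Real.le_log_iff_exp_le (lt_of_lt_of_le (Real.exp_pos _) (le_max_right _ _))]
    exact le_max_right _ _
  nlinarith [mul_le_mul_of_nonneg_left hK hq]

lemma not_summable_loglog :
    ¬ Summable (fun q : ℕ => 1 / (2 * ((q : ℝ) + 1)) * Real.exp (-Real.log (Real.log ((q : ℝ) + 3)))) := by
  have hpos : ∀ q : ℕ, 1 < Real.log ((q : ℝ) + 3) := by
    intro q
    rw [Real.lt_log_iff_exp_lt (by positivity)]
    have := Real.exp_one_lt_d9
    have hq : (0 : ℝ) ≤ q := Nat.cast_nonneg q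
    linarith
  have e : ∀ q : ℕ, 1 / (2 * ((q : ℝ) + 1)) * Real.exp (-Real.log (Real.log ((q : ℝ) + 3))) =
      1 / (2 * ((q : ℝ) + 1)) * (Real.log ((q : ℝ) + 3))⁻¹ := by
    intro q
    rw [Real.exp_neg, Real.exp_log (by linarith [hpos q])]
  simp_rw [e]
  rw [← summable_condensed_iff_of_nonneg]
  · intro hs
    have h2 : Summable (fun k : ℕ => (1 : ℝ) / ((k + 3 : ℕ) : ℝ)) := by
      have h3 := hs.mul_left 12
      apply Summable.of_nonneg_of_le (fun k => by positivity) _ h3
      intro k
      push_cast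
      have hk : (1 : ℝ) ≤ 2 ^ k := one_le_pow₀ (by norm_num)
      have h4 : Real.log ((2 : ℝ) ^ k + 3) ≤ k + 2 := by
        have h5 : (2 : ℝ) ^ k + 3 ≤ 2 ^ (k + 2) := by
          rw [pow_add]; norm_num; linarith
        calc Real.log ((2 : ℝ) ^ k + 3) ≤ Real.log (2 ^ (k + 2)) := Real.log_le_log (by positivity) h5
          _ = (k + 2) * Real.log 2 := by rw [Real.log_pow]; push_cast; ring
          _ ≤ (k + 2) * 1 := by
              have := Real.log_two_lt_d9
              gcongr
              linarith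
          _ = _ := by ring
      have h0 : 0 < Real.log ((2 : ℝ) ^ k + 3) := by
        have := hpos (2 ^ k)
        push_cast at this
        linarith
      have h6 : (1 : ℝ) / (k + 3) ≤ (Real.log ((2 : ℝ) ^ k + 3))⁻¹ := by
        rw [one_div]
        apply inv_anti₀ h0
        linarith
      have h7 : (1 : ℝ) ≤ 12 * (2 ^ k * (1 / (2 * ((2 : ℝ) ^ k + 1)))) := by
        rw [mul_one_div, ← mul_div_assoc, le_div_iff₀ (by positivity)]
        linarith
      have h8 : 0 ≤ (Real.log ((2 : ℝ) ^ k + 3))⁻¹ := by positivity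
      calc (1 : ℝ) / (k + 3) ≤ 1 * (Real.log ((2 : ℝ) ^ k + 3))⁻¹ := by rw [one_mul]; exact h6
        _ ≤ (12 * (2 ^ k * (1 / (2 * ((2 : ℝ) ^ k + 1))))) * (Real.log ((2 : ℝ) ^ k + 3))⁻¹ := by
            gcongr
        _ = _ := by ring
    have h3 := (summable_nat_add_iff (f := fun n : ℕ => (1 : ℝ) / (n : ℝ)) 3).mp h2
    exact Real.not_summable_one_div_natCast h3
  · intro n
    have := hpos n
    have h2 : (0 : ℝ) < Real.log ((n : ℝ) + 3) := by linarith
    positivity
  · intro m n _ hmn
    have hm := hpos m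
    have hmn' : (m : ℝ) ≤ n := by exact_mod_cast hmn
    have hm0 : (0 : ℝ) ≤ m := Nat.cast_nonneg m
    have h1 : Real.log ((m : ℝ) + 3) ≤ Real.log ((n : ℝ) + 3) :=
      Real.log_le_log (by positivity) (by linarith)
    apply mul_le_mul
    · apply one_div_le_one_div_of_le (by positivity); linarith
    · exact inv_anti₀ (by linarith) h1
    · have : (0 : ℝ) < Real.log ((n : ℝ) + 3) := by linarith
      positivity
    · positivity

theorem convergents (c : ℝ) (hc : 0 < c) (hc6 : c < 1 / 6) :
    ∀ᵐ x : ℝ, {n : ℕ | 16 ≤ (x.convergent n).den ∧ ∀ p : ℕ, p.Prime →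
      c * (Real.log (x.convergent n).den *
        Real.log (Real.log (Real.log (x.convergent n).den))) <
          |(p : ℝ) - (x.convergent n).den|}.Infinite := by
  obtain ⟨T₀, h⟩ := khintchine c hc hc6
  have hpos : ∀ q : ℕ, 1 < Real.log ((q : ℝ) + 3) := by
    intro q
    rw [Real.lt_log_iff_exp_lt (by positivity)]
    have := Real.exp_one_lt_d9
    have hq : (0 : ℝ) ≤ q := Nat.cast_nonneg q
    linarith
  have hcast : Tendsto (fun q : ℕ => (q : ℝ) + 3) atTop atTop :=
    tendsto_atTop_add_const_right _ _ tendsto_natCast_atTop_atTop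
  have h1 := h (fun q => Real.log (Real.log ((q : ℝ) + 3))) (fun q => 1 / (2 * ((q : ℝ) + 1)))
    (by
      intro a b hab
      have hab' : (a : ℝ) ≤ b := by exact_mod_cast hab
      have ha0 : (0 : ℝ) ≤ a := Nat.cast_nonneg a
      apply Real.log_le_log (by linarith [hpos a])
      exact Real.log_le_log (by positivity) (by linarith))
    ((Real.tendsto_log_atTop.comp (Real.tendsto_log_atTop.comp hcast)).eventually_ge_atTop T₀)
    (by
      filter_upwards [eventually_ge_atTop 3] with q hq
      have hq' : (3 : ℝ) ≤ q := by exact_mod_cast hq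
      have h2 : Real.log ((q : ℝ) + 3) ≤ q := by
        have h3 : Real.log ((q : ℝ) + 3) ≤ Real.log (2 * q) :=
          Real.log_le_log (by positivity) (by linarith)
        rw [Real.log_mul (by norm_num) (by positivity)] at h3
        have h4 := Real.log_le_sub_one_of_pos (show (0 : ℝ) < q by positivity)
        have := Real.log_two_lt_d9
        linarith
      exact Real.log_le_log (by linarith [hpos q]) h2)
    (by
      intro a b hab
      have hab' : (a : ℝ) ≤ b := by exact_mod_cast hab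
      have ha0 : (0 : ℝ) ≤ a := Nat.cast_nonneg a
      apply one_div_le_one_div_of_le (by positivity)
      linarith)
    (fun q => by positivity) not_summable_loglog
  filter_upwards [h1] with x hx
  -- the denominators `q ≥ 16`
  have hx2 : ({q : ℕ | 0 < q ∧ (∀ p : ℕ, p.Prime → c * (Real.log q *
      Real.log (Real.log (Real.log ((q : ℝ) + 3)))) < |(p : ℝ) - q|) ∧
      ∃ a : ℤ, Int.gcd a q = 1 ∧ |x - a / q| < 1 / (2 * ((q : ℝ) + 1)) / q} \ Set.Iio 16).Infinite :=
    hx.sdiff (Set.finite_Iio 16)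
  intro hfin
  apply hx2
  apply (hfin.image (fun n => (x.convergent n).den)).subset
  rintro q ⟨⟨hq0, hq1, a, ha1, ha2⟩, hq3⟩
  rw [Set.mem_Iio, not_lt] at hq3
  have hq3' : (16 : ℝ) ≤ q := by exact_mod_cast hq3
  have hqr : (0 : ℝ) < q := by linarith
  -- the rational number
  set r : ℚ := (a : ℚ) / (q : ℚ) with hr
  have hden : r.den = q := by
    rw [hr]
    have h2 : ((a : ℚ) / ((q : ℤ) : ℚ)).den = (q : ℤ) := Rat.den_div_eq_of_coprime
      (by exact_mod_cast hq0) (by simpa [Int.gcd] using ha1)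
    push_cast at h2
    exact_mod_cast h2
  have hrr : ((r : ℚ) : ℝ) = a / q := by rw [hr]; push_cast; ring
  have hlt : |x - r| < 1 / (2 * (r.den : ℝ) ^ 2) := by
    rw [hrr, hden]
    refine ha2.trans ?_
    rw [div_div]
    apply one_div_lt_one_div_of_lt (by positivity)
    nlinarith
  obtain ⟨n, hn⟩ := Real.exists_rat_eq_convergent hlt
  refine ⟨n, ⟨by rw [← hn, hden]; exact hq3, ?_⟩, ?_⟩
  · intro p hp
    rw [← hn, hden]
    refine lt_of_le_of_lt ?_ (hq1 p hp)
    apply mul_le_mul_of_nonneg_left _ hc.le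
    apply mul_le_mul_of_nonneg_left _ (Real.log_natCast_nonneg q)
    have h5 : 1 < Real.log q := by
      rw [Real.lt_log_iff_exp_lt hqr]
      have := Real.exp_one_lt_d9
      linarith
    apply Real.log_le_log (Real.log_pos h5)
    apply Real.log_le_log (by linarith)
    exact Real.log_le_log hqr (by linarith)
  · show (x.convergent n).den = q
    rw [← hn, hden]

/-- all constants at once -/
theorem convergents_all : ∀ᵐ x : ℝ, ∀ c : ℝ, c < 1 / 6 → {n : ℕ | ∀ p : ℕ, p.Prime →
      c * (Real.log (x.convergent n).den *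
        Real.log (Real.log (Real.log (x.convergent n).den))) <
          |(p : ℝ) - (x.convergent n).den|}.Infinite := by
  have h : ∀ r : ℚ, ∀ᵐ x : ℝ, (0 < (r : ℝ) ∧ (r : ℝ) < 1 / 6) →
      {n : ℕ | 16 ≤ (x.convergent n).den ∧ ∀ p : ℕ, p.Prime →
      (r : ℝ) * (Real.log (x.convergent n).den *
        Real.log (Real.log (Real.log (x.convergent n).den))) <
          |(p : ℝ) - (x.convergent n).den|}.Infinite := by
    intro r
    by_cases hr : 0 < (r : ℝ) ∧ (r : ℝ) < 1 / 6
    · filter_upwards [convergents r hr.1 hr.2] with x hx _ using hx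
    · exact Eventually.of_forall fun x h => absurd h hr
  filter_upwards [ae_all_iff.mpr h] with x hx
  intro c hc
  obtain ⟨r, hr1, hr2⟩ := exists_rat_btwn (show max c 0 < 1 / 6 from max_lt hc (by norm_num))
  have h1 := hx r ⟨lt_of_le_of_lt (le_max_right _ _) hr1, hr2⟩
  have hcr : c ≤ r := (le_max_left c 0).trans hr1.le
  apply h1.mono
  rintro n ⟨hn, h2⟩ p hp
  have hn' : (16 : ℝ) ≤ (x.convergent n).den := by exact_mod_cast hn
  refine lt_of_le_of_lt ?_ (h2 p hp)
  apply mul_le_mul_of_nonneg_right hcr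
  apply mul_nonneg (Real.log_nonneg (by linarith))
  apply Real.log_nonneg
  have he := Real.exp_one_lt_d9
  have he0 := Real.exp_pos 1
  rw [Real.le_log_iff_exp_le (Real.log_pos (by linarith))]
  rw [Real.le_log_iff_exp_le (by linarith)]
  have h4 : Real.exp (Real.exp 1) ≤ Real.exp (2.7182818286) := Real.exp_le_exp.mpr he.le
  refine h4.trans ?_
  have h5 : Real.exp (2.7182818286) = Real.exp 1 ^ 2 * Real.exp (0.7182818286) := by
    rw [← Real.exp_nat_mul, ← Real.exp_add]
    norm_num
  rw [h5]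
  have h6 : Real.exp (0.7182818286) ≤ 2.07 := by
    have h7 := Real.exp_bound' (x := 0.7182818286) (by norm_num) (by norm_num) (n := 6) (by norm_num)
    refine h7.trans ?_
    norm_num [Finset.sum_range_succ, Nat.factorial]
  have h8 : Real.exp 1 ^ 2 ≤ 7.3891 := by nlinarith
  have h9 : 0 < Real.exp 1 ^ 2 := by positivity
  nlinarith [Real.exp_pos (0.7182818286 : ℝ)]

end Pool.Agent.H99.KG
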