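import Mathlib

set_option autoImplicit false

/-! # The theorem of Duffin and Schaeffer (1941) for denominators with `φ(q) ≥ c q`

The circle version, from Gallagher's zero-one law of Mathlib and the second moment. -/

namespace Pool.Agent.H99.KG

open Set Filter Metric MeasureTheory Topology
open scoped ENNReal

/-- points of order dividing `n` -/
lemma tors_card (n : ℕ) (hn : 0 < n) : {x : UnitAddCircle | n • x = 0}.ncard ≤ n := by
  have h := AddCircle.card_torsion_le_of_isSMulRegular (𝕜 := ℝ) (1 : ℝ) n hn.ne'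
    (.of_right_eq_zero_of_smul fun _ ↦ by simp [hn.ne'])
  rw [Set.ncard]
  exact ENat.toNat_le_of_le_natCast h

lemma tors_finite (n : ℕ) (hn : 0 < n) : {x : UnitAddCircle | n • x = 0}.Finite :=
  AddCircle.finite_torsion (1 : ℝ) hn

/-- an integer multiple of `1/L` which represents `w` -/
lemma rep_int (L : ℕ) (hL : 0 < L) (w : UnitAddCircle) (hw : L • w = 0) (hw0 : w ≠ 0) :
    ∃ k : ℤ, k ≠ 0 ∧ |(k : ℝ)| = L * ‖w‖ ∧ w = (((k : ℝ) / L : ℝ) : UnitAddCircle) := by
  obtain ⟨x, rfl⟩ := QuotientAddGroup.mk_surjective w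
  have hLr : (0 : ℝ) < L := by exact_mod_cast hL
  set y : ℝ := x - round x with hy
  have hxy : ((y : ℝ) : UnitAddCircle) = ((x : ℝ) : UnitAddCircle) := by
    rw [hy, AddCircle.coe_sub]
    have : (((round x : ℤ) : ℝ) : UnitAddCircle) = 0 := by
      rw [AddCircle.coe_eq_zero_iff]
      exact ⟨round x, by simp⟩
    rw [this, sub_zero]
  have hn : ‖((x : ℝ) : UnitAddCircle)‖ = |y| := UnitAddCircle.norm_eq
  have hk : ((L * y : ℝ) : UnitAddCircle) = 0 := by
    have : ((L * y : ℝ) : UnitAddCircle) = L • ((y : ℝ) : UnitAddCircle) := by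
      rw [← AddCircle.coe_nsmul, nsmul_eq_mul]
    rw [this, hxy]; exact hw
  rw [AddCircle.coe_eq_zero_iff] at hk
  obtain ⟨k, hk⟩ := hk
  have hk' : (k : ℝ) = L * y := by simpa using hk
  refine ⟨k, ?_, ?_, ?_⟩
  · rintro rfl
    apply hw0
    have : y = 0 := by
      have h0 : (L : ℝ) * y = 0 := by rw [← hk']; simp
      rcases mul_eq_zero.mp h0 with h | h
      · exact absurd h hLr.ne'
      · exact h
    change ((x : ℝ) : UnitAddCircle) = 0
    rw [← hxy, this]; simp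
  · rw [hk', abs_mul, abs_of_pos hLr]
    change (L : ℝ) * |y| = L * ‖((x : ℝ) : UnitAddCircle)‖
    rw [hn]
  · rw [hk', mul_div_cancel_left₀ _ hLr.ne']
    exact hxy.symm

lemma small_card (L : ℕ) (hL : 0 < L) (Δ : ℝ) (hΔ : 0 < Δ) :
    {w : UnitAddCircle | L • w = 0 ∧ w ≠ 0 ∧ ‖w‖ < Δ}.Finite ∧
    (({w : UnitAddCircle | L • w = 0 ∧ w ≠ 0 ∧ ‖w‖ < Δ}.ncard : ℕ) : ℝ) ≤ 2 * (L * Δ) := by
  have hLr : (0 : ℝ) < L := by exact_mod_cast hL
  have hfin : {w : UnitAddCircle | L • w = 0 ∧ w ≠ 0 ∧ ‖w‖ < Δ}.Finite :=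
    (tors_finite L hL).subset fun w hw => hw.1
  refine ⟨hfin, ?_⟩
  set B : ℤ := ⌈(L : ℝ) * Δ⌉ - 1 with hB
  have hLD : 0 < (L : ℝ) * Δ := by positivity
  have hB0 : 0 ≤ B := by
    have : 0 < ⌈(L : ℝ) * Δ⌉ := Int.ceil_pos.mpr hLD
    omega
  have hBlt : (B : ℝ) < L * Δ := by
    rw [hB]; push_cast
    have := Int.ceil_lt_add_one ((L : ℝ) * Δ)
    linarith
  set T : Finset ℤ := (Finset.Icc (-B) B).erase 0 with hT
  have hTc : (T.card : ℤ) = 2 * B := by
    rw [hT, Finset.card_erase_of_mem (by rw [Finset.mem_Icc]; omega), Int.card_Icc]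
    omega
  have hsub : {w : UnitAddCircle | L • w = 0 ∧ w ≠ 0 ∧ ‖w‖ < Δ} ⊆
      (fun k : ℤ => (((k : ℝ) / L : ℝ) : UnitAddCircle)) '' (T : Set ℤ) := by
    rintro w ⟨hw1, hw2, hw3⟩
    obtain ⟨k, hk0, hk1, hk2⟩ := rep_int L hL w hw1 hw2
    refine ⟨k, ?_, hk2.symm⟩
    rw [hT, Finset.mem_coe, Finset.mem_erase, Finset.mem_Icc]
    refine ⟨hk0, ?_⟩
    have h1 : |(k : ℝ)| < L * Δ := by rw [hk1]; exact mul_lt_mul_of_pos_left hw3 hLr
    have h2 : |k| ≤ B := by
      have h3 : ((|k| : ℤ) : ℝ) < L * Δ := by push_cast; exact h1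
      have h4 : |k| < ⌈(L : ℝ) * Δ⌉ := Int.lt_ceil.mpr h3
      omega
    exact abs_le.mp h2
  have h1 : {w : UnitAddCircle | L • w = 0 ∧ w ≠ 0 ∧ ‖w‖ < Δ}.ncard ≤ T.card := by
    calc _ ≤ ((fun k : ℤ => (((k : ℝ) / L : ℝ) : UnitAddCircle)) '' (T : Set ℤ)).ncard :=
          Set.ncard_le_ncard hsub (T.finite_toSet.image _)
      _ ≤ (T : Set ℤ).ncard := Set.ncard_image_le T.finite_toSet
      _ = T.card := Set.ncard_coe_finset T
  have h2 : ((T.card : ℕ) : ℝ) = 2 * (B : ℝ) := by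
    have : ((T.card : ℤ) : ℝ) = ((2 * B : ℤ) : ℝ) := by rw [hTc]
    push_cast at this
    exact this
  calc (({w : UnitAddCircle | L • w = 0 ∧ w ≠ 0 ∧ ‖w‖ < Δ}.ncard : ℕ) : ℝ) ≤ T.card := by
        exact_mod_cast h1
    _ = 2 * (B : ℝ) := h2
    _ ≤ 2 * (L * Δ) := by linarith

/-- the points of order `n` -/
def Ord (n : ℕ) : Set UnitAddCircle := {y | addOrderOf y = n}

lemma ord_finite (n : ℕ) (hn : 0 < n) : (Ord n).Finite :=
  AddCircle.finite_setOfPred_addOrderOf_eq (1 : ℝ) hn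

lemma ord_card (n : ℕ) : (Ord n).ncard = n.totient := by
  have := AddCircle.card_addOrderOf_eq_totient (p := (1 : ℝ)) (n := n)
  rw [← this]
  rfl

/-- close pairs of points of different orders -/
lemma pair_card (n m : ℕ) (hn : 0 < n) (hm : 0 < m) (hnm : n ≠ m) (Δ : ℝ) (hΔ : 0 < Δ) :
    ∃ S : Finset (UnitAddCircle × UnitAddCircle),
      (∀ x, x ∈ S ↔ x.1 ∈ Ord n ∧ x.2 ∈ Ord m ∧ ‖x.1 - x.2‖ < Δ) ∧
      (S.card : ℝ) ≤ 2 * (n * m * Δ) := by
  classical
  have hfin : {x : UnitAddCircle × UnitAddCircle |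
      x.1 ∈ Ord n ∧ x.2 ∈ Ord m ∧ ‖x.1 - x.2‖ < Δ}.Finite :=
    ((ord_finite n hn).prod (ord_finite m hm)).subset fun x hx => ⟨hx.1, hx.2.1⟩
  refine ⟨hfin.toFinset, fun x => by simp, ?_⟩
  set S := hfin.toFinset with hS
  have hmem : ∀ x, x ∈ S ↔ x.1 ∈ Ord n ∧ x.2 ∈ Ord m ∧ ‖x.1 - x.2‖ < Δ := fun x => by simp [hS]
  set L := Nat.lcm n m with hL
  have hLpos : 0 < L := Nat.lcm_pos hn hm
  obtain ⟨hWfin, hWcard⟩ := small_card L hLpos Δ hΔ
  set W := hWfin.toFinset with hW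
  have himg : S.image (fun x => x.1 - x.2) ⊆ W := by
    intro w hw
    rw [Finset.mem_image] at hw
    obtain ⟨x, hx, rfl⟩ := hw
    obtain ⟨h1, h2, h3⟩ := (hmem x).mp hx
    rw [hW, Set.Finite.mem_toFinset]
    have e1 : n • x.1 = 0 := by rw [← (show addOrderOf x.1 = n from h1)]; exact addOrderOf_nsmul_eq_zero _
    have e2 : m • x.2 = 0 := by rw [← (show addOrderOf x.2 = m from h2)]; exact addOrderOf_nsmul_eq_zero _
    refine ⟨?_, ?_, h3⟩
    · obtain ⟨a, ha⟩ := Nat.dvd_lcm_left n m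
      obtain ⟨b, hb⟩ := Nat.dvd_lcm_right n m
      rw [smul_sub]
      have f1 : L • x.1 = 0 := by rw [hL, ha, mul_comm, mul_smul, e1, smul_zero]
      have f2 : L • x.2 = 0 := by rw [hL, hb, mul_comm, mul_smul, e2, smul_zero]
      rw [f1, f2, sub_zero]
    · intro h0
      have : x.1 = x.2 := sub_eq_zero.mp h0
      apply hnm
      rw [← (show addOrderOf x.1 = n from h1), ← (show addOrderOf x.2 = m from h2), this]
  have hfib : ∀ w ∈ S.image (fun x => x.1 - x.2),
      (S.filter (fun x => x.1 - x.2 = w)).card ≤ Nat.gcd n m := by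
    intro w hw
    rw [Finset.mem_image] at hw
    obtain ⟨x0, hx0, hx0w⟩ := hw
    obtain ⟨h01, h02, _⟩ := (hmem x0).mp hx0
    have hg : 0 < Nat.gcd n m := Nat.gcd_pos_of_pos_left _ hn
    have hinj : Set.InjOn (fun x : UnitAddCircle × UnitAddCircle => x.1 - x0.1)
        (S.filter (fun x => x.1 - x.2 = w) : Set (UnitAddCircle × UnitAddCircle)) := by
      intro x hx y hy hxy
      rw [Finset.mem_coe, Finset.mem_filter] at hx hy
      have h1 : x.1 = y.1 := by simpa using hxy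
      have h2 : x.2 = y.2 := by
        have := hx.2.trans hy.2.symm
        rw [h1] at this
        simpa using this
      exact Prod.ext h1 h2
    have hmaps : Set.MapsTo (fun x : UnitAddCircle × UnitAddCircle => x.1 - x0.1)
        (S.filter (fun x => x.1 - x.2 = w) : Set (UnitAddCircle × UnitAddCircle))
        {x : UnitAddCircle | (Nat.gcd n m) • x = 0} := by
      intro x hx
      rw [Finset.mem_coe, Finset.mem_filter] at hx
      obtain ⟨hx1, hx2, _⟩ := (hmem x).mp hx.1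
      have e1 : n • (x.1 - x0.1) = 0 := by
        rw [smul_sub]
        have f1 : n • x.1 = 0 := by
          rw [← (show addOrderOf x.1 = n from hx1)]; exact addOrderOf_nsmul_eq_zero _
        have f2 : n • x0.1 = 0 := by
          rw [← (show addOrderOf x0.1 = n from h01)]; exact addOrderOf_nsmul_eq_zero _
        rw [f1, f2, sub_zero]
      have e3 : x.1 - x0.1 = x.2 - x0.2 := by
        have := hx.2.trans hx0w.symm
        calc x.1 - x0.1 = (x.1 - x.2) + x.2 - x0.1 := by abel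
          _ = (x0.1 - x0.2) + x.2 - x0.1 := by rw [this]
          _ = x.2 - x0.2 := by abel
      have e2 : m • (x.1 - x0.1) = 0 := by
        rw [e3, smul_sub]
        have f1 : m • x.2 = 0 := by
          rw [← (show addOrderOf x.2 = m from hx2)]; exact addOrderOf_nsmul_eq_zero _
        have f2 : m • x0.2 = 0 := by
          rw [← (show addOrderOf x0.2 = m from h02)]; exact addOrderOf_nsmul_eq_zero _
        rw [f1, f2, sub_zero]
      have d1 : addOrderOf (x.1 - x0.1) ∣ n := addOrderOf_dvd_of_nsmul_eq_zero e1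
      have d2 : addOrderOf (x.1 - x0.1) ∣ m := addOrderOf_dvd_of_nsmul_eq_zero e2
      obtain ⟨a, ha⟩ := Nat.dvd_gcd d1 d2
      show (Nat.gcd n m) • (x.1 - x0.1) = 0
      rw [ha, mul_comm, mul_smul, addOrderOf_nsmul_eq_zero, smul_zero]
    calc (S.filter (fun x => x.1 - x.2 = w)).card
        = ((S.filter (fun x => x.1 - x.2 = w) : Finset _) : Set (UnitAddCircle × UnitAddCircle)).ncard :=
          (Set.ncard_coe_finset _).symm
      _ ≤ {x : UnitAddCircle | (Nat.gcd n m) • x = 0}.ncard :=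
          Set.ncard_le_ncard_of_injOn _ hmaps hinj (tors_finite _ hg)
      _ ≤ Nat.gcd n m := tors_card _ hg
  have h1 : S.card ≤ Nat.gcd n m * (S.image (fun x => x.1 - x.2)).card :=
    Finset.card_le_mul_card_image S _ hfib
  have h2 : (S.image (fun x => x.1 - x.2)).card ≤ W.card := Finset.card_le_card himg
  have h3 : (W.card : ℝ) ≤ 2 * (L * Δ) := by
    rw [hW, ← Set.ncard_eq_toFinset_card _ hWfin]
    exact hWcard
  have h4 : (S.card : ℝ) ≤ Nat.gcd n m * (2 * (L * Δ)) := by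
    calc (S.card : ℝ) ≤ (Nat.gcd n m : ℝ) * (S.image (fun x => x.1 - x.2)).card := by
          exact_mod_cast h1
      _ ≤ (Nat.gcd n m : ℝ) * W.card := by gcongr
      _ ≤ _ := by gcongr
  have h5 : ((Nat.gcd n m : ℕ) : ℝ) * L = n * m := by
    have := Nat.gcd_mul_lcm n m
    rw [hL]
    exact_mod_cast this
  calc (S.card : ℝ) ≤ Nat.gcd n m * (2 * (L * Δ)) := h4
    _ = 2 * ((Nat.gcd n m * L) * Δ) := by ring
    _ = _ := by rw [h5]

end Pool.Agent.H99.KG
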