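import Pool.Agent.H99.KG.Rec2
import Pool.Agent.H99.GX.Y678_RG_Prod

set_option autoImplicit false

/-! # Every irrational number has good approximations with denominators in record prime-free intervals -/

namespace Pool.Agent.H99.KG

open Finset Filter
open Pool.Agent.H256R2.SC (ff)

/-- good rational approximations with large denominators -/
lemma exists_approx (x : ℝ) (hx : Irrational x) (M : ℕ) :
    ∃ a u : ℤ, (M : ℤ) < a ∧ IsCoprime a u ∧ |a * x - u| < 1 / a := by
  have hinf := Real.infinite_rat_abs_sub_lt_one_div_den_sq_of_irrational hx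
  by_contra hcon
  push Not at hcon
  apply hinf
  obtain ⟨K, hK⟩ := exists_nat_ge ((|x| + 1) * M)
  apply ((Finset.Icc (-(K : ℤ)) K ×ˢ Finset.Icc (1 : ℤ) M).image
    (fun z : ℤ × ℤ => (z.1 : ℚ) / z.2)).finite_toSet.subset
  intro ρ hρ
  rw [Set.mem_ofPred_eq] at hρ
  have hd : (0 : ℝ) < ρ.den := by exact_mod_cast ρ.pos
  have hd1 : (1 : ℝ) ≤ ρ.den := by exact_mod_cast ρ.pos
  have hρe : (ρ : ℝ) = ρ.num / ρ.den := by
    conv_lhs => rw [← Rat.num_div_den ρ]
    push_cast
    rfl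
  have h1 : |(ρ.den : ℤ) * x - ρ.num| < 1 / ((ρ.den : ℤ) : ℝ) := by
    have e : ((ρ.den : ℤ) : ℝ) * x - ρ.num = ρ.den * (x - ρ) := by
      rw [hρe]; push_cast; field_simp
    rw [e, abs_mul, abs_of_pos hd]
    calc (ρ.den : ℝ) * |x - ρ| < ρ.den * (1 / (ρ.den : ℝ) ^ 2) := by gcongr
      _ = 1 / ((ρ.den : ℤ) : ℝ) := by push_cast; field_simp
  have hM : (ρ.den : ℤ) ≤ M := by
    by_contra hlt
    push Not at hlt
    exact absurd h1 (not_lt.mpr (hcon _ _ hlt (Rat.isCoprime_num_den ρ).symm))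
  have hMr : (ρ.den : ℝ) ≤ M := by exact_mod_cast hM
  have hnum : |(ρ.num : ℝ)| ≤ (|x| + 1) * M := by
    have e : (ρ.num : ℝ) = ρ.den * ρ := by rw [hρe]; field_simp
    have h2 : |x - ρ| ≤ 1 := by
      refine hρ.le.trans ?_
      rw [div_le_one (by positivity)]
      nlinarith
    have h3 : |(ρ : ℝ)| ≤ |x| + 1 := by
      have := abs_sub_abs_le_abs_sub (ρ : ℝ) x
      rw [abs_sub_comm] at this
      linarith
    rw [e, abs_mul, abs_of_pos hd]
    have h4 : 0 ≤ |(ρ : ℝ)| := abs_nonneg _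
    nlinarith [abs_nonneg x]
  rw [Finset.mem_coe, Finset.mem_image]
  refine ⟨(ρ.num, (ρ.den : ℤ)), ?_, ?_⟩
  · rw [Finset.mem_product, Finset.mem_Icc, Finset.mem_Icc]
    have h5 : |(ρ.num : ℝ)| ≤ K := hnum.trans hK
    have h6 : |ρ.num| ≤ (K : ℤ) := by exact_mod_cast h5
    have h7 := abs_le.mp h6
    refine ⟨h7, ?_, hM⟩
    have : (1 : ℤ) ≤ (ρ.den : ℤ) := by exact_mod_cast ρ.pos
    exact this
  · have := Rat.num_div_den ρ
    push_cast
    exact this

/-- the second vector of a basis -/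
lemma exists_second (a u : ℤ) (ha : 2 ≤ a) (h : IsCoprime a u) :
    ∃ a2 u2 : ℤ, 1 ≤ a2 ∧ a2 < a ∧ a * u2 - a2 * u = 1 := by
  obtain ⟨s, t, hst⟩ := h
  have h0 := Int.emod_nonneg (-t) (show a ≠ 0 by omega)
  have h1 := Int.emod_lt_of_pos (-t) (show 0 < a by omega)
  have h2 := Int.mul_ediv_add_emod (-t) a
  set a2 := (-t) % a
  set k := (-t) / a
  have hdet : a * (s - k * u) - a2 * u = 1 := by
    have : a2 = -t - a * k := by linarith
    rw [this]
    linear_combination hst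
  refine ⟨a2, s - k * u, ?_, h1, hdet⟩
  rcases h0.lt_or_eq with h | h
  · omega
  · exfalso
    rw [← h] at hdet
    have h3 : a ∣ 1 := ⟨s - k * u, by linarith⟩
    have := Int.le_of_dvd (by norm_num) h3
    omega

lemma second_near (x : ℝ) (a u a2 u2 : ℤ) (h1 : 1 ≤ a2) (h2 : a2 < a) (hdet : a * u2 - a2 * u = 1)
    (hx : |a * x - u| < 1 / a) : |a2 * x - u2| ≤ 2 / a := by
  have ha : (0 : ℝ) < a := by exact_mod_cast (by omega : 0 < a)
  have ha1 : (1 : ℝ) ≤ a := by exact_mod_cast (by omega : 1 ≤ a)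
  have hd : (a : ℝ) * u2 - a2 * u = 1 := by exact_mod_cast hdet
  have e : (a : ℝ) * (a2 * x - u2) = a2 * (a * x - u) - 1 := by linear_combination -hd
  have h3 : |(a : ℝ) * (a2 * x - u2)| ≤ 2 := by
    rw [e]
    have h4 : |(a2 : ℝ) * (a * x - u)| ≤ 1 := by
      rw [abs_mul, abs_of_pos (by exact_mod_cast h1 : (0 : ℝ) < a2)]
      have h5 : (a2 : ℝ) ≤ a := by exact_mod_cast h2.le
      calc (a2 : ℝ) * |a * x - u| ≤ a * (1 / a) := by gcongr
        _ = 1 := by field_simp
    calc |(a2 : ℝ) * (a * x - u) - 1| ≤ |(a2 : ℝ) * (a * x - u)| + |(1 : ℝ)| := abs_sub _ _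
      _ ≤ 1 + 1 := by rw [abs_one]; linarith
      _ = 2 := by norm_num
  rw [abs_mul, abs_of_pos ha] at h3
  rw [le_div_iff₀ ha]
  linarith

/-- the inhomogeneous approximation with `b ≤ a` -/
lemma exists_inhom (x y : ℝ) (a u : ℤ) (ha : 1 ≤ a) (h : IsCoprime a u) (hx : |a * x - u| < 1 / a) :
    ∃ b B : ℤ, 0 ≤ b ∧ b ≤ a ∧ |b * x - y - B| ≤ 2 / a := by
  obtain ⟨s, t, hst⟩ := h
  have har : (0 : ℝ) < a := by exact_mod_cast (by omega : 0 < a)
  set m := round ((a : ℝ) * y)
  have hm : |(a : ℝ) * y - m| ≤ 1 / 2 := abs_sub_round _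
  have h0 := Int.emod_nonneg (m * t) (show a ≠ 0 by omega)
  have h1 := Int.emod_lt_of_pos (m * t) (show 0 < a by omega)
  have h2 := Int.mul_ediv_add_emod (m * t) a
  set b := (m * t) % a
  set k := (m * t) / a
  -- b u = m - a (m s + k u)
  have hb : b * u = m + a * (-(m * s) - k * u) := by
    have : b = m * t - a * k := by linarith
    rw [this]
    linear_combination m * hst
  refine ⟨b, -(m * s) - k * u, h0, h1.le, ?_⟩
  have hbr : (b : ℝ) * u = m + a * ((-(m * s) - k * u : ℤ) : ℝ) := by exact_mod_cast hb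
  set B : ℤ := -(m * s) - k * u
  have e : (a : ℝ) * (b * x - y - B) = b * (a * x - u) + -(a * y - m) := by linear_combination hbr
  have h3 : |(a : ℝ) * (b * x - y - B)| ≤ 2 := by
    rw [e]
    have h4 : |(b : ℝ) * (a * x - u)| ≤ 1 := by
      rw [abs_mul, abs_of_nonneg (by exact_mod_cast h0 : (0 : ℝ) ≤ b)]
      have h5 : (b : ℝ) ≤ a := by exact_mod_cast h1.le
      calc (b : ℝ) * |a * x - u| ≤ a * (1 / a) := by gcongr
        _ = 1 := by field_simp
    calc |(b : ℝ) * (a * x - u) + -(a * y - m)| ≤ |(b : ℝ) * (a * x - u)| + |-((a : ℝ) * y - m)| :=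
          abs_add_le _ _
      _ ≤ 1 + 1 / 2 := by rw [abs_neg]; linarith
      _ ≤ 2 := by norm_num
  rw [abs_mul, abs_of_pos har] at h3
  rw [le_div_iff₀ har]
  linarith

/-- the multiples of `a` shifted by `a2` that are divisible by `p` -/
lemma card_class (a a2 p R : ℕ) (hp : p.Prime) (h : Nat.Coprime a a2) :
    (((Icc 1 R).filter (fun r => p ∣ r * a + a2)).card : ℝ) ≤ R / p + 1 := by
  have hp0 : (0 : ℝ) < p := by exact_mod_cast hp.pos
  by_cases hpa : p ∣ a
  · have : (Icc 1 R).filter (fun r => p ∣ r * a + a2) = ∅ := by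
      rw [Finset.filter_eq_empty_iff]
      intro r _ hr
      have h1 : p ∣ a2 := (Nat.dvd_add_right (hpa.mul_left r)).mp hr
      have := Nat.dvd_gcd hpa h1
      rw [h] at this
      exact hp.one_lt.ne' (Nat.dvd_one.mp this)
    rw [this, card_empty]
    push_cast
    positivity
  · have h1 : ((Icc 1 R).filter (fun r => p ∣ r * a + a2)).card ≤ (range (R / p + 1)).card := by
      apply Finset.card_le_card_of_injOn (fun r => r / p)
      · intro r hr
        simp only [coe_filter, Set.mem_ofPred_eq, mem_Icc] at hr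
        simp only [coe_range, Set.mem_Iio]
        have := Nat.div_le_div_right (c := p) hr.1.2
        omega
      · intro r hr r' hr' hrr
        simp only [coe_filter, Set.mem_ofPred_eq, mem_Icc] at hr hr'
        simp only at hrr
        have h2 : (p : ℤ) ∣ ((r : ℤ) - r') * a := by
          have g1 : (p : ℤ) ∣ (r : ℤ) * a + a2 := by exact_mod_cast hr.2
          have g2 : (p : ℤ) ∣ (r' : ℤ) * a + a2 := by exact_mod_cast hr'.2
          have := dvd_sub g1 g2
          rwa [show ((r : ℤ) * a + a2) - (r' * a + a2) = (r - r') * a by ring] at this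
        have h3 : (p : ℤ) ∣ (r : ℤ) - r' := by
          rcases (Nat.prime_iff_prime_int.mp hp).dvd_or_dvd h2 with h | h
          · exact h
          · exact absurd (by exact_mod_cast h) hpa
        have h4 : r % p = r' % p := by
          have h5 : (r : ℤ) % p = (r' : ℤ) % p :=
            Int.emod_eq_emod_iff_emod_sub_eq_zero.mpr (Int.emod_eq_zero_of_dvd h3)
          exact_mod_cast h5
        have e1 := Nat.div_add_mod r p
        have e2 := Nat.div_add_mod r' p
        rw [hrr, h4] at e1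
        omega
    rw [card_range] at h1
    have h2 : (((Icc 1 R).filter (fun r => p ∣ r * a + a2)).card : ℝ) ≤ ((R / p + 1 : ℕ) : ℝ) := by
      exact_mod_cast h1
    refine h2.trans ?_
    push_cast
    have := @Nat.cast_div_le ℝ _ _ _ R p
    linarith

/-- a shifted multiple with few small prime factors -/
lemma exists_mult (L : ℝ) (hL : 3 ≤ L) (R : ℕ) (hR : L ≤ R) (a a2 : ℕ) (h : Nat.Coprime a a2) :
    ∃ r ∈ Icc 1 R, ∀ s : Finset ℕ, (∀ p ∈ s, p.Prime ∧ p ∣ r * a + a2 ∧ (p : ℝ) ≤ L) →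
      (s.card : ℝ) ≤ 6 + 3 * Real.log L ∧ ∑ p ∈ s, (1 : ℝ) / p ≤ 3 := by
  classical
  set n := ⌊L⌋₊ with hn
  have hn3 : 3 ≤ n := Nat.le_floor (by exact_mod_cast hL)
  have hnL : (n : ℝ) ≤ L := Nat.floor_le (by linarith)
  have hL0 : 0 < L := by linarith
  set P := (Ioc 1 n).filter Nat.Prime with hP
  have hlogL : 1 ≤ Real.log L := by
    rw [Real.le_log_iff_exp_le hL0]
    linarith [Real.exp_one_lt_d9]
  set lam : ℝ := 2 + Real.log L with hlam
  have hlam0 : 0 < lam := by linarith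
  have hR0 : (0 : ℝ) < R := by linarith
  have hPpos : ∀ p ∈ P, (0 : ℝ) < p := by
    intro p hp
    rw [hP, mem_filter] at hp
    exact_mod_cast hp.2.pos
  have hsum1 : ∑ p ∈ P, (1 : ℝ) / p ≤ 1 + Real.log L := by
    have h1 : ∑ p ∈ P, (1 : ℝ) / p ≤ ∑ p ∈ (range n).image (fun i : ℕ => i + 1), (1 : ℝ) / (p : ℝ) := by
      apply sum_le_sum_of_subset_of_nonneg
      · intro p hp
        rw [hP, mem_filter, mem_Ioc] at hp
        rw [mem_image]
        exact ⟨p - 1, by rw [mem_range]; omega, by omega⟩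
      · intro i _ _
        positivity
    rw [sum_image (by intro i _ j _ hij; simpa using hij)] at h1
    have h2 : ∑ i ∈ range n, (1 : ℝ) / ((i + 1 : ℕ) : ℝ) = ((harmonic n : ℚ) : ℝ) := by
      unfold harmonic
      push_cast
      apply sum_congr rfl
      intro i _
      rw [one_div]
    rw [h2] at h1
    refine h1.trans ((harmonic_le_one_add_log n).trans ?_)
    have : Real.log n ≤ Real.log L := Real.log_le_log (by exact_mod_cast (by omega : 0 < n)) hnL
    linarith
  have hsum2 : ∑ p ∈ P, (1 : ℝ) / p ^ 2 ≤ 1 := by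
    have h1 : ∑ p ∈ P, (1 : ℝ) / p ^ 2 ≤ ∑ p ∈ Ioc 1 n, ((p : ℝ) ^ 2)⁻¹ := by
      refine (sum_le_sum_of_subset_of_nonneg (filter_subset _ _) ?_).trans (le_of_eq ?_)
      · intro i _ _
        positivity
      · apply sum_congr rfl
        intro i _
        rw [one_div]
    refine h1.trans ((sum_Ioc_inv_sq_le_sub one_ne_zero (by omega)).trans ?_)
    have : (0 : ℝ) ≤ (n : ℝ)⁻¹ := by positivity
    push_cast
    rw [inv_one]
    linarith
  have hcard : (P.card : ℝ) ≤ R := by
    have h1 : P.card ≤ n := by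
      refine (card_filter_le _ _).trans ?_
      rw [Nat.card_Ioc]
      omega
    have : (P.card : ℝ) ≤ n := by exact_mod_cast h1
    linarith
  set w : ℕ → ℝ := fun p => 1 / lam + 1 / p with hw
  have hw0 : ∀ p, 0 ≤ w p := fun p => by rw [hw]; positivity
  -- the total weight
  have htot : ∑ r ∈ Icc 1 R, ∑ p ∈ P.filter (fun p => p ∣ r * a + a2), w p ≤ 3 * R := by
    have e1 : ∑ r ∈ Icc 1 R, ∑ p ∈ P.filter (fun p => p ∣ r * a + a2), w p =
        ∑ p ∈ P, w p * ((Icc 1 R).filter (fun r => p ∣ r * a + a2)).card := by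
      rw [sum_congr rfl (fun r _ => sum_filter (fun p => p ∣ r * a + a2) w (s := P)), sum_comm]
      apply sum_congr rfl
      intro p _
      rw [← sum_filter, sum_const, nsmul_eq_mul, mul_comm]
    rw [e1]
    calc ∑ p ∈ P, w p * ((Icc 1 R).filter (fun r => p ∣ r * a + a2)).card
        ≤ ∑ p ∈ P, w p * (R / p + 1) := by
          apply sum_le_sum
          intro p hp
          have hpr : p.Prime := by rw [hP, mem_filter] at hp; exact hp.2
          exact mul_le_mul_of_nonneg_left (card_class a a2 p R hpr h) (hw0 p)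
      _ = (R * ∑ p ∈ P, (1 : ℝ) / p + P.card) / lam + (R * ∑ p ∈ P, (1 : ℝ) / p ^ 2 +
            ∑ p ∈ P, (1 : ℝ) / p) := by
          have e2 : ∀ p ∈ P, w p * (R / p + 1) =
              (R * (1 / p) + 1) / lam + (R * (1 / (p : ℝ) ^ 2) + 1 / p) := by
            intro p hp
            have := hPpos p hp
            rw [hw]
            field_simp
          rw [sum_congr rfl e2, sum_add_distrib, ← sum_div, sum_add_distrib, sum_add_distrib,
            ← mul_sum, ← mul_sum, sum_const, nsmul_eq_mul, mul_one]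
      _ ≤ (R * (1 + Real.log L) + R) / lam + (R * 1 + R) := by
          have h3 : 1 + Real.log L ≤ R := by
            have := Real.log_le_sub_one_of_pos hL0
            linarith
          have h4 : ∑ p ∈ P, (1 : ℝ) / p ≤ R := hsum1.trans h3
          gcongr
      _ = 3 * R := by
          have : (R * (1 + Real.log L) + R) / lam = R := by
            rw [div_eq_iff hlam0.ne', hlam]; ring
          rw [this]; ring
  obtain ⟨r, hr, hle⟩ : ∃ r ∈ Icc 1 R, ∑ p ∈ P.filter (fun p => p ∣ r * a + a2), w p ≤ 3 := by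
    by_contra hcon
    push Not at hcon
    have hR1 : 1 ≤ R := by
      have : (1 : ℝ) ≤ R := by linarith
      exact_mod_cast this
    have h5 : ∑ r ∈ Icc 1 R, (3 : ℝ) <
        ∑ r ∈ Icc 1 R, ∑ p ∈ P.filter (fun p => p ∣ r * a + a2), w p :=
      sum_lt_sum_of_nonempty ⟨1, by rw [mem_Icc]; omega⟩ hcon
    rw [sum_const, nsmul_eq_mul, Nat.card_Icc, Nat.add_sub_cancel] at h5
    linarith
  refine ⟨r, hr, fun s hs => ?_⟩
  have hsub : s ⊆ P.filter (fun p => p ∣ r * a + a2) := by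
    intro p hp
    obtain ⟨h6, h7, h8⟩ := hs p hp
    rw [mem_filter, hP, mem_filter, mem_Ioc]
    exact ⟨⟨⟨h6.one_lt, Nat.le_floor h8⟩, h6⟩, h7⟩
  have h9 : ∑ p ∈ s, w p ≤ 3 :=
    (sum_le_sum_of_subset_of_nonneg hsub (fun p _ _ => hw0 p)).trans hle
  rw [hw, sum_add_distrib, sum_const, nsmul_eq_mul] at h9
  have h10 : 0 ≤ ∑ p ∈ s, (1 : ℝ) / p := sum_nonneg fun p _ => by positivity
  have h11 : 0 ≤ (s.card : ℝ) * (1 / lam) := by positivity
  refine ⟨?_, by linarith⟩
  have h12 : (s.card : ℝ) * (1 / lam) ≤ 3 := by linarith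
  rw [mul_one_div, div_le_iff₀ hlam0] at h12
  rw [hlam] at h12
  linarith

/-- The record interval around `p (r a + a2) + b`. -/
theorem core (ε : ℝ) (hε : 0 < ε) (hε1 : ε ≤ 1 / 2) : ∃ c : ℝ, 0 < c ∧ ∃ A₀ : ℕ,
    ∀ (x y : ℝ) (a u a2 u2 b B : ℤ), (A₀ : ℤ) ≤ a → 1 ≤ a2 → a2 < a → a * u2 - a2 * u = 1 →
      |a * x - u| < 1 / a → 0 ≤ b → b ≤ a → |b * x - y - B| ≤ 2 / a →
      ∃ p r q : ℕ, (q : ℤ) = p * (r * a + a2) + b ∧ a < q ∧
        (∀ p' : ℕ, p'.Prime → c * ff q < |(p' : ℝ) - q|) ∧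
        |q * x - y - ((p * (r * u + u2) + B : ℤ) : ℝ)| < (q : ℝ) ^ (-1 + ε) := by
  -- the parameters
  obtain ⟨K, hK⟩ : ∃ K : ℕ, 6 / ε ≤ K := exists_nat_ge _
  have hKε : 6 ≤ ε * K := by
    rw [div_le_iff₀ hε] at hK; linarith
  have hK1 : (12 : ℝ) ≤ K := by nlinarith
  have hK1' : 12 ≤ K := by exact_mod_cast hK1
  obtain ⟨c, hc, X₀, hX₀⟩ := Pool.Agent.Y678.RG.multB 1 (K + 1) 3 1 squarefree_one
  set k := K + 3 with hk
  have hev : ∀ᶠ X : ℝ in atTop, (X₀ ≤ X ∧ 10 ≤ X ∧ 10 ≤ Real.log X ∧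
      10 ≤ Real.log (Real.log X) ∧ 10 ≤ Real.log (Real.log (Real.log X)) ∧
      10 ≤ Real.log (Real.log (Real.log (Real.log X))) ∧
      Real.log X ^ 3 ≤ X) ∧ (∀ n : ℝ, X ≤ n → n ≤ (3 * X) ^ k → ff n ≤ 16 * k * ff X) := by
    filter_upwards [eventually_ge_atTop X₀, log_facts 10,
      Pool.Agent.Y678.RG.ff_pow_le k (by omega)] with X h1 h2 h3
    obtain ⟨g0, g1, g2, g3, g4, g5⟩ := h2
    exact ⟨⟨h1, g0, g1, g2, g3, g4, g5⟩, h3⟩
  obtain ⟨X₁, hX₁⟩ := eventually_atTop.mp hev
  have hk0 : (0 : ℝ) < k := by rw [hk]; positivity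
  obtain ⟨A₀, hA₀⟩ := exists_nat_ge ((max X₁ 1) ^ K)
  refine ⟨min c 1 / (16 * k), by positivity, A₀, ?_⟩
  intro x y a u a2 u2 b B haA h1 h2 hdet hx hb0 hba hxy
  lift a to ℕ using (by omega)
  lift a2 to ℕ using (by omega)
  lift b to ℕ using hb0
  rw [Int.cast_natCast] at hx hxy
  rw [Int.cast_natCast] at hxy
  have ha0 : (0 : ℝ) < a := by
    have : (0 : ℤ) < a := by omega
    exact_mod_cast this
  -- the parameter `X`
  set X : ℝ := (a : ℝ) ^ (1 / (K : ℝ)) with hX
  have hXK : X ^ K = a := by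
    rw [hX, ← Real.rpow_natCast, ← Real.rpow_mul ha0.le]
    rw [one_div_mul_cancel (by linarith), Real.rpow_one]
  have hXX : X₁ ≤ X := by
    have h3 : (max X₁ 1) ^ K ≤ X ^ K := by
      rw [hXK]
      refine hA₀.trans ?_
      exact_mod_cast haA
    have h4 := le_of_pow_le_pow_left₀ (by omega) (by positivity) h3
    exact (le_max_left _ _).trans h4
  obtain ⟨⟨g0, g1, g2, g3, g4, g5, g6⟩, hffk⟩ := hX₁ X hXX
  set L := Real.log X with hL
  have hX0 : 0 < X := by linarith
  obtain ⟨f1, -, f3⟩ := ff_bounds X (by linarith) (by linarith) (by linarith) (by linarith) g6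
  -- the number `r`
  set R := ⌈L⌉₊ with hR
  have hLR : L ≤ R := Nat.le_ceil _
  have hRL : (R : ℝ) < L + 1 := Nat.ceil_lt_add_one (by linarith)
  have hcop : Nat.Coprime a a2 := by
    rw [← Nat.isCoprime_iff_coprime]
    exact ⟨u2, -u, by linarith⟩
  obtain ⟨r, hr, hsmall⟩ := exists_mult L (by linarith) R hLR a a2 hcop
  rw [mem_Icc] at hr
  have hrR : (r : ℝ) ≤ R := by exact_mod_cast hr.2
  have hr1 : (1 : ℝ) ≤ r := by exact_mod_cast hr.1
  have hL3 : L + 3 ≤ X := by
    refine le_trans ?_ g6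
    have e1 : L ^ 3 = L * (L * L) := by ring
    have e2 : 10 * 10 ≤ L * L := mul_le_mul g2 g2 (by norm_num) (by linarith)
    have e3 : L * 100 ≤ L * (L * L) := mul_le_mul_of_nonneg_left (by linarith) (by linarith)
    rw [e1]
    linarith
  set A : ℕ := r * a + a2 with hA
  have ha2a : (a2 : ℝ) ≤ a := by
    have : (a2 : ℤ) ≤ a := h2.le
    exact_mod_cast this
  have hAr : (A : ℝ) = r * a + a2 := by rw [hA]; push_cast; ring
  have hAX : (A : ℝ) ≤ X * X ^ K := by
    rw [hAr, hXK]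
    have e1 : (r : ℝ) * a ≤ R * a := mul_le_mul_of_nonneg_right hrR ha0.le
    have e2 : ((R : ℝ) + 1) * a ≤ X * a := mul_le_mul_of_nonneg_right (by linarith) ha0.le
    linarith
  have hAa : (a : ℝ) + 1 ≤ A := by
    rw [hAr]
    have : (1 : ℝ) ≤ a2 := by exact_mod_cast h1
    have e1 : 1 * (a : ℝ) ≤ r * a := mul_le_mul_of_nonneg_right hr1 ha0.le
    linarith
  have ha1 : (1 : ℝ) ≤ a := by
    have : (1 : ℤ) ≤ a := by omega
    exact_mod_cast this
  have hbr : (b : ℝ) ≤ a := by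
    have : (b : ℤ) ≤ a := hba
    exact_mod_cast this
  have hbr0 : (0 : ℝ) ≤ b := by positivity
  have hXK1 : X ^ (K + 1) = X * X ^ K := by ring
  -- the prime
  have hmain := hX₀ X g0 (A : ℤ) (b : ℤ) (by
      have : (0 : ℝ) < A := by linarith
      have h5 : 0 < A := by exact_mod_cast this
      omega) (by
      rw [hXK1]
      push_cast
      rw [abs_of_nonneg (by positivity)]
      exact hAX) (by
      rw [hXK1, hXK]
      push_cast
      rw [abs_of_nonneg hbr0]
      have e1 : 1 * (a : ℝ) ≤ X * a := mul_le_mul_of_nonneg_right (by linarith) ha0.le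
      linarith) (by
      intro s hs
      obtain ⟨s1, s2⟩ := hsmall s (fun p hp => by
        obtain ⟨t1, t2, t3⟩ := hs p hp
        exact ⟨t1, by exact_mod_cast t2, t3⟩)
      refine ⟨s1.trans ?_, s2⟩
      push_cast
      have e1 : 10 * Real.log L ≤ Real.log L * Real.log L :=
        mul_le_mul_of_nonneg_right g3 (by linarith)
      have e2 : 1 * (Real.log L * Real.log L) ≤ ((K : ℝ) + 1) * (Real.log L * Real.log L) :=
        mul_le_mul_of_nonneg_right (by linarith) (by positivity)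
      rw [pow_two]
      linarith) 1 (by norm_num)
  have hpos : (0 : ℝ) < X ^ (7 / 8 : ℝ) := Real.rpow_pos_of_pos hX0 _
  have hne := lt_of_lt_of_le hpos hmain
  rw [Nat.cast_pos] at hne
  obtain ⟨p, hp⟩ := Set.nonempty_of_ncard_ne_zero hne.ne'
  obtain ⟨hp1, hp2, hp3, -, hp5⟩ := hp
  have hp0 : (0 : ℝ) < p := by linarith
  set q : ℕ := p * A + b with hq
  have hqr : (q : ℝ) = p * A + b := by rw [hq]; push_cast; ring
  -- sizes
  have hA1 : (1 : ℝ) ≤ A := by linarith
  have hqa : (a : ℝ) < q := by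
    rw [hqr]
    have e1 : 1 * (A : ℝ) ≤ p * A := mul_le_mul_of_nonneg_right (by linarith) (by linarith)
    linarith
  have hqX : X ≤ q := by
    rw [hqr]
    have e1 : (p : ℝ) * 1 ≤ p * A := mul_le_mul_of_nonneg_left hA1 hp0.le
    linarith
  have hqK : (q : ℝ) ≤ X ^ k := by
    have e1 : X ^ k = X * X * X * X ^ K := by rw [hk]; ring
    rw [hqr, e1]
    have e2 : (p : ℝ) * A ≤ 3 * X * (X * X ^ K) := by gcongr
    have e3 : (b : ℝ) ≤ X ^ K := by rw [hXK]; exact hbr
    have e4 : 0 < X ^ K := by positivity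
    have e6 : X * X * 10 ≤ X * X * X := mul_le_mul_of_nonneg_left g1 (by positivity)
    have e7 : 10 * 10 ≤ X * X := mul_le_mul g1 g1 (by norm_num) (by linarith)
    have e5 : 3 * X * X + 1 ≤ X * X * X := by linarith
    have e8 := mul_le_mul_of_nonneg_right e5 e4.le
    have e9 : (3 * X * X + 1) * X ^ K = 3 * X * (X * X ^ K) + X ^ K := by ring
    rw [e9] at e8
    linarith
  have hqK3 : (q : ℝ) ≤ (3 * X) ^ k := by
    refine hqK.trans ?_
    gcongr
    linarith
  have hffq := hffk q hqX hqK3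
  have hc' : min c 1 / (16 * k) * ff q ≤ min c 1 * ff X := by
    calc min c 1 / (16 * k) * ff q ≤ min c 1 / (16 * k) * (16 * k * ff X) := by gcongr
      _ = min c 1 * ff X := by field_simp
  refine ⟨p, r, q, ?_, ?_, ?_, ?_⟩
  · rw [hq, hA]; push_cast; ring
  · exact_mod_cast hqa
  · intro p' hp'
    refine lt_of_le_of_lt hc' ?_
    by_cases hpp : p' = p
    · rw [hpp]
      have e1 : min c 1 * ff X ≤ X := by
        have : min c 1 ≤ 1 := min_le_right _ _
        have e3 : min c 1 * ff X ≤ 1 * ff X := mul_le_mul_of_nonneg_right this (by linarith)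
        linarith
      have e2 : X < (q : ℝ) - p := by
        rw [hqr]
        have e3 : (p : ℝ) * 2 ≤ p * A := mul_le_mul_of_nonneg_left (by linarith) hp0.le
        linarith
      rw [abs_sub_comm, abs_of_pos (by linarith)]
      linarith
    · have e1 := hp5 1 1 (by norm_num) (by norm_num) (by norm_num) (by norm_num) p' hp' hpp
      have e2 : (((1 : ℤ) * (p' : ℤ) - (1 : ℤ) * ((A : ℤ) * (p : ℤ) + (b : ℤ)) : ℤ) : ℝ) =
          (p' : ℝ) - q := by
        rw [hqr]; push_cast; ring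
      rw [e2] at e1
      refine lt_of_le_of_lt ?_ e1
      have : min c 1 ≤ c := min_le_left _ _
      have : 0 ≤ ff X := by linarith
      gcongr
  · have hsec := second_near x a u a2 u2 h1 h2 hdet (by rw [Int.cast_natCast]; exact hx)
    rw [Int.cast_natCast, Int.cast_natCast] at hsec
    have e1 : (q : ℝ) * x - y - ((p * (r * u + u2) + B : ℤ) : ℝ) =
        p * (r * (a * x - u) + (a2 * x - u2)) + (b * x - y - B) := by
      rw [hqr, hAr]; push_cast; ring
    have e2 : |(r : ℝ) * (a * x - u) + (a2 * x - u2)| ≤ (R + 2) / a := by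
      refine (abs_add_le _ _).trans ?_
      rw [abs_mul, abs_of_pos (by linarith : (0 : ℝ) < r), add_div]
      have : (r : ℝ) * |a * x - u| ≤ R * (1 / a) := by gcongr
      rw [mul_one_div] at this
      linarith
    have e3 : |(q : ℝ) * x - y - ((p * (r * u + u2) + B : ℤ) : ℝ)| ≤
        3 * X * ((R + 2) / a) + 2 / a := by
      rw [e1]
      refine (abs_add_le _ _).trans ?_
      rw [abs_mul, abs_of_pos hp0]
      gcongr
    refine lt_of_le_of_lt e3 ?_
    have e4 : 3 * X * ((R + 2) / a) + 2 / a ≤ X ^ (3 - (K : ℝ)) := by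
      have e10 : X ^ (3 : ℝ) = X ^ 3 := by
        have := Real.rpow_natCast X 3
        rw [← this]
        norm_num
      rw [Real.rpow_sub hX0, Real.rpow_natCast, hXK, e10, ← mul_div_assoc, ← add_div]
      gcongr
      have e6 : 3 * X * (R + 2) ≤ 3 * X * X :=
        mul_le_mul_of_nonneg_left (by linarith) (by linarith)
      have e7 : X * X * 10 ≤ X * X * X := mul_le_mul_of_nonneg_left g1 (by positivity)
      have e8 : 10 * 10 ≤ X * X := mul_le_mul g1 g1 (by norm_num) (by linarith)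
      have e9 : X ^ 3 = X * X * X := by ring
      rw [e9]
      linarith
    refine lt_of_le_of_lt e4 ?_
    have e5 : (X ^ k : ℝ) ^ (-1 + ε) ≤ (q : ℝ) ^ (-1 + ε) :=
      Real.rpow_le_rpow_of_nonpos (by linarith) hqK (by linarith)
    refine lt_of_lt_of_le ?_ e5
    rw [← Real.rpow_natCast, ← Real.rpow_mul hX0.le]
    apply Real.rpow_lt_rpow_of_exponent_lt (by linarith)
    rw [hk]
    push_cast
    have e6 : ((K : ℝ) + 3) * (-1 + ε) = -K - 3 + ε * K + 3 * ε := by ring
    rw [e6]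
    linarith

/-- every irrational number, every real target -/
theorem every (ε : ℝ) (hε : 0 < ε) : ∃ c : ℝ, 0 < c ∧ ∀ x : ℝ, Irrational x →
    (∀ y : ℝ, {q : ℕ | 0 < q ∧ (∀ p : ℕ, p.Prime → c * ff q < |(p : ℝ) - q|) ∧
      ∃ a : ℤ, |q * x - y - a| < (q : ℝ) ^ (-1 + ε)}.Infinite) ∧
    {q : ℕ | 0 < q ∧ (∀ p : ℕ, p.Prime → c * ff q < |(p : ℝ) - q|) ∧
      ∃ a : ℤ, Int.gcd a q = 1 ∧ |x - a / q| < (q : ℝ) ^ (-2 + ε)}.Infinite := by
  have hε' : 0 < min ε (1 / 2) := lt_min hε (by norm_num)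
  obtain ⟨c, hc, A₀, h⟩ := core (min ε (1 / 2)) hε' (min_le_right _ _)
  refine ⟨c, hc, fun x hx => ⟨fun y => ?_, ?_⟩⟩
  · apply Set.infinite_of_forall_exists_gt
    intro N
    obtain ⟨a, u, ha, hau, hax⟩ := exists_approx x hx (max N (max A₀ 2))
    have ha1 : (N : ℤ) < a := lt_of_le_of_lt (by exact_mod_cast le_max_left _ _) ha
    have ha2 : (A₀ : ℤ) < a :=
      lt_of_le_of_lt (by exact_mod_cast (le_max_left _ _).trans (le_max_right _ _)) ha
    have ha3 : (2 : ℤ) < a :=
      lt_of_le_of_lt (by exact_mod_cast (le_max_right A₀ 2).trans (le_max_right _ _)) ha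
    obtain ⟨a2, u2, h1, h2, h3⟩ := exists_second a u ha3.le hau
    obtain ⟨b, B, h4, h5, h6⟩ := exists_inhom x y a u (by omega) hau hax
    obtain ⟨p, r, q, e1, e2, e3, e4⟩ := h x y a u a2 u2 b B ha2.le h1 h2 h3 hax h4 h5 h6
    have hNq : N < q := by
      have : (N : ℤ) < q := ha1.trans e2
      exact_mod_cast this
    have hq1 : (1 : ℝ) ≤ q := by exact_mod_cast (by omega : 1 ≤ q)
    refine ⟨q, ⟨by omega, e3, _, lt_of_lt_of_le e4 ?_⟩, hNq⟩
    apply Real.rpow_le_rpow_of_exponent_le hq1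
    have := min_le_left ε (1 / 2)
    linarith
  · apply Set.infinite_of_forall_exists_gt
    intro N
    obtain ⟨a, u, ha, hau, hax⟩ := exists_approx x hx (max N (max A₀ 2))
    have ha1 : (N : ℤ) < a := lt_of_le_of_lt (by exact_mod_cast le_max_left _ _) ha
    have ha2 : (A₀ : ℤ) < a :=
      lt_of_le_of_lt (by exact_mod_cast (le_max_left _ _).trans (le_max_right _ _)) ha
    have ha3 : (2 : ℤ) < a :=
      lt_of_le_of_lt (by exact_mod_cast (le_max_right A₀ 2).trans (le_max_right _ _)) ha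
    obtain ⟨a2, u2, h1, h2, h3⟩ := exists_second a u ha3.le hau
    have har : (0 : ℝ) < a := by exact_mod_cast (by omega : 0 < a)
    have h6 : |(a : ℝ) * x - 0 - u| ≤ 2 / a := by
      rw [sub_zero]
      refine hax.le.trans ?_
      gcongr
      norm_num
    obtain ⟨p, r, q, e1, e2, e3, e4⟩ := h x 0 a u a2 u2 a u ha2.le h1 h2 h3 hax (by omega) le_rfl h6
    have hNq : N < q := by
      have : (N : ℤ) < q := ha1.trans e2
      exact_mod_cast this
    have hq1 : (1 : ℝ) ≤ q := by exact_mod_cast (by omega : 1 ≤ q)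
    have hq0 : (0 : ℝ) < q := by linarith
    refine ⟨q, ⟨by omega, e3, p * (r * u + u2) + u, ?_, ?_⟩, hNq⟩
    · rw [← Int.isCoprime_iff_gcd_eq_one, e1]
      exact ⟨-(r * a + a2), r * u + u2, by linear_combination h3⟩
    · rw [sub_zero] at e4
      have e5 : x - ((p * (r * u + u2) + u : ℤ) : ℝ) / q =
          (q * x - ((p * (r * u + u2) + u : ℤ) : ℝ)) / q := by field_simp
      rw [e5, abs_div, abs_of_pos hq0, div_lt_iff₀ hq0]
      refine lt_of_lt_of_le e4 ?_
      have e6 : (q : ℝ) ^ (-2 + ε) * q = (q : ℝ) ^ (-1 + ε) := by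
        have := Real.rpow_add hq0 (-2 + ε) 1
        rw [Real.rpow_one] at this
        rw [← this]
        congr 1
        ring
      rw [e6]
      apply Real.rpow_le_rpow_of_exponent_le hq1
      have := min_le_left ε (1 / 2)
      linarith

end Pool.Agent.H99.KG
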