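import Pool.Agent.H99.KG.Thm
import Pool.Graph.R_pool_sql_team_seeded_f0cf7b00.H480R2.PW.Gap

set_option autoImplicit false

/-! # Prime denominators -/

namespace Pool.Agent.H99.KG

open Finset Filter MeasureTheory Topology
open Pool.Agent.H749R6.MG (P count_bound)
open Pool.Agent.H480R2.PW (Lg lg_card)

/-- the general form -/
theorem ds_general (c₀ : ℝ) (hc₀ : 0 < c₀) (𝒢 : Set ℕ) (h𝒢φ : ∀ q ∈ 𝒢, c₀ * q ≤ (q.totient : ℝ))
    (ψ : ℕ → ℝ) (hψ0 : ∀ q, 0 ≤ ψ q)
    (hdiv : ¬ Summable (𝒢.indicator (fun q : ℕ => min (ψ q) (1 / 2)))) :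
    ∀ᵐ x : ℝ, {q : ℕ | 0 < q ∧ q ∈ 𝒢 ∧
      ∃ a : ℤ, Int.gcd a q = 1 ∧ |x - a / q| < ψ q / q}.Infinite := by
  classical
  set ψ' : ℕ → ℝ := fun q => min (ψ q) (1 / 2) with hψ'
  have hψ'0 : ∀ q, 0 ≤ ψ' q := fun q => le_min (hψ0 q) (by norm_num)
  set δ : ℕ → ℝ := fun q => if q ∈ 𝒢 then ψ' q / q else 0 with hδ
  have hδ0 : ∀ q, 0 ≤ δ q := by
    intro q
    rw [hδ]
    simp only
    split_ifs
    · exact div_nonneg (hψ'0 q) (Nat.cast_nonneg _)
    · exact le_rfl
  have hδ1 : ∀ n : ℕ, 0 < n → δ n ≤ 1 / (2 * n) := by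
    intro n hn
    have hnr : (0 : ℝ) < n := by exact_mod_cast hn
    rw [hδ]
    simp only
    split_ifs
    · rw [div_le_div_iff₀ hnr (by positivity)]
      have : ψ' n ≤ 1 / 2 := min_le_right _ _
      nlinarith
    · positivity
  have hδφ : ∀ n : ℕ, 0 < δ n → c₀ * n ≤ n.totient := by
    intro n hn
    rw [hδ] at hn
    simp only at hn
    split_ifs at hn with h
    · exact h𝒢φ n h
    · exact absurd hn (lt_irrefl _)
  have hδdiv : ¬ Summable (fun n : ℕ => (n : ℝ) * δ n) := by
    intro hs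
    apply hdiv
    have h1 := (summable_nat_add_iff (f := fun n : ℕ => (n : ℝ) * δ n) 1).mpr hs
    apply (summable_nat_add_iff (f := 𝒢.indicator ψ') 1).mp
    refine h1.congr fun n => ?_
    have hn : (((n + 1 : ℕ)) : ℝ) ≠ 0 := by positivity
    rw [hδ]
    simp only
    by_cases h : n + 1 ∈ 𝒢
    · rw [if_pos h, Set.indicator_of_mem h, mul_div_cancel₀ _ hn]
    · rw [if_neg h, Set.indicator_of_notMem h, mul_zero]
  have hmain := ds_real c₀ hc₀ δ hδ0 hδ1 hδφ hδdiv
  filter_upwards [hmain] with x hx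
  apply hx.mono
  rintro q ⟨hq, a, ha1, ha2⟩
  rw [hδ] at ha2
  simp only at ha2
  split_ifs at ha2 with h
  · refine ⟨hq, h, a, ha1, lt_of_lt_of_le ha2 ?_⟩
    exact div_le_div_of_nonneg_right (min_le_left _ _) (Nat.cast_nonneg _)
  · exact absurd ha2 (not_lt.mpr (abs_nonneg _))

/-- truncation does not destroy the divergence over the primes -/
lemma trunc_div (ψ : ℕ → ℝ) (hψ : Antitone ψ)
    (hdiv : ¬ Summable ({p : ℕ | p.Prime}.indicator ψ)) :
    ¬ Summable ({p : ℕ | p.Prime}.indicator (fun q : ℕ => min (ψ q) (1 / 2))) := by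
  intro hs
  by_cases h : ∃ q₀, ψ q₀ < 1 / 2
  · obtain ⟨q₀, hq₀⟩ := h
    apply hdiv
    apply (summable_nat_add_iff q₀).mp
    refine ((summable_nat_add_iff q₀).mpr hs).congr fun n => ?_
    have h1 : ψ (n + q₀) ≤ ψ q₀ := hψ (by omega)
    by_cases hp : n + q₀ ∈ {p : ℕ | p.Prime}
    · rw [Set.indicator_of_mem hp, Set.indicator_of_mem hp, min_eq_left (by linarith)]
    · rw [Set.indicator_of_notMem hp, Set.indicator_of_notMem hp]
  · push Not at h
    have h0 := hs.tendsto_atTop_zero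
    have h1 := (h0.eventually (gt_mem_nhds (show (0 : ℝ) < 1 / 2 by norm_num)))
    obtain ⟨N, hN⟩ := eventually_atTop.mp h1
    obtain ⟨p, hp1, hp2⟩ := Nat.exists_infinite_primes N
    have h2 := hN p hp1
    rw [Set.indicator_of_mem (show p ∈ {p : ℕ | p.Prime} from hp2), min_eq_right (h p)] at h2
    exact absurd h2 (lt_irrefl _)

/-- sums over blocks with base `4` -/
lemma block_sum (f : ℕ → ℝ) (j₀ K : ℕ) : ∑ k ∈ range K, ∑ n ∈ Ioc ((4 : ℕ) ^ (k + j₀)) ((4 : ℕ) ^ (k + j₀ + 1)), f n =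
    ∑ n ∈ Ioc ((4 : ℕ) ^ j₀) ((4 : ℕ) ^ (K + j₀)), f n := by
  induction K with
  | zero => simp
  | succ K ih =>
    rw [Finset.sum_range_succ, ih, show K + 1 + j₀ = K + j₀ + 1 by ring]
    rw [← Finset.sum_union]
    · rw [Finset.Ioc_union_Ioc_eq_Ioc]
      · exact Nat.pow_le_pow_right (by norm_num) (by omega)
      · exact Nat.pow_le_pow_right (by norm_num) (by omega)
    · rw [Finset.disjoint_left]
      intro a ha hb
      rw [Finset.mem_Ioc] at ha hb
      omega

theorem prime_dens (K : ℝ) (ψ : ℕ → ℝ) (hψ : Antitone ψ) (hψ0 : ∀ q, 0 ≤ ψ q)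
    (hdiv : ¬ Summable ({p : ℕ | p.Prime}.indicator ψ)) :
    ∀ᵐ x : ℝ, {q : ℕ | q.Prime ∧ (∀ p : ℕ, p.Prime → q < p → K * Real.log q < (p : ℝ) - q) ∧
      ∃ a : ℤ, Int.gcd a q = 1 ∧ |x - a / q| < ψ q / q}.Infinite := by
  classical
  set 𝒢 : Set ℕ := {q | q.Prime ∧ ∀ p : ℕ, p.Prime → q < p → K * Real.log q < (p : ℝ) - q} with h𝒢
  set ψ' : ℕ → ℝ := fun q => min (ψ q) (1 / 2) with hψ'
  have hψ'0 : ∀ q, 0 ≤ ψ' q := fun q => le_min (hψ0 q) (by norm_num)
  have hψ'anti : Antitone ψ' := fun a b hab => min_le_min_right _ (hψ hab)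
  have hdiv' := trunc_div ψ hψ hdiv
  have hmain : ¬ Summable (𝒢.indicator ψ') := by
    intro hs
    apply hdiv'
    obtain ⟨k, hk, hlg⟩ := lg_card K
    have hcb := count_bound 16 (by norm_num)
    have hpow : Tendsto (fun j : ℕ => ((4 : ℝ) ^ j)) atTop atTop :=
      tendsto_pow_atTop_atTop_of_one_lt (by norm_num : (1 : ℝ) < 4)
    obtain ⟨j₁, hj₁⟩ := eventually_atTop.mp (hpow.eventually (hlg.and (hcb.and (eventually_gt_atTop 1))))
    set j₀ := max j₁ 1 with hj₀
    have hkr : (0 : ℝ) < k := by exact_mod_cast hk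
    have hnn : ∀ n : ℕ, 0 ≤ 𝒢.indicator ψ' n := fun n => Set.indicator_nonneg (fun q _ => hψ'0 q) n
    have hnn' : ∀ n : ℕ, 0 ≤ {p : ℕ | p.Prime}.indicator ψ' n := fun n =>
      Set.indicator_nonneg (fun q _ => hψ'0 q) n
    -- the comparison of the blocks
    have hblock : ∀ j, j₀ ≤ j →
        ∑ n ∈ Ioc ((4 : ℕ) ^ (j + 1)) ((4 : ℕ) ^ (j + 1 + 1)), {p : ℕ | p.Prime}.indicator ψ' n ≤
        (1024 * k) * ∑ n ∈ Ioc ((4 : ℕ) ^ j) ((4 : ℕ) ^ (j + 1)), 𝒢.indicator ψ' n := by
      intro j hj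
      have hjj : j₁ ≤ j := (le_max_left _ _).trans hj
      have hj1 : 1 ≤ j := (le_max_right _ _).trans hj
      obtain ⟨h1, h2, h3⟩ := hj₁ j hjj
      set Y : ℝ := (4 : ℝ) ^ j with hY
      have hlY : 0 < Real.log Y := Real.log_pos h3
      -- the primes of the next block
      have e1 : ∑ n ∈ Ioc ((4 : ℕ) ^ (j + 1)) ((4 : ℕ) ^ (j + 1 + 1)), {p : ℕ | p.Prime}.indicator ψ' n ≤
          (128 * (Y / Real.log Y)) * ψ' (4 ^ (j + 1)) := by
        have f1 : ∑ n ∈ Ioc ((4 : ℕ) ^ (j + 1)) ((4 : ℕ) ^ (j + 1 + 1)), {p : ℕ | p.Prime}.indicator ψ' n ≤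
            ∑ n ∈ (Ioc ((4 : ℕ) ^ (j + 1)) ((4 : ℕ) ^ (j + 1 + 1))).filter Nat.Prime, ψ' (4 ^ (j + 1)) := by
          rw [Finset.sum_filter]
          apply Finset.sum_le_sum
          intro n hn
          rw [Finset.mem_Ioc] at hn
          by_cases hp : n.Prime
          · rw [if_pos hp, Set.indicator_of_mem (show n ∈ {p : ℕ | p.Prime} from hp)]
            exact hψ'anti hn.1.le
          · rw [if_neg hp, Set.indicator_of_notMem (show n ∉ {p : ℕ | p.Prime} from hp)]
        refine f1.trans ?_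
        rw [Finset.sum_const, nsmul_eq_mul]
        apply mul_le_mul_of_nonneg_right _ (hψ'0 _)
        have f2 : ((Ioc ((4 : ℕ) ^ (j + 1)) ((4 : ℕ) ^ (j + 1 + 1))).filter Nat.Prime).card ≤
            Nat.primeCounting ⌊16 * Y⌋₊ := by
          have f3 : ⌊16 * Y⌋₊ = 4 ^ (j + 2) := by
            rw [hY]
            have : (16 : ℝ) * 4 ^ j = ((4 ^ (j + 2) : ℕ) : ℝ) := by push_cast; rw [pow_add]; ring
            rw [this, Nat.floor_natCast]
          rw [f3, Nat.primeCounting, Nat.primeCounting', Nat.count_eq_card_filter_range]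
          apply Finset.card_le_card
          intro n hn
          rw [Finset.mem_filter, Finset.mem_Ioc] at hn
          rw [Finset.mem_filter, Finset.mem_range]
          exact ⟨Nat.lt_succ_of_le hn.1.2, hn.2⟩
        have f4 : ((Nat.primeCounting ⌊16 * Y⌋₊ : ℕ) : ℝ) ≤ 8 * 16 * (Y / Real.log Y) := h2
        calc _ ≤ ((Nat.primeCounting ⌊16 * Y⌋₊ : ℕ) : ℝ) := by exact_mod_cast f2
          _ ≤ _ := by linarith
      -- the good primes of the block
      have e2 : (Y / (8 * k * Real.log Y)) * ψ' (4 ^ (j + 1)) ≤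
          ∑ n ∈ Ioc ((4 : ℕ) ^ j) ((4 : ℕ) ^ (j + 1)), 𝒢.indicator ψ' n := by
        set G : Finset ℕ := (Lg K Y).image (fun i => Nat.nth Nat.Prime i) with hG
        have hGc : G.card = (Lg K Y).card := by
          rw [hG]
          apply Finset.card_image_of_injective
          exact Nat.nth_injective Nat.infinite_setOfPred_prime
        have hGm : ∀ q ∈ G, q ∈ Ioc ((4 : ℕ) ^ j) ((4 : ℕ) ^ (j + 1)) ∧ q ∈ 𝒢 := by
          intro q hq
          rw [hG, Finset.mem_image] at hq
          obtain ⟨i, hi, rfl⟩ := hq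
          rw [Lg, Finset.mem_filter] at hi
          obtain ⟨_, hi1, hi2, hi3⟩ := hi
          have hPi : P i = (Nat.nth Nat.Prime i : ℝ) := rfl
          have hPi1 : P (i + 1) = (Nat.nth Nat.Prime (i + 1) : ℝ) := rfl
          have hpr : (Nat.nth Nat.Prime i).Prime := Nat.nth_mem_of_infinite Nat.infinite_setOfPred_prime i
          have hlt : Nat.nth Nat.Prime i < Nat.nth Nat.Prime (i + 1) :=
            Nat.nth_strictMono Nat.infinite_setOfPred_prime (Nat.lt_succ_self i)
          refine ⟨?_, hpr, ?_⟩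
          · rw [Finset.mem_Ioc]
            have g1 : (4 : ℕ) ^ j ≤ Nat.nth Nat.Prime i := by
              rw [hPi, hY] at hi1
              exact_mod_cast hi1
            have g2 : Nat.nth Nat.Prime (i + 1) ≤ 4 ^ (j + 1) := by
              rw [hPi1, hY] at hi2
              have : ((Nat.nth Nat.Prime (i + 1) : ℕ) : ℝ) ≤ ((4 ^ (j + 1) : ℕ) : ℝ) := by
                push_cast; rw [pow_succ]; linarith
              exact_mod_cast this
            refine ⟨lt_of_le_of_ne g1 ?_, by omega⟩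
            intro heq
            rw [← heq] at hpr
            have hd : 4 ∣ 4 ^ j := dvd_pow_self 4 (by omega)
            have h22 : 2 ∣ 4 ^ j := (by norm_num : 2 ∣ 4).trans hd
            have := (Nat.prime_dvd_prime_iff_eq Nat.prime_two hpr).mp h22
            rw [← this] at hd
            omega
          · intro p hp hqp
            have g3 : Nat.nth Nat.Prime (i + 1) ≤ p := by
              by_contra hlt'
              rw [not_le] at hlt'
              have := Nat.lt_nth_iff_count_lt Nat.infinite_setOfPred_prime (a := i + 1) (b := p)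
              have h5 : Nat.count Nat.Prime p < i + 1 := by
                by_contra h6
                rw [not_lt] at h6
                have h7 : i + 1 < Nat.count Nat.Prime (p + 1) := by
                  rw [Nat.count_succ, if_pos hp]; omega
                have h8 := (Nat.nth_lt_of_lt_count h7)
                omega
              have h9 : i < Nat.count Nat.Prime p := by
                rw [← Nat.count_nth_of_infinite Nat.infinite_setOfPred_prime (n := i)] 
                exact Nat.count_strict_mono hpr hqp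
              omega
            rw [hPi, hPi1] at hi3
            have : ((Nat.nth Nat.Prime (i + 1) : ℕ) : ℝ) ≤ p := by exact_mod_cast g3
            linarith
        calc (Y / (8 * k * Real.log Y)) * ψ' (4 ^ (j + 1)) ≤ (G.card : ℝ) * ψ' (4 ^ (j + 1)) := by
              apply mul_le_mul_of_nonneg_right _ (hψ'0 _)
              rw [hGc]; exact h1
          _ = ∑ n ∈ G, ψ' (4 ^ (j + 1)) := by rw [Finset.sum_const, nsmul_eq_mul]
          _ ≤ ∑ n ∈ G, 𝒢.indicator ψ' n := by
              apply Finset.sum_le_sum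
              intro n hn
              rw [Set.indicator_of_mem (hGm n hn).2]
              exact hψ'anti (Finset.mem_Ioc.mp (hGm n hn).1).2
          _ ≤ _ := Finset.sum_le_sum_of_subset_of_nonneg (fun n hn => (hGm n hn).1)
              (fun n _ _ => hnn n)
      refine e1.trans ?_
      have e3 : (128 * (Y / Real.log Y)) * ψ' (4 ^ (j + 1)) =
          (1024 * k) * ((Y / (8 * k * Real.log Y)) * ψ' (4 ^ (j + 1))) := by
        field_simp; ring
      rw [e3]
      exact mul_le_mul_of_nonneg_left e2 (by positivity)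
    -- bounded partial sums
    have hsum : Summable (fun i : ℕ => {p : ℕ | p.Prime}.indicator ψ' i) := by
      apply summable_of_sum_range_le
        (c := ∑ n ∈ range (4 ^ (j₀ + 1) + 1), {p : ℕ | p.Prime}.indicator ψ' n +
          (1024 * k) * ∑' n : ℕ, 𝒢.indicator ψ' n) hnn'
      intro N
      have g1 : ∑ n ∈ range N, {p : ℕ | p.Prime}.indicator ψ' n ≤
          ∑ n ∈ range (4 ^ (j₀ + 1) + 1), {p : ℕ | p.Prime}.indicator ψ' n +
          ∑ n ∈ Ioc (4 ^ (j₀ + 1)) (4 ^ (N + (j₀ + 1))), {p : ℕ | p.Prime}.indicator ψ' n := by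
        rw [← Finset.sum_union]
        · apply Finset.sum_le_sum_of_subset_of_nonneg
          · intro n hn
            rw [Finset.mem_range] at hn
            rw [Finset.mem_union, Finset.mem_range, Finset.mem_Ioc]
            have : N < 4 ^ N := Nat.lt_pow_self (by norm_num)
            have h4 : 4 ^ N ≤ 4 ^ (N + (j₀ + 1)) := Nat.pow_le_pow_right (by norm_num) (by omega)
            omega
          · intro n _ _; exact hnn' n
        · rw [Finset.disjoint_left]
          intro a ha hb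
          rw [Finset.mem_range] at ha
          rw [Finset.mem_Ioc] at hb
          omega
      refine g1.trans (add_le_add_right ?_ _)
      rw [← block_sum _ (j₀ + 1) N]
      calc ∑ i ∈ range N, ∑ n ∈ Ioc ((4 : ℕ) ^ (i + (j₀ + 1))) ((4 : ℕ) ^ (i + (j₀ + 1) + 1)),
            {p : ℕ | p.Prime}.indicator ψ' n
          ≤ ∑ i ∈ range N, (1024 * k) * ∑ n ∈ Ioc ((4 : ℕ) ^ (i + j₀)) ((4 : ℕ) ^ (i + j₀ + 1)),
            𝒢.indicator ψ' n := by
            apply Finset.sum_le_sum
            intro i _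
            have := hblock (i + j₀) (by omega)
            rw [show i + (j₀ + 1) = i + j₀ + 1 by ring]
            exact this
        _ = (1024 * k) * ∑ n ∈ Ioc ((4 : ℕ) ^ j₀) ((4 : ℕ) ^ (N + j₀)), 𝒢.indicator ψ' n := by
            rw [← Finset.mul_sum, block_sum]
        _ ≤ _ := mul_le_mul_of_nonneg_left (hs.sum_le_tsum _ (fun n _ => hnn n)) (by positivity)
    exact hsum
  have hφ : ∀ q ∈ 𝒢, (1 / 2 : ℝ) * q ≤ (q.totient : ℝ) := by
    intro q hq
    have hq2 : 2 ≤ q := hq.1.two_le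
    rw [Nat.totient_prime hq.1]
    have : ((q - 1 : ℕ) : ℝ) = q - 1 := by
      rw [Nat.cast_sub (by omega)]; simp
    rw [this]
    have : (2 : ℝ) ≤ q := by exact_mod_cast hq2
    linarith
  have := ds_general (1 / 2) (by norm_num) 𝒢 hφ ψ hψ0 hmain
  filter_upwards [this] with x hx
  apply hx.mono
  rintro q ⟨h1, h2, h3⟩
  exact ⟨h2.1, h2.2, h3⟩

end Pool.Agent.H99.KG
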