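import Pool.Agent.H99.KG.Meas

set_option autoImplicit false

/-! # The theorem of Duffin and Schaeffer (1941), for denominators with `φ(q) ≥ c q` -/

namespace Pool.Agent.H99.KG

open Set Filter Metric MeasureTheory Topology
open scoped ENNReal

lemma tail_measure (c : ℝ) (hc : 0 < c) (δ : ℕ → ℝ) (hδ0 : ∀ n, 0 ≤ δ n)
    (hδ1 : ∀ n : ℕ, 0 < n → δ n ≤ 1 / (2 * n))
    (hφ : ∀ n : ℕ, 0 < δ n → c * n ≤ n.totient) (hdiv : ¬ Summable (fun n : ℕ => (n : ℝ) * δ n))
    (N : ℕ) (hN : 0 < N) :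
    1 / (1 + 2 / c ^ 2) ≤ (volume : Measure UnitAddCircle).real (⋃ n ∈ Ici N, Ap n (δ n)) := by
  have hnn : ∀ n : ℕ, 0 ≤ (n : ℝ) * δ n := fun n => mul_nonneg (Nat.cast_nonneg _) (hδ0 n)
  rw [not_summable_iff_tendsto_nat_atTop_of_nonneg hnn] at hdiv
  obtain ⟨M, hM⟩ := (hdiv.eventually_ge_atTop
    (∑ n ∈ Finset.range N, (n : ℝ) * δ n + 1 / (2 * c))).exists_forall_of_atTop
  set M' := max M N with hM'
  have hM1 := hM M' (le_max_left _ _)
  set F : Finset ℕ := Finset.Ico N M' with hF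
  have hsplit : ∑ n ∈ Finset.range M', (n : ℝ) * δ n =
      ∑ n ∈ Finset.range N, (n : ℝ) * δ n + ∑ n ∈ F, (n : ℝ) * δ n :=
    (Finset.sum_range_add_sum_Ico _ (le_max_right _ _)).symm
  set s : ℝ := ∑ n ∈ F, (n : ℝ) * δ n with hs
  have hs1 : 1 / (2 * c) ≤ s := by linarith
  have hs0 : 0 ≤ s := Finset.sum_nonneg fun n _ => hnn n
  have hFpos : ∀ n ∈ F, 0 < n := fun n hn => lt_of_lt_of_le hN (Finset.mem_Ico.mp hn).1
  have hhalf : ∀ n ∈ F, δ n ≤ 1 / 2 := fun n hn => (hδ1 n (hFpos n hn)).trans (by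
    have : (1 : ℝ) ≤ n := by exact_mod_cast hFpos n hn
    apply one_div_le_one_div_of_le (by norm_num)
    linarith)
  set S : ℝ := ∑ n ∈ F, (volume : Measure UnitAddCircle).real (Ap n (δ n)) with hS
  have hSs : 2 * c * s ≤ S := by
    rw [hS, hs, Finset.mul_sum]
    refine Finset.sum_le_sum fun n hn => ?_
    rw [ap_lower n (hFpos n hn) (δ n) (hδ0 n) (hδ1 n (hFpos n hn))]
    rcases eq_or_lt_of_le (hδ0 n) with h | h
    · rw [← h]; simp
    · have := hφ n h
      nlinarith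
  have hS1 : 1 ≤ S := by
    calc (1 : ℝ) = 2 * c * (1 / (2 * c)) := by field_simp
      _ ≤ 2 * c * s := by gcongr
      _ ≤ S := hSs
  have hQ : ∑ i ∈ F, ∑ j ∈ F, (volume : Measure UnitAddCircle).real (Ap i (δ i) ∩ Ap j (δ j)) ≤
      S + 8 * s ^ 2 := by
    have h1 : ∀ i ∈ F, ∀ j ∈ F, (volume : Measure UnitAddCircle).real (Ap i (δ i) ∩ Ap j (δ j)) ≤
        (if i = j then (volume : Measure UnitAddCircle).real (Ap i (δ i)) else 0) +
          8 * (((i : ℝ) * δ i) * (j * δ j)) := by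
      intro i hi j hj
      by_cases hij : i = j
      · subst hij
        rw [if_pos rfl, inter_self]
        have := mul_nonneg (hnn i) (hnn i)
        linarith
      · rw [if_neg hij, zero_add]
        exact ap_inter i j (hFpos i hi) (hFpos j hj) hij _ _ (hδ0 i) (hhalf i hi) (hδ0 j)
          (hhalf j hj)
    calc _ ≤ ∑ i ∈ F, ∑ j ∈ F,
        ((if i = j then (volume : Measure UnitAddCircle).real (Ap i (δ i)) else 0) +
          8 * (((i : ℝ) * δ i) * (j * δ j))) :=
          Finset.sum_le_sum fun i hi => Finset.sum_le_sum fun j hj => h1 i hi j hj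
      _ = S + 8 * s ^ 2 := by
          simp_rw [Finset.sum_add_distrib]
          congr 1
          · rw [hS]
            refine Finset.sum_congr rfl fun i hi => ?_
            rw [Finset.sum_ite_eq, if_pos hi]
          · rw [sq, hs, Finset.sum_mul_sum, Finset.mul_sum]
            refine Finset.sum_congr rfl fun i _ => ?_
            rw [Finset.mul_sum]
  have : IsProbabilityMeasure (volume : Measure UnitAddCircle) := ⟨UnitAddCircle.measure_univ⟩
  have hCE := chung_erdos (volume : Measure UnitAddCircle) F (fun n => Ap n (δ n))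
    (fun n _ => ap_meas n (δ n))
  set U : ℝ := (volume : Measure UnitAddCircle).real (⋃ i ∈ F, Ap i (δ i)) with hU
  have hU0 : 0 ≤ U := measureReal_nonneg
  have hs2 : s ≤ S / (2 * c) := by
    rw [le_div_iff₀ (by positivity)]; linarith
  have hs3 : 8 * s ^ 2 ≤ 2 / c ^ 2 * S ^ 2 := by
    calc 8 * s ^ 2 ≤ 8 * (S / (2 * c)) ^ 2 := by gcongr
      _ = 2 / c ^ 2 * S ^ 2 := by field_simp; ring
  have h1 : S ^ 2 ≤ U * (S + 2 / c ^ 2 * S ^ 2) := by
    refine hCE.trans ?_
    gcongr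
    exact hQ.trans (by linarith)
  have hSp : 0 < S := by linarith
  have h2 : S ≤ U * (1 + 2 / c ^ 2 * S) := by
    have : S * S ≤ S * (U * (1 + 2 / c ^ 2 * S)) := by
      calc S * S = S ^ 2 := by ring
        _ ≤ U * (S + 2 / c ^ 2 * S ^ 2) := h1
        _ = _ := by ring
    exact le_of_mul_le_mul_left this hSp
  have hk : 0 < 2 / c ^ 2 := by positivity
  have h3 : 1 / (1 + 2 / c ^ 2) ≤ U := by
    rw [div_le_iff₀ (by positivity)]
    have h4 : S ≤ U * ((1 + 2 / c ^ 2) * S) := by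
      refine h2.trans ?_
      gcongr
      nlinarith
    have h5 : S * 1 ≤ S * (U * (1 + 2 / c ^ 2)) := by linarith
    exact le_of_mul_le_mul_left h5 hSp
  refine h3.trans ?_
  apply measureReal_mono _ (measure_ne_top _ _)
  intro x hx
  rw [mem_iUnion₂] at hx ⊢
  obtain ⟨n, hn, hx⟩ := hx
  exact ⟨n, (Finset.mem_Ico.mp hn).1, hx⟩

theorem ds_circle (c : ℝ) (hc : 0 < c) (δ : ℕ → ℝ) (hδ0 : ∀ n, 0 ≤ δ n)
    (hδ1 : ∀ n : ℕ, 0 < n → δ n ≤ 1 / (2 * n))
    (hφ : ∀ n : ℕ, 0 < δ n → c * n ≤ n.totient)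
    (hdiv : ¬ Summable (fun n : ℕ => (n : ℝ) * δ n)) :
    ∀ᵐ x : UnitAddCircle, x ∈ addWellApproximable UnitAddCircle δ := by
  have hδ : Tendsto δ atTop (𝓝 0) := by
    apply squeeze_zero' (Eventually.of_forall hδ0)
      (g := fun n : ℕ => 1 / (2 * (n : ℝ)))
    · filter_upwards [eventually_gt_atTop 0] with n hn using hδ1 n hn
    · have h : Tendsto (fun n : ℕ => 2 * (n : ℝ)) atTop atTop :=
        tendsto_natCast_atTop_atTop.const_mul_atTop (by norm_num)
      exact (tendsto_const_nhds).div_atTop h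
  rcases AddCircle.addWellApproximable_ae_empty_or_univ (T := (1 : ℝ)) δ hδ with h | h
  · exfalso
    set U : ℕ → Set UnitAddCircle := fun N => ⋃ n ∈ Ici (N + 1), Ap n (δ n) with hU
    have hanti : Antitone U := by
      intro a b hab x hx
      rw [hU] at hx ⊢
      rw [mem_iUnion₂] at hx ⊢
      obtain ⟨n, hn, hx⟩ := hx
      refine ⟨n, ?_, hx⟩
      rw [mem_Ici] at hn ⊢
      omega
    have hsub : ⋂ N, U N ⊆ addWellApproximable UnitAddCircle δ := by
      intro x hx
      rw [UnitAddCircle.mem_addWellApproximable_iff]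
      rw [mem_iInter] at hx
      rw [Set.infinite_iff_exists_gt]
      intro N
      have := hx N
      rw [hU, mem_iUnion₂] at this
      obtain ⟨n, hn, hxn⟩ := this
      rw [mem_Ici] at hn
      refine ⟨n, ?_, by omega⟩
      exact (UnitAddCircle.mem_approxAddOrderOf_iff (by omega)).mp hxn
    have hlow : ∀ N, 1 / (1 + 2 / c ^ 2) ≤ (volume : Measure UnitAddCircle).real (U N) := by
      intro N
      exact tail_measure c hc δ hδ0 hδ1 hφ hdiv (N + 1) (Nat.succ_pos _)
    have hUm : ∀ N, MeasurableSet (U N) := fun N =>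
      MeasurableSet.biUnion (to_countable _) fun n _ => ap_meas n (δ n)
    have h1 : (volume : Measure UnitAddCircle) (⋂ N, U N) = 0 := by
      apply measure_mono_null hsub
      exact (ae_iff.mp h).symm ▸ (by simp)
    have h2 := tendsto_measure_iInter_atTop (μ := (volume : Measure UnitAddCircle))
      (fun N => (hUm N).nullMeasurableSet) hanti ⟨0, measure_ne_top _ _⟩
    rw [h1] at h2
    have h3 : Tendsto (fun N => (volume : Measure UnitAddCircle).real (U N)) atTop (𝓝 0) := by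
      have := (ENNReal.tendsto_toReal (ENNReal.zero_ne_top)).comp h2
      simpa [Function.comp_def, Measure.real] using this
    have h4 := ge_of_tendsto' h3 hlow
    have : 0 < 1 / (1 + 2 / c ^ 2) := by positivity
    linarith
  · exact h

theorem ds_real (c : ℝ) (hc : 0 < c) (δ : ℕ → ℝ) (hδ0 : ∀ n, 0 ≤ δ n)
    (hδ1 : ∀ n : ℕ, 0 < n → δ n ≤ 1 / (2 * n))
    (hφ : ∀ n : ℕ, 0 < δ n → c * n ≤ n.totient)
    (hdiv : ¬ Summable (fun n : ℕ => (n : ℝ) * δ n)) :
    ∀ᵐ x : ℝ, {q : ℕ | 0 < q ∧ ∃ a : ℤ, Int.gcd a q = 1 ∧ |x - a / q| < δ q}.Infinite := by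
  have h := ds_circle c hc δ hδ0 hδ1 hφ hdiv
  have key : ∀ x : ℝ, ((x : ℝ) : UnitAddCircle) ∈ addWellApproximable UnitAddCircle δ →
      {q : ℕ | 0 < q ∧ ∃ a : ℤ, Int.gcd a q = 1 ∧ |x - a / q| < δ q}.Infinite := by
    intro x hx
    rw [UnitAddCircle.mem_addWellApproximable_iff] at hx
    apply hx.mono
    rintro n ⟨m, hm1, hm2, hm3⟩
    have hn : 0 < n := by omega
    have hnr : (0 : ℝ) < n := by exact_mod_cast hn
    refine ⟨hn, m + n * round (x - (m : ℝ) / n), ?_, ?_⟩
    · rw [mul_comm, Int.gcd_add_mul_right_left]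
      rw [Int.gcd_natCast_natCast]
      exact hm2
    · rw [← AddCircle.coe_sub, UnitAddCircle.norm_eq] at hm3
      have e : x - ((m + n * round (x - (m : ℝ) / n) : ℤ) : ℝ) / n =
          x - (m : ℝ) / n - round (x - (m : ℝ) / n) := by
        push_cast
        field_simp
        ring
      rw [e]
      exact hm3
  have h2 : ∀ k : ℤ, ∀ᵐ x : ℝ ∂(volume.restrict (Ioc (k : ℝ) (k + 1))),
      ((x : ℝ) : UnitAddCircle) ∈ addWellApproximable UnitAddCircle δ := by
    intro k
    exact (AddCircle.measurePreserving_mk (1 : ℝ) (k : ℝ)).quasiMeasurePreserving.ae h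
  have h3 : ∀ᵐ x : ℝ, ((x : ℝ) : UnitAddCircle) ∈ addWellApproximable UnitAddCircle δ := by
    have h4 : ∀ᵐ x : ℝ, ∀ k : ℤ, x ∈ Ioc (k : ℝ) (k + 1) →
        ((x : ℝ) : UnitAddCircle) ∈ addWellApproximable UnitAddCircle δ := by
      rw [ae_all_iff]
      intro k
      exact (ae_restrict_iff' measurableSet_Ioc).mp (h2 k)
    filter_upwards [h4] with x hx
    apply hx (⌈x⌉ - 1)
    constructor
    · push_cast
      have := Int.ceil_lt_add_one x
      linarith
    · push_cast
      have := Int.le_ceil x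
      linarith
  filter_upwards [h3] with x hx using key x hx

end Pool.Agent.H99.KG
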