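import Pool.Agent.H99.KG.NT
import Pool.Agent.H99.KG.Thm

set_option autoImplicit false

/-! # The theorem of Khintchine with denominators in long prime-free intervals -/

namespace Pool.Agent.H99.KG

open Finset Filter MeasureTheory Topology

/-- an abstract form: a set of denominators which is rich at all dyadic scales -/
theorem dyadic (c₀ : ℝ) (hc₀ : 0 < c₀) (𝒢 : Set ℕ) (h𝒢φ : ∀ q ∈ 𝒢, c₀ * q ≤ (q.totient : ℝ))
    (ψ w : ℕ → ℝ) (hψ : Antitone ψ) (hψ0 : ∀ q, 0 ≤ ψ q) (hw : Antitone w) (hw0 : ∀ q, 0 ≤ w q)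
    (hwdiv : ¬ Summable w) (hdiv : ¬ Summable (fun q => ψ q * w q))
    (hrich : ∀ᶠ j : ℕ in atTop, ∃ G : Finset ℕ, (2 : ℝ) ^ j * w (2 ^ (j + 1)) ≤ G.card ∧
      ∀ q ∈ G, 2 ^ j < q ∧ q ≤ 2 ^ (j + 1) ∧ q ∈ 𝒢) :
    ∀ᵐ x : ℝ, {q : ℕ | 0 < q ∧ q ∈ 𝒢 ∧
      ∃ a : ℤ, Int.gcd a q = 1 ∧ |x - a / q| < ψ q / q}.Infinite := by
  classical
  set ψ' : ℕ → ℝ := fun q => min (ψ q) (1 / 2) with hψ'
  have hψ'0 : ∀ q, 0 ≤ ψ' q := fun q => le_min (hψ0 q) (by norm_num)
  have hψ'anti : Antitone ψ' := fun a b hab => min_le_min_right _ (hψ hab)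
  set δ : ℕ → ℝ := fun q => if q ∈ 𝒢 then ψ' q / q else 0 with hδ
  have hδ0 : ∀ q, 0 ≤ δ q := by
    intro q
    rw [hδ]
    simp only
    split_ifs
    · exact div_nonneg (hψ'0 q) (Nat.cast_nonneg _)
    · exact le_rfl
  have hδ1 : ∀ n : ℕ, 0 < n → δ n ≤ 1 / (2 * n) := by
    intro n hn
    have hnr : (0 : ℝ) < n := by exact_mod_cast hn
    rw [hδ]
    simp only
    split_ifs
    · rw [div_le_div_iff₀ hnr (by positivity)]
      have : ψ' n ≤ 1 / 2 := min_le_right _ _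
      nlinarith
    · positivity
  have hδφ : ∀ n : ℕ, 0 < δ n → c₀ * n ≤ n.totient := by
    intro n hn
    rw [hδ] at hn
    simp only at hn
    split_ifs at hn with h
    · exact h𝒢φ n h
    · exact absurd hn (lt_irrefl _)
  -- the weight `f`
  set f : ℕ → ℝ := fun q => ψ' q * w q with hf
  have hf0 : ∀ q, 0 ≤ f q := fun q => mul_nonneg (hψ'0 q) (hw0 q)
  have hfanti : ∀ ⦃m n : ℕ⦄, 0 < m → m ≤ n → f n ≤ f m := fun m n _ hmn =>
    mul_le_mul (hψ'anti hmn) (hw hmn) (hw0 n) (hψ'0 m)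
  have hfdiv : ¬ Summable f := by
    intro hs
    by_cases h : ∃ q₀, ψ q₀ < 1 / 2
    · obtain ⟨q₀, hq₀⟩ := h
      apply hdiv
      have : (fun q => ψ (q + q₀) * w (q + q₀)) = fun q => f (q + q₀) := by
        funext q
        rw [hf]
        simp only
        congr 1
        have : ψ (q + q₀) ≤ ψ q₀ := hψ (by omega)
        exact (min_eq_left (by linarith)).symm
      have hs2 := (summable_nat_add_iff q₀).mpr hs
      rw [← this] at hs2
      exact (summable_nat_add_iff (f := fun q => ψ q * w q) q₀).mp hs2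
    · push Not at h
      apply hwdiv
      have : f = fun q => (1 / 2) * w q := by
        funext q
        change min (ψ q) (1 / 2) * w q = 1 / 2 * w q
        rw [min_eq_right (h q)]
      rw [this] at hs
      have := hs.mul_left 2
      simpa using this
  have hcond : ¬ Summable (fun k : ℕ => (2 : ℝ) ^ k * f (2 ^ k)) := by
    rw [summable_condensed_iff_of_nonneg hf0 hfanti]
    exact hfdiv
  have hδdiv : ¬ Summable (fun n : ℕ => (n : ℝ) * δ n) := by
    intro hs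
    apply hcond
    obtain ⟨j₀, hj₀⟩ := eventually_atTop.mp hrich
    have hnn : ∀ n : ℕ, 0 ≤ (n : ℝ) * δ n := fun n => mul_nonneg (Nat.cast_nonneg _) (hδ0 n)
    -- block sums
    have hblock : ∀ j, j₀ ≤ j → (2 : ℝ) ^ (j + 1) * f (2 ^ (j + 1)) ≤
        2 * ∑ n ∈ Ioc ((2 : ℕ) ^ j) ((2 : ℕ) ^ (j + 1)), (n : ℝ) * δ n := by
      intro j hj
      obtain ⟨G, hG1, hG2⟩ := hj₀ j hj
      have h1 : ∑ n ∈ G, ψ' (2 ^ (j + 1)) ≤ ∑ n ∈ Ioc ((2 : ℕ) ^ j) ((2 : ℕ) ^ (j + 1)), (n : ℝ) * δ n := by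
        calc ∑ n ∈ G, ψ' (2 ^ (j + 1)) ≤ ∑ n ∈ G, (n : ℝ) * δ n := by
              apply Finset.sum_le_sum
              intro n hn
              obtain ⟨h1, h2, h3⟩ := hG2 n hn
              have hn0 : (0 : ℝ) < n := by exact_mod_cast (by omega : 0 < n)
              rw [hδ]
              simp only
              rw [if_pos h3, mul_div_cancel₀ _ hn0.ne']
              exact hψ'anti h2
          _ ≤ _ := by
              apply Finset.sum_le_sum_of_subset_of_nonneg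
              · intro n hn
                obtain ⟨h1, h2, h3⟩ := hG2 n hn
                exact Finset.mem_Ioc.mpr ⟨h1, h2⟩
              · intro n _ _; exact hnn n
      rw [Finset.sum_const, nsmul_eq_mul] at h1
      have h2 : (2 : ℝ) ^ j * w (2 ^ (j + 1)) * ψ' (2 ^ (j + 1)) ≤
          (G.card : ℝ) * ψ' (2 ^ (j + 1)) := mul_le_mul_of_nonneg_right hG1 (hψ'0 _)
      have e : (2 : ℝ) ^ (j + 1) * f (2 ^ (j + 1)) =
          2 * ((2 : ℝ) ^ j * w (2 ^ (j + 1)) * ψ' (2 ^ (j + 1))) := by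
        rw [hf]; simp only; ring
      rw [e]
      linarith
    -- partial sums of the blocks are bounded
    have hsum : Summable (fun k : ℕ => (2 : ℝ) ^ (k + (j₀ + 1)) * f (2 ^ (k + (j₀ + 1)))) := by
      apply summable_of_sum_range_le (c := 2 * ∑' n : ℕ, (n : ℝ) * δ n)
      · intro k; exact mul_nonneg (by positivity) (hf0 _)
      · intro K
        have h1 : ∑ k ∈ range K, (2 : ℝ) ^ (k + (j₀ + 1)) * f (2 ^ (k + (j₀ + 1))) ≤
            ∑ k ∈ range K, 2 * ∑ n ∈ Ioc ((2 : ℕ) ^ (k + j₀)) ((2 : ℕ) ^ (k + j₀ + 1)), (n : ℝ) * δ n := by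
          apply Finset.sum_le_sum
          intro k _
          have := hblock (k + j₀) (by omega)
          rw [show k + (j₀ + 1) = k + j₀ + 1 by ring]
          exact this
        refine h1.trans ?_
        rw [← Finset.mul_sum]
        apply mul_le_mul_of_nonneg_left _ (by norm_num)
        have h2 : ∀ K : ℕ, ∑ k ∈ range K, ∑ n ∈ Ioc ((2 : ℕ) ^ (k + j₀)) ((2 : ℕ) ^ (k + j₀ + 1)), (n : ℝ) * δ n =
            ∑ n ∈ Ioc ((2 : ℕ) ^ j₀) ((2 : ℕ) ^ (K + j₀)), (n : ℝ) * δ n := by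
          intro K
          induction K with
          | zero => simp
          | succ K ih =>
            rw [Finset.sum_range_succ, ih, show K + 1 + j₀ = K + j₀ + 1 by ring]
            rw [← Finset.sum_union]
            · rw [Finset.Ioc_union_Ioc_eq_Ioc]
              · exact Nat.pow_le_pow_right (by norm_num) (by omega)
              · exact Nat.pow_le_pow_right (by norm_num) (by omega)
            · rw [Finset.disjoint_left]
              intro a ha hb
              rw [Finset.mem_Ioc] at ha hb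
              omega
        rw [h2]
        exact hs.sum_le_tsum _ (fun n _ => hnn n)
    exact (summable_nat_add_iff (f := fun k : ℕ => (2 : ℝ) ^ k * f (2 ^ k)) (j₀ + 1)).mp hsum
  have hmain := ds_real c₀ hc₀ δ hδ0 hδ1 hδφ hδdiv
  filter_upwards [hmain] with x hx
  apply hx.mono
  rintro q ⟨hq, a, ha1, ha2⟩
  rw [hδ] at ha2
  simp only at ha2
  split_ifs at ha2 with h
  · refine ⟨hq, h, a, ha1, lt_of_lt_of_le ha2 ?_⟩
    exact div_le_div_of_nonneg_right (min_le_left _ _) (Nat.cast_nonneg _)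
  · exact absurd ha2 (not_lt.mpr (abs_nonneg _))

lemma not_summable_exp (T : ℕ → ℝ) (hT : ∀ᶠ q : ℕ in atTop, T q ≤ Real.log q) :
    ¬ Summable (fun q => Real.exp (-T q)) := by
  intro hs
  obtain ⟨q₀, hq₀⟩ := eventually_atTop.mp hT
  have h1 := (summable_nat_add_iff (q₀ + 1)).mpr hs
  have h2 : Summable (fun n : ℕ => (1 : ℝ) / ((n + (q₀ + 1) : ℕ) : ℝ)) := by
    apply Summable.of_nonneg_of_le (fun n => by positivity) _ h1
    intro n
    have h3 := hq₀ (n + (q₀ + 1)) (by omega)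
    have h4 : (0 : ℝ) < ((n + (q₀ + 1) : ℕ) : ℝ) := by exact_mod_cast (by omega)
    rw [one_div, ← Real.exp_log h4, ← Real.exp_neg]
    apply Real.exp_le_exp.mpr
    linarith
  have h3 := (summable_nat_add_iff (f := fun n : ℕ => (1 : ℝ) / (n : ℝ)) (q₀ + 1)).mp h2
  exact Real.not_summable_one_div_natCast h3

theorem khintchine (c : ℝ) (hc : 0 < c) (hc6 : c < 1 / 6) : ∃ T₀ : ℝ, ∀ T ψ : ℕ → ℝ, Monotone T →
    (∀ᶠ q : ℕ in atTop, T₀ ≤ T q) → (∀ᶠ q : ℕ in atTop, T q ≤ Real.log q) →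
    Antitone ψ → (∀ q, 0 ≤ ψ q) → ¬ Summable (fun q => ψ q * Real.exp (-T q)) →
    ∀ᵐ x : ℝ, {q : ℕ | 0 < q ∧ (∀ p : ℕ, p.Prime → c * (Real.log q * Real.log (T q)) < |(p : ℝ) - q|) ∧
      ∃ a : ℤ, Int.gcd a q = 1 ∧ |x - a / q| < ψ q / q}.Infinite := by
  obtain ⟨c₀, hc₀, T₁, X₁, hab⟩ := abund_good c hc hc6
  refine ⟨max (T₁ + 1) 1, ?_⟩
  intro T ψ hTm hT1 hT2 hψ hψ0 hdiv
  set 𝒢 : Set ℕ := {q | c₀ * q ≤ (q.totient : ℝ) ∧
    ∀ p : ℕ, p.Prime → c * (Real.log q * Real.log (T q)) < |(p : ℝ) - q|} with h𝒢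
  have hrich : ∀ᶠ j : ℕ in atTop, ∃ G : Finset ℕ,
      (2 : ℝ) ^ j * (fun q => Real.exp (-T q)) (2 ^ (j + 1)) ≤ G.card ∧
      ∀ q ∈ G, 2 ^ j < q ∧ q ≤ 2 ^ (j + 1) ∧ q ∈ 𝒢 := by
    have hpow : Tendsto (fun j : ℕ => 2 ^ j) atTop atTop := tendsto_pow_atTop_atTop_of_one_lt (by norm_num)
    have hT1' := hpow.eventually (eventually_forall_ge_atTop.mpr hT1)
    have hT2' := hpow.eventually (eventually_forall_ge_atTop.mpr hT2)
    have hX' : ∀ᶠ j : ℕ in atTop, X₁ ≤ (((2 ^ j : ℕ)) : ℝ) :=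
      (tendsto_natCast_atTop_atTop.comp hpow).eventually_ge_atTop X₁
    filter_upwards [hT1', hT2', hX'] with j h1 h2 h3
    have hle : 2 ^ j ≤ 2 ^ (j + 1) := Nat.pow_le_pow_right (by norm_num) (by omega)
    have hlog2 : Real.log 2 ≤ 1 := by have := Real.log_two_lt_d9; linarith
    have hlog2p : 0 < Real.log 2 := Real.log_pos (by norm_num)
    have a1 := h1 (2 ^ (j + 1)) hle
    have a2 := h2 (2 ^ (j + 1)) hle
    have elog : Real.log ((2 ^ (j + 1) : ℕ) : ℝ) = Real.log ((2 ^ j : ℕ) : ℝ) + Real.log 2 := by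
      push_cast
      rw [Real.log_pow, Real.log_pow]
      push_cast; ring
    have a3 : T₁ + 1 ≤ T (2 ^ (j + 1)) := (le_max_left _ _).trans a1
    obtain ⟨G, hG1, hG2⟩ := hab (2 ^ j) h3 (T (2 ^ (j + 1)) - Real.log 2) (by linarith)
      (by rw [elog] at a2; linarith)
    refine ⟨G, ?_, ?_⟩
    · refine le_trans (le_of_eq ?_) hG1
      rw [neg_sub, sub_eq_add_neg, Real.exp_add, Real.exp_log (by norm_num : (0 : ℝ) < 2)]
      push_cast
      ring
    · intro q hq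
      obtain ⟨b1, b2, b3, b4⟩ := hG2 q hq
      have b2' : q ≤ 2 ^ (j + 1) := by rw [pow_succ]; omega
      refine ⟨b1, b2', b3, ?_⟩
      intro p hp
      refine lt_of_le_of_lt ?_ (b4 p hp)
      apply mul_le_mul_of_nonneg_left _ hc.le
      have hq0 : (0 : ℝ) < q := by exact_mod_cast (by omega : 0 < q)
      have e1 : Real.log q ≤ Real.log ((2 ^ j : ℕ) : ℝ) + 1 := by
        have : Real.log q ≤ Real.log ((2 ^ (j + 1) : ℕ) : ℝ) :=
          Real.log_le_log hq0 (by exact_mod_cast b2')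
        rw [elog] at this
        linarith
      have hTq1 : 1 ≤ T q := (le_max_right _ _).trans (h1 q b1.le)
      have e2 : Real.log (T q) ≤ Real.log (T (2 ^ (j + 1)) - Real.log 2 + 1) := by
        apply Real.log_le_log (by linarith)
        have := hTm b2'
        linarith
      have e3 : 0 ≤ Real.log (T q) := Real.log_nonneg hTq1
      have e4 : 0 ≤ Real.log ((2 ^ j : ℕ) : ℝ) + 1 := by
        have : 0 ≤ Real.log ((2 ^ j : ℕ) : ℝ) := Real.log_natCast_nonneg _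
        linarith
      exact mul_le_mul e1 e2 e3 e4
  have := dyadic c₀ hc₀ 𝒢 (fun q hq => hq.1) ψ (fun q => Real.exp (-T q)) hψ hψ0
    (fun a b hab => Real.exp_le_exp.mpr (neg_le_neg (hTm hab))) (fun q => (Real.exp_pos _).le)
    (not_summable_exp T hT2) hdiv hrich
  filter_upwards [this] with x hx
  apply hx.mono
  rintro q ⟨h1, h2, h3⟩
  exact ⟨h1, h2.2, h3⟩

end Pool.Agent.H99.KG
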