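import Pool.Agent.H99.KG.DS

set_option autoImplicit false

/-! # Measures of the sets of well approximable points and of their intersections -/

namespace Pool.Agent.H99.KG

open Set Filter Metric MeasureTheory Topology
open scoped ENNReal

/-- the points within `δ` of a point of order `n` -/
def Ap (n : ℕ) (δ : ℝ) : Set UnitAddCircle := approxAddOrderOf UnitAddCircle n δ

lemma ap_eq (n : ℕ) (δ : ℝ) : Ap n δ = ⋃ y ∈ Ord n, ball y δ := by
  unfold Ap approxAddOrderOf Ord
  rw [thickening_eq_biUnion_ball]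

lemma ap_meas (n : ℕ) (δ : ℝ) : MeasurableSet (Ap n δ) := by
  unfold Ap approxAddOrderOf
  exact isOpen_thickening.measurableSet

lemma vol_ball (y : UnitAddCircle) (δ : ℝ) (h0 : 0 ≤ δ) (h1 : δ ≤ 1 / 2) :
    (volume : Measure UnitAddCircle).real (ball y δ) = 2 * δ := by
  have h : (volume : Measure UnitAddCircle) (ball y δ) = ENNReal.ofReal (2 * δ) := by
    rw [← measure_congr (AddCircle.closedBall_ae_eq_ball (T := (1 : ℝ)) (x := y) (ε := δ)),
      AddCircle.volume_closedBall, min_eq_right (by linarith)]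
  rw [Measure.real, h, ENNReal.toReal_ofReal (by linarith)]

lemma ord_sep (n : ℕ) (hn : 0 < n) (y z : UnitAddCircle) (hy : y ∈ Ord n) (hz : z ∈ Ord n)
    (hyz : y ≠ z) : 1 / (n : ℝ) ≤ ‖y - z‖ := by
  have hnr : (0 : ℝ) < n := by exact_mod_cast hn
  have e1 : n • (y - z) = 0 := by
    rw [smul_sub]
    have f1 : n • y = 0 := by
      rw [← (show addOrderOf y = n from hy)]; exact addOrderOf_nsmul_eq_zero _
    have f2 : n • z = 0 := by
      rw [← (show addOrderOf z = n from hz)]; exact addOrderOf_nsmul_eq_zero _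
    rw [f1, f2, sub_zero]
  obtain ⟨k, hk0, hk1, hk2⟩ := rep_int n hn (y - z) e1 (sub_ne_zero.mpr hyz)
  have h1 : (1 : ℝ) ≤ |(k : ℝ)| := by
    have : (1 : ℤ) ≤ |k| := Int.one_le_abs hk0
    exact_mod_cast this
  rw [hk1] at h1
  rw [div_le_iff₀ hnr]
  linarith

lemma ap_lower (n : ℕ) (hn : 0 < n) (δ : ℝ) (h0 : 0 ≤ δ) (h1 : δ ≤ 1 / (2 * n)) :
    (volume : Measure UnitAddCircle).real (Ap n δ) = n.totient * (2 * δ) := by
  classical
  have hnr : (1 : ℝ) ≤ n := by exact_mod_cast hn
  have h12 : δ ≤ 1 / 2 := h1.trans (by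
    apply one_div_le_one_div_of_le (by norm_num)
    linarith)
  have hfin := ord_finite n hn
  rw [ap_eq]
  have e : (⋃ y ∈ Ord n, ball y δ) = ⋃ y ∈ hfin.toFinset, ball y δ := by simp
  rw [e, measureReal_biUnion_finset]
  · rw [Finset.sum_congr rfl fun y _ => vol_ball y δ h0 h12, Finset.sum_const, nsmul_eq_mul,
      ← Set.ncard_eq_toFinset_card _ hfin, ord_card]
  · intro y hy z hz hyz
    rw [Finset.mem_coe, Set.Finite.mem_toFinset] at hy hz
    have := ord_sep n hn y z hy hz hyz
    rw [Function.onFun, Set.disjoint_left]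
    intro x hx hx'
    rw [mem_ball, dist_eq_norm] at hx hx'
    have h2 : ‖y - z‖ ≤ ‖x - y‖ + ‖x - z‖ := by
      have : y - z = (x - z) - (x - y) := by abel
      rw [this]
      exact (norm_sub_le _ _).trans (by linarith)
    have h3 : 2 * δ ≤ 1 / n := by
      calc 2 * δ ≤ 2 * (1 / (2 * n)) := by linarith
        _ = 1 / n := by field_simp
    linarith
  · intro y _; exact measurableSet_ball

lemma ap_inter (n m : ℕ) (hn : 0 < n) (hm : 0 < m) (hnm : n ≠ m) (δ η : ℝ) (h0 : 0 ≤ δ)
    (h1 : δ ≤ 1 / 2) (h0' : 0 ≤ η) (h1' : η ≤ 1 / 2) :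
    (volume : Measure UnitAddCircle).real (Ap n δ ∩ Ap m η) ≤ 8 * ((n * δ) * (m * η)) := by
  classical
  rcases eq_or_lt_of_le h0 with h00 | h0p
  · have : Ap n δ = ∅ := by
      rw [ap_eq, ← h00]; simp
    rw [this, Set.empty_inter, measureReal_empty]
    positivity
  rcases eq_or_lt_of_le h0' with h00' | h0p'
  · have : Ap m η = ∅ := by
      rw [ap_eq, ← h00']; simp
    rw [this, Set.inter_empty, measureReal_empty]
    positivity
  obtain ⟨S, hS, hSc⟩ := pair_card n m hn hm hnm (δ + η) (by linarith)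
  have hsub : Ap n δ ∩ Ap m η ⊆ ⋃ x ∈ S, (ball x.1 δ ∩ ball x.2 η) := by
    rintro w ⟨h1, h2⟩
    rw [ap_eq, mem_iUnion₂] at h1 h2
    obtain ⟨y, hy, hy'⟩ := h1
    obtain ⟨z, hz, hz'⟩ := h2
    rw [mem_iUnion₂]
    refine ⟨(y, z), ?_, hy', hz'⟩
    rw [hS]
    refine ⟨hy, hz, ?_⟩
    rw [mem_ball, dist_eq_norm] at hy' hz'
    have : y - z = (w - z) - (w - y) := by abel
    show ‖y - z‖ < δ + η
    rw [this]
    exact lt_of_le_of_lt (norm_sub_le _ _) (by linarith)
  have hb : ∀ x ∈ S, (volume : Measure UnitAddCircle).real (ball x.1 δ ∩ ball x.2 η) ≤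
      2 * min δ η := by
    intro x _
    rcases le_total δ η with h | h
    · rw [min_eq_left h, ← vol_ball x.1 δ h0 h1]
      exact measureReal_mono inter_subset_left
    · rw [min_eq_right h, ← vol_ball x.2 η h0' h1']
      exact measureReal_mono inter_subset_right
  have hmin : (δ + η) * min δ η ≤ 2 * (δ * η) := by
    rcases le_total δ η with h | h
    · rw [min_eq_left h]; nlinarith
    · rw [min_eq_right h]; nlinarith
  have hmin0 : 0 ≤ min δ η := le_min h0 h0'
  calc (volume : Measure UnitAddCircle).real (Ap n δ ∩ Ap m η)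
      ≤ (volume : Measure UnitAddCircle).real (⋃ x ∈ S, (ball x.1 δ ∩ ball x.2 η)) :=
        measureReal_mono hsub (measure_ne_top _ _)
    _ ≤ ∑ x ∈ S, (volume : Measure UnitAddCircle).real (ball x.1 δ ∩ ball x.2 η) :=
        measureReal_biUnion_finset_le _ _
    _ ≤ ∑ x ∈ S, 2 * min δ η := Finset.sum_le_sum hb
    _ = S.card * (2 * min δ η) := by rw [Finset.sum_const, nsmul_eq_mul]
    _ ≤ (2 * (n * m * (δ + η))) * (2 * min δ η) := by gcongr
    _ = 4 * (n * m) * ((δ + η) * min δ η) := by ring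
    _ ≤ 4 * (n * m) * (2 * (δ * η)) := by gcongr
    _ = _ := by ring

/-- the inequality of Chung and Erdős -/
lemma chung_erdos {Ω : Type*} [MeasurableSpace Ω] (μ : Measure Ω) [IsProbabilityMeasure μ]
    {ι : Type*} (F : Finset ι) (A : ι → Set Ω) (hA : ∀ i ∈ F, MeasurableSet (A i)) :
    (∑ i ∈ F, μ.real (A i)) ^ 2 ≤
      μ.real (⋃ i ∈ F, A i) * ∑ i ∈ F, ∑ j ∈ F, μ.real (A i ∩ A j) := by
  classical
  set U : Set Ω := ⋃ i ∈ F, A i with hU
  have hUm : MeasurableSet U := Finset.measurableSet_biUnion F hA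
  set S : ℝ := ∑ i ∈ F, μ.real (A i) with hS
  set Q : ℝ := ∑ i ∈ F, ∑ j ∈ F, μ.real (A i ∩ A j) with hQ
  set f : Ω → ℝ := fun ω => ∑ i ∈ F, (A i).indicator (fun _ => (1 : ℝ)) ω with hf
  set u : Ω → ℝ := U.indicator (fun _ => (1 : ℝ)) with hu
  have key : ∀ t : ℝ, 0 ≤ Q - 2 * t * S + t ^ 2 * μ.real U := by
    intro t
    have h1 : 0 ≤ ∫ ω, (f ω - t * u ω) ^ 2 ∂μ := integral_nonneg fun ω => sq_nonneg _
    have h2 : ∀ ω, (f ω - t * u ω) ^ 2 =
        (∑ i ∈ F, ∑ j ∈ F, (A i ∩ A j).indicator (fun _ => (1 : ℝ)) ω) -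
          2 * t * (∑ i ∈ F, (A i).indicator (fun _ => (1 : ℝ)) ω) +
          t ^ 2 * U.indicator (fun _ => (1 : ℝ)) ω := by
      intro ω
      have e1 : f ω ^ 2 = ∑ i ∈ F, ∑ j ∈ F, (A i ∩ A j).indicator (fun _ => (1 : ℝ)) ω := by
        rw [hf, sq]
        simp only
        rw [Finset.sum_mul_sum]
        refine Finset.sum_congr rfl fun i _ => Finset.sum_congr rfl fun j _ => ?_
        by_cases hi : ω ∈ A i <;> by_cases hj : ω ∈ A j <;> simp [hi, hj]
      have e2 : f ω * u ω = f ω := by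
        by_cases hω : ω ∈ U
        · rw [hu]; simp [hω]
        · have : f ω = 0 := by
            rw [hf]
            apply Finset.sum_eq_zero
            intro i hi
            apply Set.indicator_of_notMem
            intro h
            exact hω (Set.mem_biUnion hi h)
          rw [this, zero_mul]
      have e3 : u ω ^ 2 = u ω := by
        rw [hu]
        by_cases hω : ω ∈ U <;> simp [hω]
      calc (f ω - t * u ω) ^ 2 = f ω ^ 2 - 2 * t * (f ω * u ω) + t ^ 2 * (u ω ^ 2) := by ring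
        _ = _ := by rw [e1, e2, e3]
    have hi1 : ∀ B : Set Ω, MeasurableSet B → Integrable (B.indicator (fun _ => (1 : ℝ))) μ :=
      fun B hB => (integrable_const (1 : ℝ)).indicator hB
    have hi2 : ∀ B : Set Ω, MeasurableSet B → ∫ ω, B.indicator (fun _ => (1 : ℝ)) ω ∂μ = μ.real B := by
      intro B hB
      rw [integral_indicator_const _ hB]; simp
    have hint1 : Integrable (fun ω => ∑ i ∈ F, ∑ j ∈ F, (A i ∩ A j).indicator (fun _ => (1 : ℝ)) ω) μ :=
      integrable_finsetSum _ fun i hi => integrable_finsetSum _ fun j hj =>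
        hi1 _ ((hA i hi).inter (hA j hj))
    have hint2 : Integrable (fun ω => ∑ i ∈ F, (A i).indicator (fun _ => (1 : ℝ)) ω) μ :=
      integrable_finsetSum _ fun i hi => hi1 _ (hA i hi)
    have h3 : ∫ ω, (f ω - t * u ω) ^ 2 ∂μ = Q - 2 * t * S + t ^ 2 * μ.real U := by
      simp_rw [h2]
      have a1 := integral_add (μ := μ) (f := fun ω => (∑ i ∈ F, ∑ j ∈ F,
          (A i ∩ A j).indicator (fun _ => (1 : ℝ)) ω) -
          2 * t * (∑ i ∈ F, (A i).indicator (fun _ => (1 : ℝ)) ω))
        (g := fun ω => t ^ 2 * U.indicator (fun _ => (1 : ℝ)) ω)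
        (hint1.sub (hint2.const_mul _)) ((hi1 U hUm).const_mul _)
      have a2 := integral_sub (μ := μ) (f := fun ω => (∑ i ∈ F, ∑ j ∈ F,
          (A i ∩ A j).indicator (fun _ => (1 : ℝ)) ω))
        (g := fun ω => 2 * t * (∑ i ∈ F, (A i).indicator (fun _ => (1 : ℝ)) ω))
        hint1 (hint2.const_mul _)
      rw [a1, a2, integral_const_mul, integral_const_mul,
        integral_finsetSum _ (fun i hi => integrable_finsetSum _ fun j hj =>
          hi1 _ ((hA i hi).inter (hA j hj))),
        integral_finsetSum _ (fun i hi => hi1 _ (hA i hi)), hi2 U hUm]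
      congr 2
      · rw [hQ]
        refine Finset.sum_congr rfl fun i hi => ?_
        rw [integral_finsetSum _ (fun j hj => hi1 _ ((hA i hi).inter (hA j hj)))]
        exact Finset.sum_congr rfl fun j hj => hi2 _ ((hA i hi).inter (hA j hj))
      · rw [hS]
        congr 1
        exact Finset.sum_congr rfl fun i hi => hi2 _ (hA i hi)
    rw [← h3]; exact h1
  have hS0 : 0 ≤ S := Finset.sum_nonneg fun i _ => measureReal_nonneg
  rcases eq_or_lt_of_le (measureReal_nonneg (μ := μ) (s := U)) with h0 | h0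
  · -- the union is a null set
    have hS' : S = 0 := by
      rw [hS]
      apply Finset.sum_eq_zero
      intro i hi
      apply le_antisymm _ measureReal_nonneg
      rw [h0]
      exact measureReal_mono (Set.subset_biUnion_of_mem (u := A) hi) (measure_ne_top _ _)
    rw [hS', ← h0]; simp
  · have := key (S / μ.real U)
    have e : Q - 2 * (S / μ.real U) * S + (S / μ.real U) ^ 2 * μ.real U = Q - S ^ 2 / μ.real U := by
      field_simp; ring
    rw [e] at this
    have h2 : S ^ 2 / μ.real U ≤ Q := by linarith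
    rw [div_le_iff₀ h0] at h2
    linarith

end Pool.Agent.H99.KG
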