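import Pool.Agent.H99.KG.Phi
import Pool.Graph.R_seed8.Y831.RC5.Abund5

set_option autoImplicit false

/-! # Many integers with large totient in the middle of long prime-free intervals -/

namespace Pool.Agent.H99.KG

open Finset Pool.Agent.Y831.RC

/-- the integers with a small prime factor around `q` are not prime -/
lemma no_prime (X n L q : ℕ) (y : ℝ) (hy : y ≤ X) (hX : X ≤ n)
    (hrun : ∀ k : ℕ, 1 ≤ k → k ≤ L + L + L →
      ∃ p : ℕ, p.Prime ∧ (p : ℝ) ≤ y ∧ (p : ℤ) ∣ (n : ℤ) + k)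
    (hq : q ∈ Finset.Ioc (n + L) (n + L + L)) (p : ℕ) (hp : p.Prime) :
    (L : ℝ) < |(p : ℝ) - q| := by
  rw [Finset.mem_Ioc] at hq
  by_contra hlt
  rw [not_lt, abs_le] at hlt
  have h1 : q ≤ p + L := by
    have : (q : ℝ) ≤ ((p + L : ℕ) : ℝ) := by push_cast; linarith [hlt.1]
    exact_mod_cast this
  have h2 : p ≤ q + L := by
    have : (p : ℝ) ≤ ((q + L : ℕ) : ℝ) := by push_cast; linarith [hlt.2]
    exact_mod_cast this
  obtain ⟨k, hk⟩ : ∃ k, p = n + k := ⟨p - n, by omega⟩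
  obtain ⟨r, hr, hry, hrd⟩ := hrun k (by omega) (by omega)
  have hrp : r ∣ p := by
    rw [hk]
    exact_mod_cast hrd
  have : r = p := (Nat.prime_dvd_prime_iff_eq hr hp).mp hrp
  have h3 : (p : ℝ) ≤ X := by rw [← this]; exact hry.trans hy
  have h4 : p ≤ X := by exact_mod_cast h3
  omega

theorem abund_good (c : ℝ) (hc : 0 < c) (hc6 : c < 1 / 6) :
    ∃ c₀ : ℝ, 0 < c₀ ∧ ∃ T₀ X₀ : ℝ, ∀ X : ℕ, X₀ ≤ X → ∀ T : ℝ, T₀ ≤ T → T ≤ Real.log X →
      ∃ G : Finset ℕ, X * Real.exp (-T) / 2 ≤ G.card ∧ ∀ q ∈ G, X < q ∧ q ≤ 2 * X ∧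
        c₀ * q ≤ (q.totient : ℝ) ∧
        ∀ p : ℕ, p.Prime → c * ((Real.log X + 1) * Real.log (T + 1)) < |(p : ℝ) - q| := by
  classical
  set d : ℝ := (1 / 6 - c) / 2 with hd
  have hd0 : 0 < d := by rw [hd]; linarith
  set c' : ℝ := 3 * (c + d) with hc'
  have hc'0 : 0 < c' := by positivity
  have hc'2 : c' < 1 / 2 := by rw [hc', hd]; linarith
  set ρ : ℝ := min 1 (d / (6 * c)) with hρ
  have hρ0 : 0 < ρ := lt_min one_pos (by positivity)
  have hρ1 : ρ ≤ 1 := min_le_left _ _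
  have hρd : 3 * ρ * c ≤ d / 2 := by
    have : ρ ≤ d / (6 * c) := min_le_right _ _
    rw [le_div_iff₀ (by positivity)] at this
    linarith
  obtain ⟨T₁, X₁, hab⟩ := abund5 c' (1 / 2) hc'0 hc'2 (by norm_num)
  refine ⟨(4 : ℝ) ^ (-(4 + 2 / c)), by positivity, max T₁ (Real.exp (max 1 (1 / ρ))),
    max X₁ (Real.exp (max 1 (max (1 / ρ) (2 / d)))), ?_⟩
  intro X hX T hT hTX
  have hX1 : X₁ ≤ (X : ℝ) := (le_max_left _ _).trans hX
  have hX2 : Real.exp (max 1 (max (1 / ρ) (2 / d))) ≤ X := (le_max_right _ _).trans hX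
  have hXpos : (0 : ℝ) < X := lt_of_lt_of_le (Real.exp_pos _) hX2
  have hlX : max 1 (max (1 / ρ) (2 / d)) ≤ Real.log X := by
    rw [Real.le_log_iff_exp_le hXpos]; exact hX2
  have hl1 : 1 ≤ Real.log X := (le_max_left _ _).trans hlX
  have hl2 : 1 / ρ ≤ Real.log X := ((le_max_left _ _).trans (le_max_right _ _)).trans hlX
  have hl3 : 2 / d ≤ Real.log X := ((le_max_right _ _).trans (le_max_right _ _)).trans hlX
  have hT1 : T₁ ≤ T := (le_max_left _ _).trans hT
  have hT2 : Real.exp (max 1 (1 / ρ)) ≤ T := (le_max_right _ _).trans hT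
  have hTpos : 0 < T := lt_of_lt_of_le (Real.exp_pos _) hT2
  have hlT : max 1 (1 / ρ) ≤ Real.log T := by
    rw [Real.le_log_iff_exp_le hTpos]; exact hT2
  have ht1 : 1 ≤ Real.log T := (le_max_left _ _).trans hlT
  have ht2 : 1 / ρ ≤ Real.log T := (le_max_right _ _).trans hlT
  have hTge1 : 1 ≤ T := by
    have := Real.add_one_le_exp (max 1 (1 / ρ))
    have h2 : (1 : ℝ) ≤ max 1 (1 / ρ) := le_max_left _ _
    linarith
  have hlT1 : Real.log (T + 1) ≤ (1 + ρ) * Real.log T := by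
    have h1 : Real.log (T + 1) ≤ Real.log (2 * T) := Real.log_le_log (by linarith) (by linarith)
    rw [Real.log_mul (by norm_num) hTpos.ne'] at h1
    have h2 : Real.log 2 ≤ 1 := by
      have := Real.log_two_lt_d9; linarith
    have h3 : 1 ≤ ρ * Real.log T := by
      rw [div_le_iff₀ hρ0] at ht2; linarith
    linarith
  have hlT0 : 0 ≤ Real.log (T + 1) := Real.log_nonneg (by linarith)
  have hlTge : 1 ≤ Real.log (T + 1) := ht1.trans (Real.log_le_log hTpos (by linarith))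
  have hlX1 : Real.log X + 1 ≤ (1 + ρ) * Real.log X := by
    have h3 : 1 ≤ ρ * Real.log X := by
      rw [div_le_iff₀ hρ0] at hl2; linarith
    linarith
  set A : ℝ := Real.log X * Real.log T with hA
  have hA1 : 2 / d ≤ A := by
    rw [hA]
    calc 2 / d ≤ Real.log X * 1 := by linarith
      _ ≤ _ := by gcongr
  have hA0 : 0 < A := lt_of_lt_of_le (by positivity) hA1
  have hmain : c * ((Real.log X + 1) * Real.log (T + 1)) + 1 ≤ (c + d) * A := by
    have h1 : (Real.log X + 1) * Real.log (T + 1) ≤ ((1 + ρ) * Real.log X) * ((1 + ρ) * Real.log T) := by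
      gcongr
    have h2 : ((1 + ρ) * Real.log X) * ((1 + ρ) * Real.log T) = (1 + ρ) ^ 2 * A := by rw [hA]; ring
    have h3 : (1 + ρ) ^ 2 ≤ 1 + 3 * ρ := by nlinarith
    have h4 : c * ((Real.log X + 1) * Real.log (T + 1)) ≤ c * ((1 + 3 * ρ) * A) := by
      apply mul_le_mul_of_nonneg_left _ hc.le
      rw [h2] at h1
      exact h1.trans (mul_le_mul_of_nonneg_right h3 hA0.le)
    have h5 : 1 ≤ d / 2 * A := by
      rw [div_le_iff₀ hd0] at hA1; linarith
    have h6 : 3 * ρ * c * A ≤ d / 2 * A := mul_le_mul_of_nonneg_right hρd hA0.le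
    nlinarith
  set F : ℝ := c' * A with hF
  set L : ℕ := ⌊(c + d) * A⌋₊ with hL
  have hcdA : 0 ≤ (c + d) * A := by positivity
  have hLle : (L : ℝ) ≤ (c + d) * A := Nat.floor_le hcdA
  have hLgt : (c + d) * A < L + 1 := Nat.lt_floor_add_one _
  have hLgt2 : c * ((Real.log X + 1) * Real.log (T + 1)) < L := by linarith
  have hL3 : ((L + L + L : ℕ) : ℝ) ≤ F := by
    push_cast; rw [hF, hc']; linarith
  have hLlow : c * (Real.log X + 1) ≤ L := by
    refine le_trans ?_ hLgt2.le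
    apply mul_le_mul_of_nonneg_left _ hc.le
    have : 0 ≤ Real.log X + 1 := by linarith
    nlinarith
  have hLpos : 0 < L := by
    have : (0 : ℝ) < L := lt_of_lt_of_le (by positivity) hLlow
    exact_mod_cast this
  have hrs := hab X hX1 T hT1 hTX X
  rw [← hA, ← hF] at hrs
  set y : ℝ := (X : ℝ) ^ (1 / 2 : ℝ) with hy
  have hyX : y ≤ X := by
    have hX1' : (1 : ℝ) ≤ X := by
      have := Real.add_one_le_exp (max 1 (max (1 / ρ) (2 / d)))
      have h2 : (1 : ℝ) ≤ max 1 (max (1 / ρ) (2 / d)) := le_max_left _ _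
      linarith
    calc y ≤ (X : ℝ) ^ (1 : ℝ) := Real.rpow_le_rpow_of_exponent_le hX1' (by norm_num)
      _ = X := Real.rpow_one _
  have hF0 : 0 ≤ F := by positivity
  have hfin := RunSet_finite X X F y hF0
  set R : Finset ℕ := hfin.toFinset.image Int.toNat with hR
  have hRcard : R.card = (RunSet X X F y).ncard := by
    rw [hR, Finset.card_image_of_injOn, ← Set.ncard_eq_toFinset_card _ hfin]
    intro a ha b hb hab
    rw [Finset.mem_coe, Set.Finite.mem_toFinset] at ha hb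
    have ha0 : (0 : ℝ) ≤ (a : ℝ) := hXpos.le.trans ha.1
    have hb0 : (0 : ℝ) ≤ (b : ℝ) := hXpos.le.trans hb.1
    have ha1 : 0 ≤ a := by exact_mod_cast ha0
    have hb1 : 0 ≤ b := by exact_mod_cast hb0
    omega
  have hRmem : ∀ n ∈ R, X ≤ n ∧ (n : ℝ) + F ≤ X + X ∧ ∀ k : ℕ, 1 ≤ k → (k : ℝ) ≤ F →
      ∃ p : ℕ, p.Prime ∧ (p : ℝ) ≤ y ∧ (p : ℤ) ∣ (n : ℤ) + k := by
    intro n hn
    rw [hR, Finset.mem_image] at hn
    obtain ⟨a, ha, rfl⟩ := hn
    rw [Set.Finite.mem_toFinset] at ha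
    have ha0 : (0 : ℝ) ≤ (a : ℝ) := hXpos.le.trans ha.1
    have ha1 : 0 ≤ a := by exact_mod_cast ha0
    have ha2 : ((a.toNat : ℕ) : ℤ) = a := Int.toNat_of_nonneg ha1
    have ha3 : ((a.toNat : ℕ) : ℝ) = a := by exact_mod_cast ha2
    refine ⟨?_, ?_, ?_⟩
    · have := ha.1
      rw [← ha3] at this
      exact_mod_cast this
    · rw [ha3]; exact ha.2.1
    · rw [ha2]; exact ha.2.2
  set G : Finset ℕ := (Finset.Ioc X (2 * X)).filter (fun q : ℕ =>
    (4 : ℝ) ^ (-(4 + 2 / c)) * q ≤ (q.totient : ℝ) ∧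
      ∀ p : ℕ, p.Prime → c * ((Real.log X + 1) * Real.log (T + 1)) < |(p : ℝ) - q|) with hG
  refine ⟨G, ?_, ?_⟩
  · have h1 : (R.card : ℝ) / 2 ≤ G.card := by
      apply double_count L hLpos (2 / c) R G
      · intro n hn
        obtain ⟨h1, h2, h3⟩ := hRmem n hn
        have h4 : ((n + L + L : ℕ) : ℝ) ≤ 2 * X := by
          push_cast at hL3 ⊢
          have : (0 : ℝ) ≤ L := Nat.cast_nonneg _
          linarith
        have hpos : (0 : ℝ) < ((n + L + L : ℕ) : ℝ) := by
          exact_mod_cast (by omega : 0 < n + L + L)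
        have h5 : Real.log ((n + L + L : ℕ) : ℝ) ≤ Real.log 2 + Real.log X := by
          rw [← Real.log_mul (by norm_num) hXpos.ne']
          exact Real.log_le_log hpos h4
        have hlog2 : 0.6931471803 < Real.log 2 := Real.log_two_gt_d9
        have hlog2' : Real.log 2 < 0.6931471808 := Real.log_two_lt_d9
        rw [div_le_iff₀ (by linarith)]
        have h6 : (Real.log X + 1) ≤ L / c := by
          rw [le_div_iff₀ hc]; linarith
        have h7 : 2 / c * L * Real.log 2 = 2 * Real.log 2 * (L / c) := by ring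
        rw [h7]
        have h8 : 1 * (Real.log X + 1) ≤ 2 * Real.log 2 * (L / c) := by
          gcongr
          linarith
        linarith
      · intro n hn q hq hφ
        obtain ⟨h1, h2, h3⟩ := hRmem n hn
        rw [hG, Finset.mem_filter, Finset.mem_Ioc]
        have hq' := Finset.mem_Ioc.mp hq
        refine ⟨⟨by omega, ?_⟩, hφ, ?_⟩
        · have h4 : ((q : ℕ) : ℝ) ≤ 2 * X := by
            have h5 : (q : ℝ) ≤ ((n + L + L : ℕ) : ℝ) := by exact_mod_cast hq'.2
            push_cast at h5 hL3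
            have : (0 : ℝ) ≤ L := Nat.cast_nonneg _
            linarith
          exact_mod_cast h4
        · intro p hp
          refine lt_trans hLgt2 (no_prime X n L q y hyX h1 ?_ hq p hp)
          intro k hk1 hk2
          apply h3 k hk1
          refine le_trans ?_ hL3
          exact_mod_cast hk2
    refine le_trans ?_ h1
    rw [hRcard]
    exact div_le_div_of_nonneg_right hrs (by norm_num)
  · intro q hq
    rw [hG, Finset.mem_filter, Finset.mem_Ioc] at hq
    exact ⟨hq.1.1, hq.1.2, hq.2.1, hq.2.2⟩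

end Pool.Agent.H99.KG
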