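import Mathlib

set_option autoImplicit false

/-! # Half of the integers of an interval of length at least `log X` satisfy `φ(q) ≥ c q` -/

namespace Pool.Agent.H99.KG

open Finset

/-- sum of the reciprocals of the prime factors -/
noncomputable def SS (q : ℕ) : ℝ := ∑ p ∈ q.primeFactors, (1 : ℝ) / p

lemma one_sub_ge (x : ℝ) (h0 : 0 ≤ x) (h1 : x ≤ 1 / 2) : (4 : ℝ) ^ (-x) ≤ 1 - x := by
  -- convexity of `4 ^ (-x)` between `0` and `1/2`
  have hconv : ConvexOn ℝ Set.univ (fun t : ℝ => Real.exp t) := convexOn_exp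
  have h := hconv.2 (Set.mem_univ (0 : ℝ)) (Set.mem_univ (-Real.log 2))
    (show (0 : ℝ) ≤ 1 - 2 * x by linarith) (show (0 : ℝ) ≤ 2 * x by linarith) (by ring)
  simp only [smul_eq_mul, mul_zero, zero_add, Real.exp_zero, mul_one] at h
  rw [Real.exp_neg, Real.exp_log (by norm_num : (0 : ℝ) < 2)] at h
  have e : (4 : ℝ) ^ (-x) = Real.exp (2 * x * -Real.log 2) := by
    rw [Real.rpow_def_of_pos (by norm_num)]
    congr 1
    have : Real.log 4 = 2 * Real.log 2 := by
      rw [show (4 : ℝ) = 2 ^ 2 by norm_num, Real.log_pow]; norm_num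
    rw [this]; ring
  rw [e]
  refine h.trans ?_
  linarith

lemma totient_ge (q : ℕ) : (4 : ℝ) ^ (-(SS q)) * q ≤ q.totient := by
  have h1 : ((q.totient : ℕ) : ℝ) = q * ∏ p ∈ q.primeFactors, (1 - (p : ℝ)⁻¹) := by
    have := Nat.totient_eq_mul_prod_factors q
    have h2 : (((q.totient : ℕ) : ℚ) : ℝ) = ((q * ∏ p ∈ q.primeFactors, (1 - (p : ℚ)⁻¹) : ℚ) : ℝ) := by
      rw [this]
    push_cast at h2
    exact h2
  rw [h1, mul_comm]
  apply mul_le_mul_of_nonneg_left _ (Nat.cast_nonneg _)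
  have h2 : (4 : ℝ) ^ (-(SS q)) = ∏ p ∈ q.primeFactors, (4 : ℝ) ^ (-((1 : ℝ) / p)) := by
    unfold SS
    rw [← Finset.sum_neg_distrib, Real.rpow_sum_of_pos (by norm_num)]
  rw [h2]
  apply Finset.prod_le_prod
  · intro p _; positivity
  · intro p hp
    have hp2 : (2 : ℝ) ≤ p := by exact_mod_cast (Nat.prime_of_mem_primeFactors hp).two_le
    have := one_sub_ge ((1 : ℝ) / p) (by positivity) (by
      apply one_div_le_one_div_of_le (by norm_num) hp2)
    rw [one_div] at this ⊢
    exact this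

/-- the part of the sum from the primes up to `L` -/
noncomputable def SL (L q : ℕ) : ℝ := ∑ p ∈ q.primeFactors with p ≤ L, (1 : ℝ) / p

lemma two_pow_omega (q : ℕ) (hq : 0 < q) : 2 ^ q.primeFactors.card ≤ q := by
  calc 2 ^ q.primeFactors.card ≤ ∏ p ∈ q.primeFactors, p :=
        Finset.pow_card_le_prod _ _ _ fun p hp => (Nat.prime_of_mem_primeFactors hp).two_le
    _ ≤ q := Nat.le_of_dvd hq (Nat.prod_primeFactors_dvd q)

lemma SS_le (L q : ℕ) (hL : 0 < L) (hq : 0 < q) (κ : ℝ)
    (hκ : Real.log q / Real.log 2 ≤ κ * L) : SS q ≤ SL L q + κ := by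
  have hLr : (0 : ℝ) < L := by exact_mod_cast hL
  have h1 : SS q = SL L q + ∑ p ∈ q.primeFactors with ¬ p ≤ L, (1 : ℝ) / p := by
    unfold SS SL
    rw [Finset.sum_filter_add_sum_filter_not]
  rw [h1]
  apply add_le_add_right
  have h2 : ∑ p ∈ q.primeFactors with ¬ p ≤ L, (1 : ℝ) / p ≤
      ∑ p ∈ q.primeFactors with ¬ p ≤ L, (1 : ℝ) / L := by
    apply Finset.sum_le_sum
    intro p hp
    rw [Finset.mem_filter, not_le] at hp
    apply one_div_le_one_div_of_le hLr
    exact_mod_cast hp.2.le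
  refine h2.trans ?_
  rw [Finset.sum_const, nsmul_eq_mul, mul_one_div, div_le_iff₀ hLr]
  have h3 : ((q.primeFactors.filter (fun p => ¬ p ≤ L)).card : ℝ) ≤ q.primeFactors.card := by
    exact_mod_cast Finset.card_filter_le _ _
  have h4 : (q.primeFactors.card : ℝ) ≤ Real.log q / Real.log 2 := by
    rw [le_div_iff₀ (Real.log_pos (by norm_num)), ← Real.log_pow]
    apply Real.log_le_log (by positivity)
    exact_mod_cast two_pow_omega q hq
  linarith

lemma sum_inv_sq (L : ℕ) : ∑ k ∈ Finset.Icc 2 L, (1 : ℝ) / (k : ℝ) ^ 2 ≤ 1 := by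
  have h : ∀ L : ℕ, 1 ≤ L → ∑ k ∈ Finset.Icc 2 L, (1 : ℝ) / (k : ℝ) ^ 2 ≤ 1 - 1 / L := by
    intro L hL
    induction L, hL using Nat.le_induction with
    | base => simp
    | succ n hn ih =>
      rw [Finset.sum_Icc_succ_top (by omega)]
      have hn0 : (0 : ℝ) < n := by exact_mod_cast hn
      have : (1 : ℝ) / ((n + 1 : ℕ) : ℝ) ^ 2 ≤ 1 / n - 1 / ((n + 1 : ℕ) : ℝ) := by
        push_cast
        rw [div_sub_div _ _ hn0.ne' (by positivity), div_le_div_iff₀ (by positivity) (by positivity)]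
        nlinarith
      linarith
  rcases Nat.eq_zero_or_pos L with rfl | hL
  · simp
  · have := h L hL
    have h2 : (0 : ℝ) < 1 / L := by positivity
    linarith

lemma multiples_card (y L p : ℕ) (hp : 0 < p) (hpL : p ≤ L) :
    (((Finset.Ioc y (y + L)).filter (fun q => p ∣ q)).card : ℝ) ≤ 2 * L / p := by
  have hpr : (0 : ℝ) < p := by exact_mod_cast hp
  have h1 : ((Finset.Ioc 0 (y + L)).filter (fun q => p ∣ q)).card =
      ((Finset.Ioc 0 y).filter (fun q => p ∣ q)).card +
        ((Finset.Ioc y (y + L)).filter (fun q => p ∣ q)).card := by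
    rw [← Finset.card_union_of_disjoint]
    · congr 1
      rw [← Finset.filter_union, Finset.Ioc_union_Ioc_eq_Ioc (Nat.zero_le _) (by omega)]
    · rw [Finset.disjoint_left]
      intro a ha hb
      rw [Finset.mem_filter, Finset.mem_Ioc] at ha hb
      omega
  rw [Nat.Ioc_filter_dvd_card_eq_div, Nat.Ioc_filter_dvd_card_eq_div] at h1
  have h2 : (y + L) / p ≤ y / p + L / p + 1 := by
    rw [Nat.div_le_iff_le_mul_add_pred hp]
    have a1 := Nat.div_add_mod y p
    have a2 := Nat.div_add_mod L p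
    have a3 := Nat.mod_lt y hp
    have a4 := Nat.mod_lt L hp
    have : p * (y / p + L / p + 1) = p * (y / p) + p * (L / p) + p := by ring
    omega
  have h3 : ((Finset.Ioc y (y + L)).filter (fun q => p ∣ q)).card ≤ L / p + 1 := by omega
  have h4 : 1 ≤ L / p := (Nat.one_le_div_iff hp).mpr hpL
  have h5 : ((L / p : ℕ) : ℝ) ≤ (L : ℝ) / p := Nat.cast_div_le
  calc (((Finset.Ioc y (y + L)).filter (fun q => p ∣ q)).card : ℝ) ≤ ((L / p + 1 : ℕ) : ℝ) := by
        exact_mod_cast h3
    _ ≤ ((L / p : ℕ) : ℝ) + (L / p : ℕ) := by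
        push_cast
        have : (1 : ℝ) ≤ ((L / p : ℕ) : ℝ) := by exact_mod_cast h4
        linarith
    _ ≤ (L : ℝ) / p + (L : ℝ) / p := by linarith
    _ = _ := by ring

lemma sum_SL (y L : ℕ) : ∑ q ∈ Finset.Ioc y (y + L), SL L q ≤ 2 * L := by
  have h1 : ∑ q ∈ Finset.Ioc y (y + L), SL L q ≤
      ∑ q ∈ Finset.Ioc y (y + L), ∑ k ∈ Finset.Icc 2 L, if k ∣ q then (1 : ℝ) / k else 0 := by
    apply Finset.sum_le_sum
    intro q _
    unfold SL
    rw [← Finset.sum_filter]
    apply Finset.sum_le_sum_of_subset_of_nonneg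
    · intro p hp
      rw [Finset.mem_filter] at hp
      rw [Finset.mem_filter, Finset.mem_Icc]
      exact ⟨⟨(Nat.prime_of_mem_primeFactors hp.1).two_le, hp.2⟩,
        Nat.dvd_of_mem_primeFactors hp.1⟩
    · intro k _ _; positivity
  rw [Finset.sum_comm] at h1
  refine h1.trans ?_
  have h2 : ∀ k ∈ Finset.Icc 2 L, ∑ q ∈ Finset.Ioc y (y + L), (if k ∣ q then (1 : ℝ) / k else 0) ≤
      2 * L * (1 / (k : ℝ) ^ 2) := by
    intro k hk
    rw [Finset.mem_Icc] at hk
    have hk0 : (0 : ℝ) < k := by exact_mod_cast (by omega : 0 < k)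
    rw [← Finset.sum_filter, Finset.sum_const, nsmul_eq_mul]
    have := multiples_card y L k (by omega) hk.2
    calc _ ≤ (2 * L / k) * (1 / (k : ℝ)) := by gcongr
      _ = _ := by field_simp
  refine (Finset.sum_le_sum h2).trans ?_
  rw [← Finset.mul_sum]
  have := sum_inv_sq L
  have hL : (0 : ℝ) ≤ 2 * L := by positivity
  nlinarith

/-- At least half of the integers of `(y, y + L]` satisfy `φ(q) ≥ 4^(-(4 + κ)) q`, if
`log₂ q ≤ κ L` for them. -/
lemma half_good (y L : ℕ) (hL : 0 < L) (κ : ℝ)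
    (hκ : Real.log ((y + L : ℕ) : ℝ) / Real.log 2 ≤ κ * L) :
    (L : ℝ) / 2 ≤ (((Finset.Ioc y (y + L)).filter
      (fun q : ℕ => (4 : ℝ) ^ (-(4 + κ)) * (q : ℝ) ≤ (q.totient : ℝ))).card : ℝ) := by
  classical
  set I := Finset.Ioc y (y + L) with hI
  set B := I.filter (fun q : ℕ => ¬ (4 : ℝ) ^ (-(4 + κ)) * (q : ℝ) ≤ (q.totient : ℝ)) with hB
  have hbad : ∀ q ∈ B, 4 ≤ SL L q := by
    intro q hq
    rw [hB, Finset.mem_filter] at hq
    by_contra hlt
    rw [not_le] at hlt
    apply hq.2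
    have hqI := Finset.mem_Ioc.mp hq.1
    have hq0 : 0 < q := by omega
    have hl2 : 0 < Real.log 2 := Real.log_pos (by norm_num)
    have h1 : SS q ≤ SL L q + κ := by
      apply SS_le L q hL hq0
      refine le_trans ?_ hκ
      apply div_le_div_of_nonneg_right _ hl2.le
      apply Real.log_le_log (by exact_mod_cast hq0)
      exact_mod_cast hqI.2
    refine le_trans ?_ (totient_ge q)
    apply mul_le_mul_of_nonneg_right _ (Nat.cast_nonneg _)
    apply Real.rpow_le_rpow_of_exponent_le (by norm_num)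
    linarith
  have h1 : 4 * (B.card : ℝ) ≤ 2 * L := by
    calc 4 * (B.card : ℝ) = ∑ q ∈ B, (4 : ℝ) := by rw [Finset.sum_const, nsmul_eq_mul]; ring
      _ ≤ ∑ q ∈ B, SL L q := Finset.sum_le_sum hbad
      _ ≤ ∑ q ∈ I, SL L q := by
          apply Finset.sum_le_sum_of_subset_of_nonneg (Finset.filter_subset _ _)
          intro q _ _
          unfold SL
          positivity
      _ ≤ 2 * L := sum_SL y L
  have h2 : (I.filter (fun q : ℕ => (4 : ℝ) ^ (-(4 + κ)) * (q : ℝ) ≤ (q.totient : ℝ))).card + B.card = L := by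
    rw [hB, Finset.card_filter_add_card_filter_not, hI, Nat.card_Ioc]
    omega
  have h3 : ((I.filter (fun q : ℕ => (4 : ℝ) ^ (-(4 + κ)) * (q : ℝ) ≤ (q.totient : ℝ))).card : ℝ) + B.card = L := by
    exact_mod_cast h2
  linarith

/-- double counting: starting points of runs and good integers in the middle of the runs -/
lemma double_count (L : ℕ) (hL : 0 < L) (κ : ℝ) (R G : Finset ℕ)
    (hκ : ∀ n ∈ R, Real.log ((n + L + L : ℕ) : ℝ) / Real.log 2 ≤ κ * L)
    (hG : ∀ n ∈ R, ∀ q ∈ Finset.Ioc (n + L) (n + L + L),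
      (4 : ℝ) ^ (-(4 + κ)) * (q : ℝ) ≤ (q.totient : ℝ) → q ∈ G) :
    (R.card : ℝ) / 2 ≤ G.card := by
  classical
  have hLr : (0 : ℝ) < L := by exact_mod_cast hL
  set T : Finset (ℕ × ℕ) := (R ×ˢ G).filter (fun x => x.1 + L < x.2 ∧ x.2 ≤ x.1 + L + L) with hT
  have h1 : (R.card : ℝ) * (L / 2) ≤ T.card := by
    have e : (T.card : ℝ) = ∑ n ∈ R, ((T.filter (fun x => x.1 = n)).card : ℝ) := by
      have := Finset.card_eq_sum_card_fiberwise (f := fun x : ℕ × ℕ => x.1) (s := T) (t := R)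
        (fun x hx => by
          rw [hT, Finset.mem_coe, Finset.mem_filter, Finset.mem_product] at hx
          exact hx.1.1)
      exact_mod_cast this
    rw [e, ← nsmul_eq_mul, ← Finset.sum_const]
    apply Finset.sum_le_sum
    intro n hn
    refine (half_good (n + L) L hL κ (hκ n hn)).trans ?_
    have : ((Finset.Ioc (n + L) (n + L + L)).filter
        (fun q : ℕ => (4 : ℝ) ^ (-(4 + κ)) * (q : ℝ) ≤ (q.totient : ℝ))).card ≤
        (T.filter (fun x => x.1 = n)).card := by
      apply Finset.card_le_card_of_injOn (fun q => (n, q))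
      · intro q hq
        rw [Finset.mem_coe, Finset.mem_filter] at hq
        rw [Finset.mem_coe, Finset.mem_filter, hT, Finset.mem_filter, Finset.mem_product]
        exact ⟨⟨⟨hn, hG n hn q hq.1 hq.2⟩, Finset.mem_Ioc.mp hq.1⟩, rfl⟩
      · intro a _ b _ hab
        exact (Prod.ext_iff.mp hab).2
    exact_mod_cast this
  have h2 : (T.card : ℝ) ≤ G.card * L := by
    have e : (T.card : ℝ) = ∑ q ∈ G, ((T.filter (fun x => x.2 = q)).card : ℝ) := by
      have := Finset.card_eq_sum_card_fiberwise (f := fun x : ℕ × ℕ => x.2) (s := T) (t := G)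
        (fun x hx => by
          rw [hT, Finset.mem_coe, Finset.mem_filter, Finset.mem_product] at hx
          exact hx.1.2)
      exact_mod_cast this
    rw [e, ← nsmul_eq_mul, ← Finset.sum_const]
    apply Finset.sum_le_sum
    intro q _
    have : (T.filter (fun x => x.2 = q)).card ≤ (Finset.Ico (q - L - L) (q - L)).card := by
      apply Finset.card_le_card_of_injOn (fun x => x.1)
      · intro x hx
        rw [Finset.mem_coe, Finset.mem_filter, hT, Finset.mem_filter] at hx
        rw [Finset.mem_coe, Finset.mem_Ico]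
        have := hx.2
        have := hx.1.2
        simp only
        omega
      · intro a ha b hb hab
        rw [Finset.mem_coe, Finset.mem_filter] at ha hb
        exact Prod.ext hab (ha.2.trans hb.2.symm)
    have h3 : (Finset.Ico (q - L - L) (q - L)).card ≤ L := by
      rw [Nat.card_Ico]; omega
    exact_mod_cast this.trans h3
  have h3 : (R.card : ℝ) * (L / 2) ≤ G.card * L := h1.trans h2
  have h4 : (R.card : ℝ) / 2 * L ≤ G.card * L := by linarith
  exact le_of_mul_le_mul_right h4 hLr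

end Pool.Agent.H99.KG
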