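import Pool.Agent.H99.KG.Gen
import Pool.Agent.H99.KG.Phi

set_option autoImplicit false

/-! # The gaps at the denominators of the convergents of almost every real number -/

namespace Pool.Agent.H99.KG

open Finset Filter MeasureTheory Topology
open Pool.Agent.H480R2.PW (Nx nx_dyadic)

/-- from good approximations to convergents -/
lemma to_convergents (x : ℝ) (Q : ℕ → Prop)
    (h : {q : ℕ | 0 < q ∧ Q q ∧ ∃ a : ℤ, Int.gcd a q = 1 ∧
      |x - a / q| < 1 / (2 * ((q : ℝ) + 1)) / q}.Infinite) :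
    {n : ℕ | Q (x.convergent n).den}.Infinite := by
  intro hfin
  apply h
  apply (hfin.image (fun n => (x.convergent n).den)).subset
  rintro q ⟨hq0, hq1, a, ha1, ha2⟩
  have hqr : (0 : ℝ) < q := by exact_mod_cast hq0
  set r : ℚ := (a : ℚ) / (q : ℚ) with hr
  have hden : r.den = q := by
    rw [hr]
    have h2 : ((a : ℚ) / ((q : ℤ) : ℚ)).den = (q : ℤ) := Rat.den_div_eq_of_coprime
      (by exact_mod_cast hq0) (by simpa [Int.gcd] using ha1)
    push_cast at h2
    exact_mod_cast h2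
  have hrr : ((r : ℚ) : ℝ) = a / q := by rw [hr]; push_cast; ring
  have hlt : |x - r| < 1 / (2 * (r.den : ℝ) ^ 2) := by
    rw [hrr, hden]
    refine ha2.trans ?_
    rw [div_div]
    apply one_div_lt_one_div_of_lt (by positivity)
    nlinarith
  obtain ⟨n, hn⟩ := Real.exists_rat_eq_convergent hlt
  refine ⟨n, ?_, ?_⟩
  · show Q (x.convergent n).den
    rw [← hn, hden]; exact hq1
  · show (x.convergent n).den = q
    rw [← hn, hden]

lemma sum_SS (N : ℕ) : ∑ q ∈ Finset.Ioc 0 N, SS q ≤ N := by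
  have h1 : ∑ q ∈ Finset.Ioc 0 N, SS q ≤
      ∑ q ∈ Finset.Ioc 0 N, ∑ k ∈ Finset.Icc 2 N, if k ∣ q then (1 : ℝ) / k else 0 := by
    apply Finset.sum_le_sum
    intro q hq
    rw [Finset.mem_Ioc] at hq
    unfold SS
    rw [← Finset.sum_filter]
    apply Finset.sum_le_sum_of_subset_of_nonneg
    · intro p hp
      have hd := Nat.dvd_of_mem_primeFactors hp
      rw [Finset.mem_filter, Finset.mem_Icc]
      exact ⟨⟨(Nat.prime_of_mem_primeFactors hp).two_le, (Nat.le_of_dvd hq.1 hd).trans hq.2⟩, hd⟩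
    · intro k _ _; positivity
  rw [Finset.sum_comm] at h1
  refine h1.trans ?_
  have h2 : ∀ k ∈ Finset.Icc 2 N, ∑ q ∈ Finset.Ioc 0 N, (if k ∣ q then (1 : ℝ) / k else 0) ≤
      N * (1 / (k : ℝ) ^ 2) := by
    intro k hk
    rw [Finset.mem_Icc] at hk
    have hk0 : (0 : ℝ) < k := by exact_mod_cast (by omega : 0 < k)
    rw [← Finset.sum_filter, Finset.sum_const, nsmul_eq_mul, Nat.Ioc_filter_dvd_card_eq_div]
    have h5 : ((N / k : ℕ) : ℝ) ≤ (N : ℝ) / k := Nat.cast_div_le
    calc _ ≤ ((N : ℝ) / k) * (1 / (k : ℝ)) := by gcongr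
      _ = _ := by field_simp
  refine (Finset.sum_le_sum h2).trans ?_
  rw [← Finset.mul_sum]
  have := sum_inv_sq N
  have hN : (0 : ℝ) ≤ N := by positivity
  nlinarith

/-- few integers have a large sum of the reciprocals of the prime factors -/
lemma few_bad (M : ℝ) (hM : 0 < M) (N : ℕ) :
    (((Finset.Ioc 0 N).filter (fun q : ℕ => ¬ (4 : ℝ) ^ (-M) * (q : ℝ) ≤ (q.totient : ℝ))).card : ℝ) ≤
      N / M := by
  rw [le_div_iff₀ hM]
  set B := (Finset.Ioc 0 N).filter (fun q : ℕ => ¬ (4 : ℝ) ^ (-M) * (q : ℝ) ≤ (q.totient : ℝ)) with hB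
  calc (B.card : ℝ) * M = ∑ q ∈ B, M := by rw [Finset.sum_const, nsmul_eq_mul]
    _ ≤ ∑ q ∈ B, SS q := by
        apply Finset.sum_le_sum
        intro q hq
        rw [hB, Finset.mem_filter] at hq
        by_contra hlt
        rw [not_le] at hlt
        apply hq.2
        refine le_trans ?_ (totient_ge q)
        apply mul_le_mul_of_nonneg_right _ (Nat.cast_nonneg _)
        apply Real.rpow_le_rpow_of_exponent_le (by norm_num)
        linarith
    _ ≤ ∑ q ∈ Finset.Ioc 0 N, SS q := by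
        apply Finset.sum_le_sum_of_subset_of_nonneg (Finset.filter_subset _ _)
        intro q _ _
        unfold SS
        positivity
    _ ≤ N := sum_SS N

theorem nx_good (a b C : ℝ) (ha : 0 ≤ a) (hab : a < b) (hC : 0 ≤ C) :
    ∃ c₀ ε : ℝ, 0 < c₀ ∧ 0 < ε ∧ ∀ᶠ Y : ℝ in atTop, ∃ G : Finset ℕ, G.Nonempty ∧
      ∀ q ∈ G, Y - 1 ≤ q ∧ c₀ * q ≤ (q.totient : ℝ) ∧ Nx a b C q ∧ ε * q ≤ G.card := by
  classical
  set d : ℝ := (b - a) / 3 with hd
  have hd0 : 0 < d := by rw [hd]; linarith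
  obtain ⟨c1, hc1, hc11, Y₀, hY₀⟩ := nx_dyadic (a + d) (b - d) (C + 1) (by linarith)
    (by rw [hd]; linarith) (by linarith)
  refine ⟨(4 : ℝ) ^ (-(8 / c1)), c1 / 8, by positivity, by positivity, ?_⟩
  have hlog : ∀ᶠ Y : ℝ in atTop, max 1 ((1 + b) / d) ≤ Real.log (Y - 1) := by
    have h1 : Tendsto (fun Y : ℝ => Y - 1) atTop atTop := tendsto_atTop_add_const_right _ _ tendsto_id
    exact (Real.tendsto_log_atTop.comp h1).eventually_ge_atTop _
  filter_upwards [eventually_ge_atTop Y₀, hlog, eventually_ge_atTop 2] with Y h1 h2 h3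
  have hl1 : 1 ≤ Real.log (Y - 1) := (le_max_left _ _).trans h2
  have hl2 : (1 + b) / d ≤ Real.log (Y - 1) := (le_max_right _ _).trans h2
  set S : Set ℝ := Set.Ico Y (4 * Y) ∩ {y | Nx (a + d) (b - d) (C + 1) y} with hS
  have hvol := hY₀ Y h1
  set N : ℕ := ⌊4 * Y⌋₊ with hN
  have hNle : (N : ℝ) ≤ 4 * Y := Nat.floor_le (by linarith)
  set Q : Finset ℕ := (Finset.Ioc 0 N).filter (fun q => ∃ y ∈ S, ⌊y⌋₊ = q) with hQ
  have hcover : S ⊆ ⋃ q ∈ Q, Set.Ico (q : ℝ) (q + 1) := by
    intro y hy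
    rw [Set.mem_iUnion₂]
    have hy1 : Y ≤ y := hy.1.1
    refine ⟨⌊y⌋₊, ?_, Nat.floor_le (by linarith), Nat.lt_floor_add_one y⟩
    rw [hQ, Finset.mem_filter, Finset.mem_Ioc]
    refine ⟨⟨Nat.floor_pos.mpr (by linarith), ?_⟩, y, hy, rfl⟩
    exact Nat.floor_le_floor hy.1.2.le
  have hQcard : c1 * Y ≤ Q.card := by
    have h4 : volume S ≤ ∑ q ∈ Q, volume (Set.Ico (q : ℝ) (q + 1)) :=
      (measure_mono hcover).trans (measure_biUnion_finset_le _ _)
    have h5 : ∑ q ∈ Q, volume (Set.Ico (q : ℝ) (q + 1)) = ENNReal.ofReal Q.card := by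
      simp [Real.volume_Ico]
    rw [h5] at h4
    have h6 := hvol.trans h4
    rwa [ENNReal.ofReal_le_ofReal_iff (Nat.cast_nonneg _)] at h6
  -- the good integers
  set G : Finset ℕ := Q.filter (fun q : ℕ => (4 : ℝ) ^ (-(8 / c1)) * (q : ℝ) ≤ (q.totient : ℝ)) with hG
  have hGcard : c1 / 2 * Y ≤ G.card := by
    have h4 := few_bad (8 / c1) (by positivity) N
    have h5 : Q.card ≤ G.card + ((Finset.Ioc 0 N).filter
        (fun q : ℕ => ¬ (4 : ℝ) ^ (-(8 / c1)) * (q : ℝ) ≤ (q.totient : ℝ))).card := by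
      rw [hG, ← Finset.card_filter_add_card_filter_not (s := Q)
        (fun q : ℕ => (4 : ℝ) ^ (-(8 / c1)) * (q : ℝ) ≤ (q.totient : ℝ))]
      apply Nat.add_le_add_left
      apply Finset.card_le_card
      intro q hq
      rw [Finset.mem_filter] at hq ⊢
      rw [hQ, Finset.mem_filter] at hq
      exact ⟨hq.1.1, hq.2⟩
    have h6 : (Q.card : ℝ) ≤ G.card + ((Finset.Ioc 0 N).filter
        (fun q : ℕ => ¬ (4 : ℝ) ^ (-(8 / c1)) * (q : ℝ) ≤ (q.totient : ℝ))).card := by
      exact_mod_cast h5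
    have h7 : (N : ℝ) / (8 / c1) ≤ c1 / 2 * Y := by
      rw [div_div_eq_mul_div, div_le_iff₀ (by norm_num)]
      nlinarith
    linarith
  have hGpos : (0 : ℝ) < G.card := lt_of_lt_of_le (by positivity) hGcard
  refine ⟨G, Finset.card_pos.mp (by exact_mod_cast hGpos), ?_⟩
  intro q hq
  rw [hG, Finset.mem_filter, hQ, Finset.mem_filter, Finset.mem_Ioc] at hq
  obtain ⟨⟨⟨hq0, hqN⟩, y, hy, hyq⟩, hφ⟩ := hq
  have hy1 : Y ≤ y := hy.1.1
  have hq1 : (q : ℝ) ≤ y := by rw [← hyq]; exact Nat.floor_le (by linarith)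
  have hq2 : y < q + 1 := by rw [← hyq]; exact Nat.lt_floor_add_one y
  have hqr : (0 : ℝ) < q := by exact_mod_cast hq0
  have hlq : Real.log (Y - 1) ≤ Real.log q := Real.log_le_log (by linarith) (by linarith)
  have hlqy : Real.log q ≤ Real.log y := Real.log_le_log hqr hq1
  have hlyq : Real.log y ≤ Real.log q + 1 := by
    have h4 : Real.log y ≤ Real.log (q * Real.exp 1) := by
      apply Real.log_le_log (by linarith)
      have := Real.add_one_le_exp (1 : ℝ)
      have hq1' : (1 : ℝ) ≤ q := by exact_mod_cast hq0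
      nlinarith
    rw [Real.log_mul hqr.ne' (Real.exp_pos 1).ne', Real.log_exp] at h4
    exact h4
  refine ⟨by linarith, hφ, ⟨?_, ?_⟩, ?_⟩
  · intro p hp hple
    have h4 : (p : ℝ) ≤ y + (a + d) * Real.log y := by
      have h5 : a * Real.log q ≤ (a + d) * Real.log y := by
        apply mul_le_mul _ hlqy (by linarith) (by linarith)
        linarith
      linarith
    have h5 := hy.2.1 p hp h4
    have h6 : C * Real.log q ≤ C * Real.log y := mul_le_mul_of_nonneg_left hlqy hC
    have h7 : (C + 1) * Real.log y = C * Real.log y + Real.log y := by ring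
    rw [h7] at h5
    linarith
  · obtain ⟨p, hp, h4, h5⟩ := hy.2.2
    refine ⟨p, hp, ?_, ?_⟩
    · have h6 : a * Real.log q ≤ (a + d) * Real.log y := by
        apply mul_le_mul _ hlqy (by linarith) (by linarith)
        linarith
      linarith
    · have hbd : 0 ≤ b - d := by rw [hd]; linarith
      have h6 : (b - d) * Real.log y ≤ (b - d) * (Real.log q + 1) :=
        mul_le_mul_of_nonneg_left hlyq hbd
      have h7 : 1 + b ≤ d * Real.log q := by
        rw [div_le_iff₀ hd0] at hl2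
        have : Real.log (Y - 1) * d ≤ Real.log q * d := mul_le_mul_of_nonneg_right hlq hd0.le
        linarith
      have h8 : (b - d) * (Real.log q + 1) = b * Real.log q + b - d * Real.log q - d := by ring
      linarith
  · have h4 : (q : ℝ) ≤ 4 * Y := by
      have : (q : ℝ) ≤ N := by exact_mod_cast hqN
      linarith
    calc c1 / 8 * q ≤ c1 / 8 * (4 * Y) := by gcongr
      _ = c1 / 2 * Y := by ring
      _ ≤ _ := hGcard

theorem nx_conv (a b C : ℝ) (ha : 0 ≤ a) (hab : a < b) (hC : 0 ≤ C) :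
    ∀ᵐ x : ℝ, {n : ℕ | Nx a b C (x.convergent n).den}.Infinite := by
  classical
  obtain ⟨c₀, ε, hc₀, hε, hev⟩ := nx_good a b C ha hab hC
  set 𝒢 : Set ℕ := {q | c₀ * q ≤ (q.totient : ℝ) ∧ Nx a b C q} with h𝒢
  set ψ : ℕ → ℝ := fun q => 1 / (2 * ((q : ℝ) + 1)) with hψ
  have hdiv : ¬ Summable (𝒢.indicator (fun q : ℕ => min (ψ q) (1 / 2))) := by
    intro hs
    obtain ⟨s, hs⟩ := summable_iff_vanishing_norm.mp hs (ε / 4) (by positivity)
    obtain ⟨Y, hY1, hY2⟩ := (hev.and (eventually_gt_atTop (((s.sup id : ℕ) : ℝ) + 2))).exists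
    obtain ⟨G, hG0, hG⟩ := hY1
    have hdisj : Disjoint G s := by
      rw [Finset.disjoint_left]
      intro q ha hb
      have h1 := (hG q ha).1
      have h2 : q ≤ s.sup id := Finset.le_sup (f := id) hb
      have h3 : (q : ℝ) ≤ ((s.sup id : ℕ) : ℝ) := by exact_mod_cast h2
      linarith
    have h1 := hs G hdisj
    have hGc : (0 : ℝ) < G.card := by exact_mod_cast hG0.card_pos
    have h2 : ε / 4 ≤ ∑ q ∈ G, 𝒢.indicator (fun q : ℕ => min (ψ q) (1 / 2)) q := by
      calc ε / 4 = ∑ q ∈ G, ε / (4 * (G.card : ℝ)) := by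
            rw [Finset.sum_const, nsmul_eq_mul]; field_simp
        _ ≤ _ := by
            apply Finset.sum_le_sum
            intro q hq
            obtain ⟨a1, a2, a3, a4⟩ := hG q hq
            rw [Set.indicator_of_mem (show q ∈ 𝒢 from ⟨a2, a3⟩)]
            have hq1 : (1 : ℝ) ≤ q := by
              have : (0 : ℝ) ≤ ((s.sup id : ℕ) : ℝ) := Nat.cast_nonneg _
              linarith
            have h3 : ε / (4 * (G.card : ℝ)) ≤ 1 / (2 * ((q : ℝ) + 1)) := by
              rw [div_le_div_iff₀ (by positivity) (by positivity)]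
              nlinarith
            apply le_min h3
            refine h3.trans ?_
            apply one_div_le_one_div_of_le (by norm_num)
            linarith
    rw [Real.norm_of_nonneg (Finset.sum_nonneg fun q _ => Set.indicator_nonneg
      (fun q _ => le_min (by rw [hψ]; positivity) (by norm_num)) q)] at h1
    linarith
  have := ds_general c₀ hc₀ 𝒢 (fun q hq => hq.1) ψ (fun q => by rw [hψ]; positivity) hdiv
  filter_upwards [this] with x hx
  apply to_convergents x (fun q => Nx a b C q)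
  apply hx.mono
  rintro q ⟨h1, h2, h3⟩
  exact ⟨h1, h2.2, h3⟩

/-- all real parameters at once -/
theorem nx_conv_all : ∀ᵐ x : ℝ, ∀ a b C : ℝ, 0 ≤ a → a < b →
    {n : ℕ | Nx a b C (x.convergent n).den}.Infinite := by
  have h : ∀ r : ℚ × ℚ × ℕ, ∀ᵐ x : ℝ, (0 ≤ (r.1 : ℝ) ∧ (r.1 : ℝ) < r.2.1) →
      {n : ℕ | Nx r.1 r.2.1 r.2.2 (x.convergent n).den}.Infinite := by
    intro r
    by_cases hr : 0 ≤ (r.1 : ℝ) ∧ (r.1 : ℝ) < r.2.1
    · filter_upwards [nx_conv r.1 r.2.1 r.2.2 hr.1 hr.2 (Nat.cast_nonneg _)] with x hx _ using hx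
    · exact Eventually.of_forall fun x h => absurd h hr
  filter_upwards [ae_all_iff.mpr h] with x hx
  intro a b C ha hab
  obtain ⟨r, hr1, hr2⟩ := exists_rat_btwn hab
  obtain ⟨s, hs1, hs2⟩ := exists_rat_btwn hr2
  obtain ⟨m, hm⟩ := exists_nat_ge C
  have h1 := hx (r, s, m) ⟨by linarith, hs1⟩
  simp only at h1
  apply h1.mono
  intro n hn
  have hlog : 0 ≤ Real.log ((x.convergent n).den : ℝ) := Real.log_natCast_nonneg _
  obtain ⟨g1, p, hp, g2, g3⟩ := hn
  refine ⟨?_, p, hp, ?_, ?_⟩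
  · intro p hp hple
    have h4 : a * Real.log ((x.convergent n).den : ℝ) ≤ r * Real.log ((x.convergent n).den : ℝ) :=
      mul_le_mul_of_nonneg_right hr1.le hlog
    have h5 := g1 p hp (by linarith)
    have h6 : C * Real.log ((x.convergent n).den : ℝ) ≤ m * Real.log ((x.convergent n).den : ℝ) :=
      mul_le_mul_of_nonneg_right hm hlog
    linarith
  · have h4 : a * Real.log ((x.convergent n).den : ℝ) ≤ r * Real.log ((x.convergent n).den : ℝ) :=
      mul_le_mul_of_nonneg_right hr1.le hlog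
    linarith
  · have h4 : s * Real.log ((x.convergent n).den : ℝ) ≤ b * Real.log ((x.convergent n).den : ℝ) :=
      mul_le_mul_of_nonneg_right hs2.le hlog
    linarith

/-- prime denominators of convergents -/
theorem prime_conv : ∀ᵐ x : ℝ, ∀ K : ℝ, {n : ℕ | (x.convergent n).den.Prime ∧
    ∀ p : ℕ, p.Prime → (x.convergent n).den < p →
      K * Real.log (x.convergent n).den < (p : ℝ) - (x.convergent n).den}.Infinite := by
  set ψ : ℕ → ℝ := fun q => 1 / (2 * ((q : ℝ) + 1)) with hψ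
  have hanti : Antitone ψ := by
    intro a b hab
    have hab' : (a : ℝ) ≤ b := by exact_mod_cast hab
    have ha0 : (0 : ℝ) ≤ a := Nat.cast_nonneg a
    apply one_div_le_one_div_of_le (by positivity)
    linarith
  have hdiv : ¬ Summable ({p : ℕ | p.Prime}.indicator ψ) := by
    intro hs
    apply not_summable_one_div_on_primes
    have h1 := hs.mul_left 4
    apply Summable.of_nonneg_of_le _ _ h1
    · intro n
      exact Set.indicator_nonneg (fun q _ => by positivity) n
    · intro n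
      by_cases hp : n ∈ {p : ℕ | p.Prime}
      · rw [Set.indicator_of_mem hp, Set.indicator_of_mem hp, hψ]
        simp only
        have hn : (2 : ℝ) ≤ n := by exact_mod_cast (show n.Prime from hp).two_le
        rw [mul_one_div, div_le_div_iff₀ (by positivity) (by positivity)]
        linarith
      · rw [Set.indicator_of_notMem hp, Set.indicator_of_notMem hp, mul_zero]
  have h : ∀ K : ℕ, ∀ᵐ x : ℝ, {n : ℕ | (x.convergent n).den.Prime ∧
      ∀ p : ℕ, p.Prime → (x.convergent n).den < p →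
        K * Real.log (x.convergent n).den < (p : ℝ) - (x.convergent n).den}.Infinite := by
    intro K
    filter_upwards [prime_dens K ψ hanti (fun q => by rw [hψ]; positivity) hdiv] with x hx
    apply to_convergents x (fun q => q.Prime ∧
      ∀ p : ℕ, p.Prime → q < p → K * Real.log q < (p : ℝ) - q)
    apply hx.mono
    rintro q ⟨h1, h2, h3⟩
    exact ⟨h1.pos, ⟨h1, h2⟩, h3⟩
  filter_upwards [ae_all_iff.mpr h] with x hx
  intro K
  obtain ⟨m, hm⟩ := exists_nat_ge K
  apply (hx m).mono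
  rintro n ⟨h1, h2⟩
  refine ⟨h1, fun p hp hlt => lt_of_le_of_lt ?_ (h2 p hp hlt)⟩
  exact mul_le_mul_of_nonneg_right hm (Real.log_natCast_nonneg _)

end Pool.Agent.H99.KG
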