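import Pool.Agent.H99.KG.NT
import Pool.Agent.H99.KG.Thm
import Pool.Graph.R_pool_sql_team_seeded_35f281b4.K7.H61.RF.Main

set_option autoImplicit false

/-! # Denominators in prime-free intervals of record length -/

namespace Pool.Agent.H99.KG

open Finset Filter MeasureTheory Topology
open Pool.Agent.H256R2.SC (ff)

/-- a set of denominators with a divergent sum over the dyadic blocks -/
theorem ds_set (c₀ : ℝ) (hc₀ : 0 < c₀) (𝒢 : Set ℕ) (h𝒢φ : ∀ q ∈ 𝒢, c₀ * q ≤ (q.totient : ℝ))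
    (ψ : ℕ → ℝ) (hψ0 : ∀ q, 0 ≤ ψ q)
    (hrich : ∀ᶠ j : ℕ in atTop, ∃ G : Finset ℕ, G.Nonempty ∧
      ∀ q ∈ G, 2 ^ j < q ∧ q ≤ 2 ^ (j + 1) ∧ q ∈ 𝒢 ∧ 1 ≤ (G.card : ℝ) * ψ q) :
    ∀ᵐ x : ℝ, {q : ℕ | 0 < q ∧ q ∈ 𝒢 ∧
      ∃ a : ℤ, Int.gcd a q = 1 ∧ |x - a / q| < ψ q / q}.Infinite := by
  classical
  set ψ' : ℕ → ℝ := fun q => min (ψ q) (1 / 2) with hψ'
  have hψ'0 : ∀ q, 0 ≤ ψ' q := fun q => le_min (hψ0 q) (by norm_num)
  set δ : ℕ → ℝ := fun q => if q ∈ 𝒢 then ψ' q / q else 0 with hδ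
  have hδ0 : ∀ q, 0 ≤ δ q := by
    intro q
    rw [hδ]
    simp only
    split_ifs
    · exact div_nonneg (hψ'0 q) (Nat.cast_nonneg _)
    · exact le_rfl
  have hδ1 : ∀ n : ℕ, 0 < n → δ n ≤ 1 / (2 * n) := by
    intro n hn
    have hnr : (0 : ℝ) < n := by exact_mod_cast hn
    rw [hδ]
    simp only
    split_ifs
    · rw [div_le_div_iff₀ hnr (by positivity)]
      have : ψ' n ≤ 1 / 2 := min_le_right _ _
      nlinarith
    · positivity
  have hδφ : ∀ n : ℕ, 0 < δ n → c₀ * n ≤ n.totient := by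
    intro n hn
    rw [hδ] at hn
    simp only at hn
    split_ifs at hn with h
    · exact h𝒢φ n h
    · exact absurd hn (lt_irrefl _)
  have hnn : ∀ n : ℕ, 0 ≤ (n : ℝ) * δ n := fun n => mul_nonneg (Nat.cast_nonneg _) (hδ0 n)
  have hδdiv : ¬ Summable (fun n : ℕ => (n : ℝ) * δ n) := by
    intro hs
    obtain ⟨s, hs⟩ := summable_iff_vanishing_norm.mp hs (1 / 4) (by norm_num)
    obtain ⟨j₀, hj₀⟩ := eventually_atTop.mp hrich
    set j := max j₀ (s.sup id) with hj
    obtain ⟨G, hG0, hG⟩ := hj₀ j (le_max_left _ _)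
    have hdisj : Disjoint G s := by
      rw [Finset.disjoint_left]
      intro a ha hb
      have h1 := (hG a ha).1
      have h2 : a ≤ s.sup id := Finset.le_sup (f := id) hb
      have h3 : s.sup id ≤ j := le_max_right _ _
      have h4 : j < 2 ^ j := Nat.lt_two_pow_self
      omega
    have h1 := hs G hdisj
    have hGc : (0 : ℝ) < G.card := by exact_mod_cast hG0.card_pos
    have hG1 : (1 : ℝ) ≤ G.card := by exact_mod_cast hG0.card_pos
    have h2 : (1 : ℝ) / 2 ≤ ∑ n ∈ G, (n : ℝ) * δ n := by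
      calc (1 : ℝ) / 2 = ∑ n ∈ G, 1 / (2 * (G.card : ℝ)) := by
            rw [Finset.sum_const, nsmul_eq_mul]; field_simp
        _ ≤ _ := by
            apply Finset.sum_le_sum
            intro n hn
            obtain ⟨a1, a2, a3, a4⟩ := hG n hn
            have hn0 : (0 : ℝ) < n := by exact_mod_cast (by omega : 0 < n)
            rw [hδ]
            simp only
            rw [if_pos a3, mul_div_cancel₀ _ hn0.ne']
            apply le_min
            · rw [div_le_iff₀ (by positivity)]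
              linarith
            · apply one_div_le_one_div_of_le (by norm_num)
              linarith
    rw [Real.norm_of_nonneg (Finset.sum_nonneg fun n _ => hnn n)] at h1
    linarith
  have hmain := ds_real c₀ hc₀ δ hδ0 hδ1 hδφ hδdiv
  filter_upwards [hmain] with x hx
  apply hx.mono
  rintro q ⟨hq, a, ha1, ha2⟩
  rw [hδ] at ha2
  simp only at ha2
  split_ifs at ha2 with h
  · refine ⟨hq, h, a, ha1, lt_of_lt_of_le ha2 ?_⟩
    exact div_le_div_of_nonneg_right (min_le_left _ _) (Nat.cast_nonneg _)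
  · exact absurd ha2 (not_lt.mpr (abs_nonneg _))

/-- the iterated logarithms are large -/
lemma log_facts (C : ℝ) : ∀ᶠ Y : ℝ in atTop, C ≤ Y ∧ C ≤ Real.log Y ∧ C ≤ Real.log (Real.log Y) ∧
    C ≤ Real.log (Real.log (Real.log Y)) ∧
    C ≤ Real.log (Real.log (Real.log (Real.log Y))) ∧ Real.log Y ^ 3 ≤ Y := by
  have h := Real.tendsto_log_atTop
  have h1 := h.eventually_ge_atTop C
  have h2 := (h.comp h).eventually_ge_atTop C
  have h3 := (h.comp (h.comp h)).eventually_ge_atTop C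
  have h4 := (h.comp (h.comp (h.comp h))).eventually_ge_atTop C
  have h5 : ∀ᶠ Y : ℝ in atTop, Real.log Y ^ 3 ≤ Y := by
    have h6 := (Real.isLittleO_pow_log_id_atTop (n := 3)).def (show (0 : ℝ) < 1 by norm_num)
    filter_upwards [h6, eventually_ge_atTop (1 : ℝ)] with Y hY hY1
    simp only [id, Real.norm_eq_abs, one_mul] at hY
    rw [abs_of_nonneg (by linarith : (0:ℝ) ≤ Y)] at hY
    exact (le_abs_self _).trans hY
  filter_upwards [eventually_ge_atTop C, h1, h2, h3, h4, h5] with Y a1 a2 a3 a4 a5 a6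
  exact ⟨a1, a2, a3, a4, a5, a6⟩

lemma ff_bounds (Y : ℝ) (h1 : 1 ≤ Real.log Y) (h2 : 1 ≤ Real.log (Real.log Y))
    (h3 : 1 ≤ Real.log (Real.log (Real.log Y)))
    (h4 : 1 ≤ Real.log (Real.log (Real.log (Real.log Y)))) (h5 : Real.log Y ^ 3 ≤ Y) :
    Real.log Y ≤ ff Y ∧ ff Y ≤ Real.log Y * Real.log (Real.log Y) ^ 2 ∧ ff Y ≤ Y := by
  set u := Real.log Y with hu
  set l := Real.log u with hl
  set m := Real.log l with hm
  set k := Real.log m with hk
  have e : ff Y = u * l ^ 2 * k / m ^ 2 := rfl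
  have hkm : k ≤ m := by
    have := Real.log_le_sub_one_of_pos (show (0 : ℝ) < m by linarith)
    linarith
  have hml : m ≤ l := by
    have := Real.log_le_sub_one_of_pos (show (0 : ℝ) < l by linarith)
    linarith
  have hlu : l ≤ u := by
    have := Real.log_le_sub_one_of_pos (show (0 : ℝ) < u by linarith)
    linarith
  have hm0 : 0 < m := by linarith
  have a1 : u ≤ ff Y := by
    rw [e, le_div_iff₀ (by positivity)]
    calc u * m ^ 2 ≤ u * l ^ 2 := by gcongr
      _ = u * l ^ 2 * 1 := by ring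
      _ ≤ u * l ^ 2 * k := by gcongr
  have a2 : ff Y ≤ u * l ^ 2 := by
    rw [e, div_le_iff₀ (by positivity)]
    have : k ≤ m ^ 2 := by nlinarith
    gcongr
  refine ⟨a1, a2, ?_⟩
  calc ff Y ≤ u * l ^ 2 := a2
    _ ≤ u * u ^ 2 := by gcongr
    _ = u ^ 3 := by ring
    _ ≤ Y := h5

theorem record_good (B : ℕ) : ∃ c₀ c : ℝ, 0 < c₀ ∧ 0 < c ∧ ∀ᶠ Y : ℝ in atTop, ∀ X : ℕ,
    (X : ℝ) = 2 * Y → ∃ G : Finset ℕ, Y ^ (1 - 1 / (Real.log (Real.log Y)) ^ B : ℝ) / 2 ≤ G.card ∧
      ∀ q ∈ G, X < q ∧ q ≤ 2 * X ∧ c₀ * q ≤ (q.totient : ℝ) ∧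
        ∀ p : ℕ, p.Prime → c * ff Y < |(p : ℝ) - q| := by
  classical
  obtain ⟨c', hc', hfreq⟩ := Pool.Agent.K7.H61.RF.freq 2 B 1 one_pos
  set c1 : ℝ := min c' 1 with hc1
  have hc10 : 0 < c1 := lt_min hc' one_pos
  have hc11 : c1 ≤ 1 := min_le_right _ _
  have hc1' : c1 ≤ c' := min_le_left _ _
  set c : ℝ := c1 / 24 with hc
  have hc0 : 0 < c := by positivity
  refine ⟨(4 : ℝ) ^ (-(4 + 3 / c)), c, by positivity, hc0, ?_⟩
  filter_upwards [hfreq, log_facts (max 4 (96 / c1))] with Y hY hlogs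
  intro X hXY
  obtain ⟨g0, g1, g2, g3, g4, g5⟩ := hlogs
  have hmx4 : (4 : ℝ) ≤ max 4 (96 / c1) := le_max_left _ _
  have hmxc : 96 / c1 ≤ max 4 (96 / c1) := le_max_right _ _
  obtain ⟨b1, b2, b3⟩ := ff_bounds Y (by linarith) (by linarith) (by linarith) (by linarith) g5
  have hff : 96 ≤ c1 * ff Y := by
    have : 96 / c1 ≤ ff Y := by linarith
    rw [div_le_iff₀ hc10] at this
    linarith
  have hff0 : 0 ≤ ff Y := by linarith
  have hY0 : 0 < Y := by linarith
  set R : ℕ := ⌊c1 * ff Y / 4⌋₊ with hR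
  have hRle : (R : ℝ) ≤ c1 * ff Y / 4 := Nat.floor_le (by positivity)
  have hRgt : c1 * ff Y / 4 < R + 1 := Nat.lt_floor_add_one _
  set L : ℕ := R / 3 with hL
  have hL3 : L + L + L ≤ R := by omega
  have hLgt : (R : ℝ) < 3 * L + 3 := by
    have : R < 3 * L + 3 := by omega
    exact_mod_cast this
  have hLc : c * ff Y < L := by
    rw [hc]; linarith
  have hLpos : 0 < L := by
    have : (0 : ℝ) < L := lt_of_le_of_lt (by positivity) hLc
    exact_mod_cast this
  have hLY : 2 * (L : ℝ) ≤ Y := by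
    have : ((L + L + L : ℕ) : ℝ) ≤ R := by exact_mod_cast hL3
    push_cast at this
    have h1 : c1 * ff Y ≤ 1 * ff Y := mul_le_mul_of_nonneg_right hc11 hff0
    linarith
  obtain ⟨𝒢, hcard, h𝒢⟩ := hY (X : ℤ) 0 (Finset.Icc (-(R : ℤ)) R)
    (by
      intro z hz
      rw [Finset.mem_Icc] at hz
      have h1 : |z| ≤ (R : ℤ) := abs_le.mpr hz
      have h2 : |(z : ℝ)| ≤ R := by exact_mod_cast h1
      have h3 : c1 * ff Y ≤ 1 * ff Y := mul_le_mul_of_nonneg_right hc11 hff0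
      linarith)
    (by
      rw [Int.card_Icc]
      have e : (((R : ℤ) + 1 - -(R : ℤ)).toNat : ℝ) = 2 * R + 1 := by
        have : ((R : ℤ) + 1 - -(R : ℤ)).toNat = 2 * R + 1 := by omega
        rw [this]; push_cast; ring
      rw [e]
      have h3 : c1 * ff Y ≤ c' * ff Y := mul_le_mul_of_nonneg_right hc1' hff0
      linarith)
  set y : ℝ := Y ^ (1 / 100 : ℝ) with hy
  have hyX : y ≤ X := by
    rw [hXY]
    calc y ≤ Y ^ (1 : ℝ) := Real.rpow_le_rpow_of_exponent_le (by linarith) (by norm_num)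
      _ = Y := Real.rpow_one _
      _ ≤ 2 * Y := by linarith
  set RR : Finset ℕ := 𝒢.image Int.toNat with hRR
  have hnn : ∀ n ∈ 𝒢, 0 ≤ n := by
    intro n hn
    have := (h𝒢 n hn).1.1
    omega
  have hRRcard : RR.card = 𝒢.card := by
    rw [hRR, Finset.card_image_of_injOn]
    intro a ha b hb hab
    have ha1 := hnn a ha
    have hb1 := hnn b hb
    omega
  have hRRmem : ∀ n ∈ RR, X < n ∧ (n : ℝ) ≤ X + Y ∧ ∀ k : ℕ, k ≤ R →
      ∃ p : ℕ, p.Prime ∧ (p : ℝ) ≤ y ∧ (p : ℤ) ∣ (n : ℤ) + k := by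
    intro n hn
    rw [hRR, Finset.mem_image] at hn
    obtain ⟨a, ha, rfl⟩ := hn
    have ha1 := hnn a ha
    have ha2 : ((a.toNat : ℕ) : ℤ) = a := Int.toNat_of_nonneg ha1
    have ha3 : ((a.toNat : ℕ) : ℝ) = a := by exact_mod_cast ha2
    obtain ⟨⟨d1, d2, _⟩, d3⟩ := h𝒢 a ha
    refine ⟨by omega, ?_, ?_⟩
    · rw [ha3]; exact_mod_cast d2
    · intro k hk
      rw [ha2]
      obtain ⟨p, hp1, hp2, hp3, _⟩ := d3 (k : ℤ) (by rw [Finset.mem_Icc]; omega)
      exact ⟨p, hp1, hp2, hp3⟩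
  set G : Finset ℕ := (Finset.Ioc X (2 * X)).filter (fun q : ℕ =>
    (4 : ℝ) ^ (-(4 + 3 / c)) * q ≤ (q.totient : ℝ) ∧
      ∀ p : ℕ, p.Prime → c * ff Y < |(p : ℝ) - q|) with hG
  refine ⟨G, ?_, ?_⟩
  · have h1 : (RR.card : ℝ) / 2 ≤ G.card := by
      apply double_count L hLpos (3 / c) RR G
      · intro n hn
        obtain ⟨e1, e2, e3⟩ := hRRmem n hn
        have h4 : ((n + L + L : ℕ) : ℝ) ≤ 4 * Y := by
          push_cast
          linarith
        have hpos : (0 : ℝ) < ((n + L + L : ℕ) : ℝ) := by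
          exact_mod_cast (by omega : 0 < n + L + L)
        have h5 : Real.log ((n + L + L : ℕ) : ℝ) ≤ 2 * Real.log Y := by
          have h6 : Real.log ((n + L + L : ℕ) : ℝ) ≤ Real.log (Y * Y) :=
            Real.log_le_log hpos (h4.trans (by nlinarith))
          rw [Real.log_mul hY0.ne' hY0.ne'] at h6
          linarith
        have hlog2 : 0.6931471803 < Real.log 2 := Real.log_two_gt_d9
        rw [div_le_iff₀ (by linarith)]
        have h6 : Real.log Y ≤ L / c := by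
          rw [le_div_iff₀ hc0]
          have : Real.log Y * c ≤ ff Y * c := mul_le_mul_of_nonneg_right b1 hc0.le
          linarith
        have h7 : 3 / c * L * Real.log 2 = 3 * Real.log 2 * (L / c) := by ring
        rw [h7]
        have h8 : 2 * Real.log Y ≤ 3 * Real.log 2 * (L / c) := by
          have : 0 ≤ (L : ℝ) / c := by positivity
          nlinarith
        linarith
      · intro n hn q hq hφ
        obtain ⟨e1, e2, e3⟩ := hRRmem n hn
        rw [hG, Finset.mem_filter, Finset.mem_Ioc]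
        have hq' := Finset.mem_Ioc.mp hq
        refine ⟨⟨by omega, ?_⟩, hφ, ?_⟩
        · have h4 : ((q : ℕ) : ℝ) ≤ 2 * X := by
            have h5 : (q : ℝ) ≤ ((n + L + L : ℕ) : ℝ) := by exact_mod_cast hq'.2
            push_cast at h5
            linarith
          exact_mod_cast h4
        · intro p hp
          refine lt_trans hLc (no_prime X n L q y hyX e1.le ?_ hq p hp)
          intro k hk1 hk2
          exact e3 k (by omega)
    refine le_trans ?_ h1
    rw [hRRcard]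
    exact div_le_div_of_nonneg_right hcard (by norm_num)
  · intro q hq
    rw [hG, Finset.mem_filter, Finset.mem_Ioc] at hq
    exact ⟨hq.1.1, hq.1.2, hq.2.1, hq.2.2⟩

end Pool.Agent.H99.KG
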