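import Pool.Agent.H99.KG.Rec

set_option autoImplicit false

/-! # Almost all numbers have good approximations with denominators in record prime-free intervals -/

namespace Pool.Agent.H99.KG

open Finset Filter MeasureTheory Topology
open Pool.Agent.H256R2.SC (ff)

lemma log_two_mul (a b : ℝ) (ha : 2 ≤ a) (hab : a ≤ b) (hb : b ≤ 2 * a) :
    Real.log a ≤ Real.log b ∧ Real.log b ≤ 2 * Real.log a := by
  refine ⟨Real.log_le_log (by linarith) hab, ?_⟩
  have h1 : Real.log b ≤ Real.log (a * a) := Real.log_le_log (by linarith) (by nlinarith)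
  rw [Real.log_mul (by linarith) (by linarith)] at h1
  linarith

/-- `f` does not grow much between `Y` and `4 Y` -/
lemma ff_double (Y q : ℝ) (h0 : 4 ≤ Y) (h1 : 4 ≤ Real.log Y) (h2 : 4 ≤ Real.log (Real.log Y))
    (h3 : 4 ≤ Real.log (Real.log (Real.log Y)))
    (h4 : 4 ≤ Real.log (Real.log (Real.log (Real.log Y)))) (hq1 : Y ≤ q) (hq2 : q ≤ 4 * Y) :
    ff q ≤ 16 * ff Y ∧ Real.log (Real.log q) ≤ 2 * Real.log (Real.log Y) ∧
      Real.log Y ≤ Real.log q ∧ Real.log q ≤ Real.log Y + 2 ∧ 0 < Real.log (Real.log q) := by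
  have a1 : Real.log q ≤ Real.log Y + 2 := by
    have e : Real.log q ≤ Real.log (4 * Y) := Real.log_le_log (by linarith) hq2
    rw [Real.log_mul (by norm_num) (by linarith)] at e
    have : Real.log 4 ≤ 2 := by
      rw [show (4 : ℝ) = 2 ^ 2 by norm_num, Real.log_pow]
      have := Real.log_two_lt_d9
      push_cast; linarith
    linarith
  have a0 : Real.log Y ≤ Real.log q := Real.log_le_log (by linarith) hq1
  obtain ⟨b1, b2⟩ := log_two_mul _ _ (by linarith) a0 (by linarith)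
  obtain ⟨c1, c2⟩ := log_two_mul _ _ (by linarith) b1 b2
  obtain ⟨d1, d2⟩ := log_two_mul _ _ (by linarith) c1 c2
  refine ⟨?_, b2, a0, a1, by linarith⟩
  set u := Real.log Y with hu
  set l := Real.log u with hl
  set m := Real.log l with hm
  set k := Real.log m with hk
  set u' := Real.log q with hu'
  set l' := Real.log u' with hl'
  set m' := Real.log l' with hm'
  set k' := Real.log m' with hk'
  have e : ff Y = u * l ^ 2 * k / m ^ 2 := rfl
  have e' : ff q = u' * l' ^ 2 * k' / m' ^ 2 := rfl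
  rw [e, e', ← mul_div_assoc]
  apply div_le_div₀ (by positivity) _ (by positivity) (by gcongr)
  calc u' * l' ^ 2 * k' ≤ (2 * u) * (2 * l) ^ 2 * (2 * k) := by
        have : u' ≤ 2 * u := by linarith
        have h5 : 0 ≤ k' := by linarith
        have h6 : 0 ≤ l' := by linarith
        gcongr
    _ = 16 * (u * l ^ 2 * k) := by ring

theorem record (B : ℕ) : ∃ c : ℝ, 0 < c ∧ ∀ᵐ x : ℝ, {q : ℕ | 0 < q ∧
    (∀ p : ℕ, p.Prime → c * ff q < |(p : ℝ) - q|) ∧
      ∃ a : ℤ, Int.gcd a q = 1 ∧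
        |x - a / q| < (q : ℝ) ^ (-2 + 1 / (Real.log (Real.log q)) ^ B : ℝ)}.Infinite := by
  obtain ⟨c₀, c, hc₀, hc, hgood⟩ := record_good (B + 1)
  refine ⟨c / 16, by positivity, ?_⟩
  set ψ : ℕ → ℝ := fun q => (q : ℝ) ^ (-1 + 1 / (Real.log (Real.log q)) ^ B : ℝ) with hψ
  set 𝒢 : Set ℕ := {q | c₀ * q ≤ (q.totient : ℝ) ∧
    ∀ p : ℕ, p.Prime → c / 16 * ff q < |(p : ℝ) - q|} with h𝒢
  -- an inequality for the size
  have hsize : ∀ᶠ Y : ℝ in atTop, 8 * (2 : ℝ) ^ (B + 1) * Real.log (Real.log Y) ^ B ≤ Real.log Y := by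
    have h1 : ∀ᶠ u : ℝ in atTop, 8 * (2 : ℝ) ^ (B + 1) * Real.log u ^ B ≤ u := by
      have h2 := (Real.isLittleO_pow_log_id_atTop (n := B)).def
        (show (0 : ℝ) < 1 / (8 * (2 : ℝ) ^ (B + 1)) by positivity)
      filter_upwards [h2, eventually_ge_atTop (1 : ℝ)] with u hu hu1
      simp only [id, Real.norm_eq_abs] at hu
      rw [abs_of_nonneg (by linarith : (0:ℝ) ≤ u)] at hu
      have h3 := (le_abs_self _).trans hu
      have h4 : 0 < 8 * (2 : ℝ) ^ (B + 1) := by positivity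
      calc 8 * (2 : ℝ) ^ (B + 1) * Real.log u ^ B ≤ 8 * (2 : ℝ) ^ (B + 1) *
            (1 / (8 * (2 : ℝ) ^ (B + 1)) * u) := by gcongr
        _ = u := by field_simp
    exact Real.tendsto_log_atTop.eventually h1
  have hall := (hgood.and (log_facts (max 4 (2 ^ (B + 1))))).and hsize
  have hpow : Tendsto (fun j : ℕ => ((2 : ℝ) ^ j) / 2) atTop atTop :=
    (tendsto_pow_atTop_atTop_of_one_lt (by norm_num : (1 : ℝ) < 2)).atTop_div_const (by norm_num)
  have hrich : ∀ᶠ j : ℕ in atTop, ∃ G : Finset ℕ, G.Nonempty ∧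
      ∀ q ∈ G, 2 ^ j < q ∧ q ≤ 2 ^ (j + 1) ∧ q ∈ 𝒢 ∧ 1 ≤ (G.card : ℝ) * ψ q := by
    filter_upwards [hpow.eventually hall] with j hj
    obtain ⟨⟨hj1, hlogs⟩, hsz⟩ := hj
    set Y : ℝ := (2 : ℝ) ^ j / 2 with hY
    obtain ⟨g0, g1, g2, g3, g4, g5⟩ := hlogs
    have hmx4 : (4 : ℝ) ≤ max 4 (2 ^ (B + 1)) := le_max_left _ _
    have hmxB : (2 : ℝ) ^ (B + 1) ≤ max 4 (2 ^ (B + 1)) := le_max_right _ _
    obtain ⟨G, hG1, hG2⟩ := hj1 (2 ^ j) (by rw [hY]; push_cast; ring)
    have hY0 : 0 < Y := by linarith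
    have hGpos : (0 : ℝ) < G.card := lt_of_lt_of_le (by positivity) hG1
    refine ⟨G, Finset.card_pos.mp (by exact_mod_cast hGpos), ?_⟩
    intro q hq
    obtain ⟨a1, a2, a3, a4⟩ := hG2 q hq
    have a2' : q ≤ 2 ^ (j + 1) := by rw [pow_succ]; omega
    have hqY : Y ≤ q := by
      have : ((2 ^ j : ℕ) : ℝ) ≤ q := by exact_mod_cast a1.le
      push_cast at this
      rw [hY]
      have : (0 : ℝ) < 2 ^ j := by positivity
      linarith
    have hqY4 : (q : ℝ) ≤ 4 * Y := by
      have : (q : ℝ) ≤ ((2 * 2 ^ j : ℕ) : ℝ) := by exact_mod_cast a2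
      push_cast at this
      rw [hY]; linarith
    obtain ⟨f1, f2, f3, f4, f5⟩ := ff_double Y q (by linarith) (by linarith) (by linarith) (by linarith)
      (by linarith) hqY hqY4
    refine ⟨a1, a2', ⟨a3, ?_⟩, ?_⟩
    · intro p hp
      refine lt_of_le_of_lt ?_ (a4 p hp)
      calc c / 16 * ff q ≤ c / 16 * (16 * ff Y) := by gcongr
        _ = c * ff Y := by ring
    · -- the size of the set
      set u := Real.log Y with hu
      set l := Real.log u with hl
      set v := Real.log (q : ℝ) with hv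
      have hl4 : 4 ≤ l := by linarith
      have hq0 : (0 : ℝ) < q := by linarith
      have eψ : ψ q = Real.exp (-v + v * (1 / (Real.log v) ^ B)) := by
        rw [hψ]
        simp only
        rw [Real.rpow_def_of_pos hq0]
        congr 1
        rw [← hv]; ring
      have eG : Real.exp (u - u * (1 / l ^ (B + 1))) / 2 ≤ G.card := by
        refine le_trans (le_of_eq ?_) hG1
        rw [Real.rpow_def_of_pos hY0]
        congr 2
        rw [← hu]; ring
      have h1 : v * (1 / (Real.log v) ^ B) ≥ u * (1 / (2 * l) ^ B) := by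
        have : (0 : ℝ) < Real.log v := f5
        have hu0 : 0 < u := by linarith
        gcongr
      have h2 : 4 ≤ u * (1 / (2 * l) ^ B) - u * (1 / l ^ (B + 1)) := by
        have hl0 : 0 < l := by linarith
        have hu0 : 0 < u := by linarith
        have e1 : u * (1 / (2 * l) ^ B) - u * (1 / l ^ (B + 1)) =
            u / l ^ B * (1 / 2 ^ B - 1 / l) := by
          rw [mul_pow, pow_succ]
          field_simp
        rw [e1]
        have h3 : 1 / (2 : ℝ) ^ (B + 1) ≤ 1 / 2 ^ B - 1 / l := by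
          have h4 : 1 / l ≤ 1 / (2 : ℝ) ^ (B + 1) :=
            one_div_le_one_div_of_le (by positivity) (by linarith)
          have h5 : 1 / (2 : ℝ) ^ B = 2 * (1 / (2 : ℝ) ^ (B + 1)) := by
            rw [pow_succ]; field_simp
          linarith
        have h6 : 8 * (2 : ℝ) ^ (B + 1) ≤ u / l ^ B := by
          rw [le_div_iff₀ (by positivity)]
          exact hsz
        calc (4 : ℝ) ≤ (8 * (2 : ℝ) ^ (B + 1)) * (1 / (2 : ℝ) ^ (B + 1)) := by
              rw [mul_one_div, mul_div_cancel_right₀ _ (by positivity)]; norm_num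
          _ ≤ _ := by gcongr
      have h3 : (2 : ℝ) ≤ Real.exp 2 := by
        have := Real.add_one_le_exp (2 : ℝ); linarith
      have h4 : 1 ≤ Real.exp (u - u * (1 / l ^ (B + 1))) / 2 *
          Real.exp (-v + v * (1 / (Real.log v) ^ B)) := by
        rw [div_mul_eq_mul_div, ← Real.exp_add, le_div_iff₀ (by norm_num), one_mul]
        refine h3.trans (Real.exp_le_exp.mpr ?_)
        linarith
      rw [eψ]
      refine h4.trans ?_
      exact mul_le_mul_of_nonneg_right eG (Real.exp_pos _).le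
  have := ds_set c₀ hc₀ 𝒢 (fun q hq => hq.1) ψ (fun q => by rw [hψ]; positivity) hrich
  filter_upwards [this] with x hx
  apply hx.mono
  rintro q ⟨h1, h2, a, h3, h4⟩
  refine ⟨h1, h2.2, a, h3, lt_of_lt_of_eq h4 ?_⟩
  have hq0 : (0 : ℝ) < q := by exact_mod_cast h1
  rw [hψ]
  simp only
  rw [div_eq_mul_inv, ← Real.rpow_neg_one, ← Real.rpow_add hq0]
  congr 1
  ring

end Pool.Agent.H99.KG
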